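import Mathlib
import Pool.Agent.TH791.Coul

/-!
# Newtonian potentials of bounded densities in the unit ball of `ℝ³`
-/

set_option autoImplicit false
open MeasureTheory Set Filter Topology Metric
open Pool.Agent.TH791.Cl

namespace Pool.Agent.H493.Cav

/-- potential of the ball of radius `s` at distance `a` from its centre -/
noncomputable def NB (s a : ℝ) : ℝ :=
  if s ≤ a then (4/3*Real.pi*s^3)/a else 2*Real.pi*s^2 - 2/3*Real.pi*a^2

lemma ballpot0 (a s : ℝ) (hs : 0 < s) (ha0 : 0 ≤ a) :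
    ∫ x in ball (0:E3) s, 1 / ‖x - EuclideanSpace.single 0 a‖ = NB s a := by
  obtain ⟨hi, hv⟩ := FF_int a s hs
  have hval : ∫ x in ball (0:E3) s, 1 / ‖x - EuclideanSpace.single 0 a‖ =
      2 * Real.pi * ((∫ z in (-s)..s, √(s^2+a^2-2*a*z)) - ∫ z in (-s)..s, |z-a|) := by
    rw [← integral_indicator measurableSet_ball]
    simp only [FF_eq a s hs]
    rw [← tot a s hs, ← hv]
    exact eqv_mp.integral_comp eqv.measurableEmbedding (FF a s)
  rw [hval]
  unfold NB
  rcases ha0.eq_or_lt with h0 | h0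
  · subst h0
    rw [if_neg (not_le.2 hs), B_val2 0 s hs le_rfl hs.le]
    have : ∫ z in (-s)..s, √(s^2+0^2-2*0*z) = 2*s^2 := by
      have e : ∀ z : ℝ, √(s^2+0^2-2*0*z) = s := by
        intro z
        rw [show s^2+0^2-2*0*z = s^2 by ring, Real.sqrt_sq hs.le]
      simp only [e, intervalIntegral.integral_const, smul_eq_mul]
      ring
    rw [this]
    ring
  · rw [A_val a s hs h0]
    split_ifs with h
    · rw [B_val1 a s hs h, abs_of_nonpos (by linarith)]
      field_simp
      ring
    · push Not at h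
      rw [B_val2 a s hs h0.le h.le, abs_of_nonneg (by linarith)]
      field_simp
      ring

theorem ballpot (x0 y : E3) (s : ℝ) (hs : 0 < s) :
    ∫ x in ball x0 s, 1 / ‖x - y‖ = NB s ‖x0 - y‖ := by
  set a := ‖x0 - y‖ with ha
  have ha0 : 0 ≤ a := norm_nonneg _
  have hn : ‖y - x0‖ = ‖(EuclideanSpace.single 0 a : E3)‖ := by
    rw [EuclideanSpace.norm_single, norm_sub_rev, Real.norm_of_nonneg ha0]
  set L : E3 ≃ₗᵢ[ℝ] E3 := Submodule.reflection (Submodule.span ℝ {(y - x0) - (EuclideanSpace.single 0 a : E3)})ᗮ with hL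
  have hLy : L (y - x0) = EuclideanSpace.single 0 a := Submodule.reflection_sub hn
  let T : E3 ≃ᵢ E3 := (IsometryEquiv.subRight x0).trans L.toIsometryEquiv
  have hTm : MeasurePreserving (fun x : E3 => L (x - x0)) := by
    exact L.measurePreserving.comp (measurePreserving_sub_right volume x0)
  have hTe : MeasurableEmbedding (fun x : E3 => L (x - x0)) :=
    T.toHomeomorph.measurableEmbedding
  have hpre : (fun x : E3 => L (x - x0)) ⁻¹' (ball 0 s) = ball x0 s := by
    ext x
    rw [mem_preimage, mem_ball_zero_iff, LinearIsometryEquiv.norm_map, mem_ball, dist_eq_norm]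
  have hf : ∀ x : E3, 1 / ‖x - y‖ = 1 / ‖L (x - x0) - EuclideanSpace.single 0 a‖ := by
    intro x
    rw [← hLy, ← map_sub, LinearIsometryEquiv.norm_map]
    congr 2
    abel
  have hint : ∫ x in ball x0 s, 1 / ‖x - y‖ = ∫ x in ball (0:E3) s, 1 / ‖x - EuclideanSpace.single 0 a‖ := by
    simp only [hf]
    rw [← hpre]
    exact hTm.setIntegral_preimage_emb hTe (fun x => 1 / ‖x - EuclideanSpace.single 0 a‖) _
  rw [hint, ballpot0 a s hs ha0]

/-- densities: measurable, between 0 and 1, supported in the unit ball -/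
def Den (g : E3 → ℝ) : Prop :=
  Measurable g ∧ (∀ x, 0 ≤ g x) ∧ (∀ x, g x ≤ 1) ∧ ∀ x, x ∉ ball (0:E3) 1 → g x = 0

lemma den_le_ind {g : E3 → ℝ} (hg : Den g) (x : E3) :
    g x ≤ (ball (0:E3) 1).indicator (fun _ => (1:ℝ)) x := by
  by_cases h : x ∈ ball (0:E3) 1
  · rw [indicator_of_mem h]; exact hg.2.2.1 x
  · rw [indicator_of_notMem h, hg.2.2.2 x h]

lemma ind_int : Integrable ((ball (0:E3) 1).indicator (fun _ => (1:ℝ))) := by
  rw [integrable_indicator_iff measurableSet_ball]
  exact integrableOn_const (hs := measure_ball_lt_top.ne)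

lemma den_int {g : E3 → ℝ} (hg : Den g) : Integrable g := by
  refine ind_int.mono' hg.1.aestronglyMeasurable (ae_of_all _ fun x => ?_)
  rw [Real.norm_of_nonneg (hg.2.1 x)]
  exact den_le_ind hg x

/-- bounded measurable functions supported in the unit ball are `Nice` -/
lemma nice_of_bdd {g : E3 → ℝ} (hm : Measurable g) (C : ℝ) (hC : ∀ x, |g x| ≤ C)
    (h0 : ∀ x, x ∉ ball (0:E3) 1 → g x = 0) : Nice g := by
  have hC0 : 0 ≤ C := (abs_nonneg _).trans (hC 0)
  refine ⟨hm, ?_, ?_⟩
  · refine (ind_int.const_mul C).mono' hm.aestronglyMeasurable (ae_of_all _ fun x => ?_)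
    by_cases h : x ∈ ball (0:E3) 1
    · rw [indicator_of_mem h, mul_one]; exact hC x
    · rw [indicator_of_notMem h, h0 x h]; simp
  · refine (ind_int.const_mul (C ^ (5/3:ℝ))).mono' ((hm.abs).pow_const _).aestronglyMeasurable
      (ae_of_all _ fun x => ?_)
    rw [Real.norm_of_nonneg (by positivity)]
    by_cases h : x ∈ ball (0:E3) 1
    · rw [indicator_of_mem h, mul_one]
      exact Real.rpow_le_rpow (abs_nonneg _) (hC x) (by norm_num)
    · rw [indicator_of_notMem h, h0 x h, abs_zero, Real.zero_rpow (by norm_num)]; simp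

lemma den_nice {g : E3 → ℝ} (hg : Den g) : Nice g :=
  nice_of_bdd hg.1 1 (fun x => by rw [abs_of_nonneg (hg.2.1 x)]; exact hg.2.2.1 x) hg.2.2.2

lemma nice_pint {g : E3 → ℝ} (hg : Nice g) (x : E3) : Integrable (fun y => g y / ‖x - y‖) := by
  obtain ⟨B, hB⟩ := nice_bound g hg
  exact (hB x).1

/-- potential of the indicator of a ball -/
lemma pot_ball (x0 x : E3) (s : ℝ) (hs : 0 < s) :
    pot ((ball x0 s).indicator (fun _ => (1:ℝ))) x = NB s ‖x0 - x‖ := by
  rw [← ballpot x0 x s hs, ← integral_indicator measurableSet_ball]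
  unfold pot
  apply integral_congr_ae
  refine ae_of_all _ fun y => ?_
  by_cases h : y ∈ ball x0 s
  · simp only [indicator_of_mem h, norm_sub_rev]
  · simp only [indicator_of_notMem h, zero_div]

lemma pot_nonneg {g : E3 → ℝ} (hg : ∀ x, 0 ≤ g x) (x : E3) : 0 ≤ pot g x :=
  integral_nonneg fun y => div_nonneg (hg y) (norm_nonneg _)

lemma pot_mono_ae {g h : E3 → ℝ} (hg : Nice g) (hh : Nice h) (hle : ∀ᵐ x, g x ≤ h x) (x : E3) :
    pot g x ≤ pot h x := by
  apply integral_mono_ae (nice_pint hg x) (nice_pint hh x)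
  filter_upwards [hle] with y hy
  exact div_le_div_of_nonneg_right hy (norm_nonneg _)

lemma pot_congr_ae {g h : E3 → ℝ} (hle : ∀ᵐ x, g x = h x) (x : E3) :
    pot g x = pot h x := by
  apply integral_congr_ae
  filter_upwards [hle] with y hy
  simp only [hy]

lemma den_ball : Den ((ball (0:E3) 1).indicator (fun _ => (1:ℝ))) := by
  refine ⟨measurable_const.indicator measurableSet_ball, fun x => ?_, fun x => ?_, fun x hx => ?_⟩
  · exact indicator_nonneg (fun _ _ => zero_le_one) x
  · by_cases h : x ∈ ball (0:E3) 1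
    · rw [indicator_of_mem h]
    · rw [indicator_of_notMem h]; exact zero_le_one
  · rw [indicator_of_notMem hx]

lemma pot_le {g : E3 → ℝ} (hg : Den g) (x : E3) : pot g x ≤ NB 1 ‖x‖ := by
  have h := pot_mono_ae (den_nice hg) (den_nice den_ball) (ae_of_all _ fun x => den_le_ind hg x) x
  rwa [pot_ball 0 x 1 one_pos, zero_sub, norm_neg] at h

lemma pot_tendsto {g : E3 → ℝ} (hg : Den g) : Tendsto (pot g) (cocompact E3) (𝓝 0) := by
  have h1 : Tendsto (fun x : E3 => (4/3*Real.pi*1^3) / ‖x‖) (cocompact E3) (𝓝 0) :=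
    (tendsto_norm_cocompact_atTop (E := E3)).const_div_atTop _
  refine tendsto_of_tendsto_of_tendsto_of_le_of_le' tendsto_const_nhds h1
    (Eventually.of_forall fun x => pot_nonneg hg.2.1 x) ?_
  filter_upwards [(tendsto_norm_cocompact_atTop (E := E3)).eventually_ge_atTop 1] with x hx
  have := pot_le hg x
  unfold NB at this
  rwa [if_pos hx] at this

end Pool.Agent.H493.Cav
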