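import Mathlib
import Pool.Agent.H493.CavPot

/-!
# Continuity of potentials (the modulus lemma is copied from the starting file
`Pool/Agent/Helper557/TF/Core.lean`) and ball averages
-/

set_option autoImplicit false
open MeasureTheory Set Filter Topology Metric
open Pool.Agent.TH791.Cl

namespace Pool.Agent.H493.Cav

theorem TF_nice_modulus_young (τ : ℝ) (hτ : 0 < τ) : ∃ C : ℝ, 0 < C ∧ ∀ a b : ℝ, 0 ≤ a → 0 ≤ b →
    a * b ≤ τ * a ^ (5/3 : ℝ) + C * b ^ (5/2 : ℝ) := by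
  have hθ : 0 < τ ^ (3/5 : ℝ) := Real.rpow_pos_of_pos hτ _
  refine ⟨((τ ^ (3/5 : ℝ))⁻¹) ^ (5/2 : ℝ), by positivity, fun a b ha hb => ?_⟩
  have hpq : (5/3 : ℝ).HolderConjugate (5/2 : ℝ) := by
    rw [Real.holderConjugate_iff]; norm_num
  have h1 := Real.young_inequality_of_nonneg (mul_nonneg hθ.le ha)
    (mul_nonneg (inv_pos.mpr hθ).le hb) hpq
  have h2 : (τ ^ (3/5 : ℝ) * a) * ((τ ^ (3/5 : ℝ))⁻¹ * b) = a * b := by
    field_simp
  have h3 : (τ ^ (3/5 : ℝ) * a) ^ (5/3 : ℝ) = τ * a ^ (5/3 : ℝ) := by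
    rw [Real.mul_rpow hθ.le ha, ← Real.rpow_mul hτ.le]
    norm_num
  rw [h2, h3, Real.mul_rpow (inv_pos.mpr hθ).le hb] at h1
  have h4 : 0 ≤ τ * a ^ (5/3 : ℝ) := by positivity
  have h5 : 0 ≤ ((τ ^ (3/5 : ℝ))⁻¹) ^ (5/2 : ℝ) * b ^ (5/2 : ℝ) := by positivity
  have h6 : τ * a ^ (5/3 : ℝ) / (5/3) ≤ τ * a ^ (5/3 : ℝ) := by
    rw [div_le_iff₀ (by norm_num)]; linarith
  have h7 : ((τ ^ (3/5 : ℝ))⁻¹) ^ (5/2 : ℝ) * b ^ (5/2 : ℝ) / (5/2) ≤
      ((τ ^ (3/5 : ℝ))⁻¹) ^ (5/2 : ℝ) * b ^ (5/2 : ℝ) := by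
    rw [div_le_iff₀ (by norm_num)]; linarith
  linarith

theorem TF_nice_modulus_int : IntegrableOn (fun u : E3 => ‖u‖ ^ (-(5/2) : ℝ)) (ball 0 1) := by
  rw [integrableOn_fun_norm_addHaar volume (f := fun y : ℝ => y ^ (-(5/2) : ℝ))]
  have hfr : Module.finrank ℝ E3 = 3 := finrank_euclideanSpace_fin
  rw [hfr]
  have h1 : IntegrableOn (fun y : ℝ => y ^ (-(1/2) : ℝ)) (Ioo 0 1) :=
    (intervalIntegral.integrableOn_Ioo_rpow_iff one_pos).mpr (by norm_num)
  refine h1.congr_fun ?_ measurableSet_Ioo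
  intro y hy
  have hy0 : 0 < y := hy.1
  show y ^ (-(1/2) : ℝ) = y ^ (3 - 1) • y ^ (-(5/2) : ℝ)
  rw [smul_eq_mul, ← Real.rpow_natCast, ← Real.rpow_add hy0]
  norm_num

theorem TF_nice_modulus_small (δ : ℝ) (hδ : 0 < δ) : ∃ r : ℝ, 0 < r ∧
    Integrable (indicator (ball (0:E3) (2 * r)) (fun u : E3 => ‖u‖ ^ (-(5/2) : ℝ))) ∧
    ∫ u : E3, indicator (ball (0:E3) (2 * r)) (fun u : E3 => ‖u‖ ^ (-(5/2) : ℝ)) u ≤ δ := by
  have hint := TF_nice_modulus_int
  have hint' : Integrable (indicator (ball (0:E3) 1) (fun u : E3 => ‖u‖ ^ (-(5/2) : ℝ))) :=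
    (integrable_indicator_iff measurableSet_ball).mpr hint
  have hvol : Tendsto ((volume : Measure E3) ∘ fun n : ℕ => ball (0:E3) (1 / ((n:ℝ) + 1))) atTop (𝓝 0) := by
    have h1 : ∀ n : ℕ, (volume : Measure E3) (ball (0:E3) (1 / ((n:ℝ) + 1))) =
        ENNReal.ofReal ((1 / ((n:ℝ) + 1)) ^ Module.finrank ℝ E3) * volume (ball (0:E3) 1) :=
      fun n => Measure.addHaar_ball volume (0:E3) (by positivity)
    have h2 : Tendsto (fun n : ℕ => (1 / ((n:ℝ) + 1)) ^ Module.finrank ℝ E3) atTop (𝓝 0) := by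
      have := (tendsto_one_div_add_atTop_nhds_zero_nat (𝕜 := ℝ)).pow (Module.finrank ℝ E3)
      rwa [zero_pow (by rw [finrank_euclideanSpace_fin]; norm_num)] at this
    have h3 : Tendsto (fun n : ℕ => ENNReal.ofReal ((1 / ((n:ℝ) + 1)) ^ Module.finrank ℝ E3) *
        volume (ball (0:E3) 1)) atTop (𝓝 (0 * volume (ball (0:E3) 1))) := by
      refine ENNReal.Tendsto.mul_const ?_ (Or.inr measure_ball_lt_top.ne)
      have := (ENNReal.continuous_ofReal.tendsto 0).comp h2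
      rwa [ENNReal.ofReal_zero] at this
    rw [zero_mul] at h3
    exact h3.congr fun n => (h1 n).symm
  have ht := hint'.tendsto_setIntegral_nhds_zero hvol
  obtain ⟨n, hn⟩ := (ht.eventually (gt_mem_nhds hδ)).exists
  have hn1 : (0:ℝ) < (n:ℝ) + 1 := by positivity
  have hr2 : 2 * (1 / (2 * ((n:ℝ) + 1))) = 1 / ((n:ℝ) + 1) := by field_simp
  have hle1 : 1 / ((n:ℝ) + 1) ≤ 1 := by
    rw [div_le_one hn1]
    have : (0:ℝ) ≤ n := Nat.cast_nonneg n
    linarith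
  have hsub : ball (0:E3) (1 / ((n:ℝ) + 1)) ⊆ ball (0:E3) 1 := ball_subset_ball hle1
  refine ⟨1 / (2 * ((n:ℝ) + 1)), by positivity, ?_, ?_⟩
  · rw [hr2]
    exact (integrable_indicator_iff measurableSet_ball).mpr (hint.mono_set hsub)
  · rw [hr2]
    rw [← integral_indicator measurableSet_ball, Set.indicator_indicator,
      Set.inter_eq_left.mpr hsub] at hn
    exact hn.le

theorem TF_nice_modulus_pt (r : ℝ) (hr : 0 < r) (x x' y : E3) (h : ‖x - x'‖ < r) :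
    |1 / ‖x - y‖ - 1 / ‖x' - y‖| ≤ indicator (ball (0:E3) (2 * r)) (fun u => 1 / ‖u‖) (x - y) +
      indicator (ball (0:E3) (2 * r)) (fun u => 1 / ‖u‖) (x' - y) + ‖x - x'‖ / r ^ 2 := by
  have hφ : ∀ u : E3, 0 ≤ indicator (ball (0:E3) (2 * r)) (fun u => 1 / ‖u‖) u := fun u =>
    Set.indicator_nonneg (fun u _ => by positivity) u
  have hab : |‖x - y‖ - ‖x' - y‖| ≤ ‖x - x'‖ := by
    have := abs_norm_sub_norm_le (x - y) (x' - y)
    rwa [sub_sub_sub_cancel_right] at this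
  have hab2 := abs_le.mp hab
  by_cases hboth : r ≤ ‖x - y‖ ∧ r ≤ ‖x' - y‖
  · obtain ⟨h1, h2⟩ := hboth
    have p1 : 0 < ‖x - y‖ := lt_of_lt_of_le hr h1
    have p2 : 0 < ‖x' - y‖ := lt_of_lt_of_le hr h2
    have h3 : 1 / ‖x - y‖ - 1 / ‖x' - y‖ = (‖x' - y‖ - ‖x - y‖) / (‖x - y‖ * ‖x' - y‖) := by
      field_simp
    have h4 : |1 / ‖x - y‖ - 1 / ‖x' - y‖| ≤ ‖x - x'‖ / r ^ 2 := by
      rw [h3, abs_div, abs_of_pos (mul_pos p1 p2), abs_sub_comm]
      refine div_le_div₀ (norm_nonneg _) hab (by positivity) ?_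
      rw [sq]
      exact mul_le_mul h1 h2 hr.le p1.le
    have := hφ (x - y)
    have := hφ (x' - y)
    linarith
  · have hlt : ‖x - y‖ < 2 * r ∧ ‖x' - y‖ < 2 * r := by
      by_cases h1 : r ≤ ‖x - y‖
      · have h2 : ¬ r ≤ ‖x' - y‖ := fun h2 => hboth ⟨h1, h2⟩
        constructor <;> linarith
      · constructor <;> linarith
    have m1 : x - y ∈ ball (0:E3) (2 * r) := by rw [mem_ball_zero_iff]; exact hlt.1
    have m2 : x' - y ∈ ball (0:E3) (2 * r) := by rw [mem_ball_zero_iff]; exact hlt.2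
    rw [Set.indicator_of_mem m1, Set.indicator_of_mem m2]
    have q1 : 0 ≤ 1 / ‖x - y‖ := by positivity
    have q2 : 0 ≤ 1 / ‖x' - y‖ := by positivity
    have q3 : 0 ≤ ‖x - x'‖ / r ^ 2 := by positivity
    rw [abs_le]
    constructor <;> linarith

theorem nice_modulus (g : E3 → ℝ) (hg : Nice g) (ε : ℝ) (hε : 0 < ε) :
    ∃ η : ℝ, 0 < η ∧ ∀ x x' : E3, ‖x - x'‖ < η →
      Integrable (fun y => |g y| * |1 / ‖x - y‖ - 1 / ‖x' - y‖|) ∧
      ∫ y, |g y| * |1 / ‖x - y‖ - 1 / ‖x' - y‖| ≤ ε := by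
  obtain ⟨hgm, hg1, hg2⟩ := hg
  set G : ℝ := ∫ x, |g x| ^ (5/3 : ℝ) with hG
  set N : ℝ := ∫ x, |g x| with hN
  have hG0 : 0 ≤ G := integral_nonneg fun x => Real.rpow_nonneg (abs_nonneg _) _
  have hN0 : 0 ≤ N := integral_nonneg fun x => abs_nonneg _
  obtain ⟨C, hC, hyoung⟩ := TF_nice_modulus_young (ε / (6 * (G + 1))) (by positivity)
  obtain ⟨r, hr, hψi, hψ⟩ := TF_nice_modulus_small (ε / (6 * C)) (by positivity)
  refine ⟨min r (ε * r ^ 2 / (3 * (N + 1))), by positivity, fun x x' hxx => ?_⟩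
  have hxr : ‖x - x'‖ < r := lt_of_lt_of_le hxx (min_le_left _ _)
  have hxe : ‖x - x'‖ ≤ ε * r ^ 2 / (3 * (N + 1)) := (lt_of_lt_of_le hxx (min_le_right _ _)).le
  have hψx : ∀ z : E3, Integrable (fun y =>
      indicator (ball (0:E3) (2 * r)) (fun u : E3 => ‖u‖ ^ (-(5/2) : ℝ)) (z - y)) := fun z =>
    hψi.comp_sub_left z
  have hpw : ∀ u : E3, (indicator (ball (0:E3) (2 * r)) (fun u => 1 / ‖u‖) u) ^ (5/2 : ℝ) =
      indicator (ball (0:E3) (2 * r)) (fun u : E3 => ‖u‖ ^ (-(5/2) : ℝ)) u := by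
    intro u
    by_cases hu : u ∈ ball (0:E3) (2 * r)
    · rw [Set.indicator_of_mem hu, Set.indicator_of_mem hu, one_div,
        Real.inv_rpow (norm_nonneg _), Real.rpow_neg (norm_nonneg _)]
    · rw [Set.indicator_of_notMem hu, Set.indicator_of_notMem hu, Real.zero_rpow (by norm_num)]
  have hφ : ∀ u : E3, 0 ≤ indicator (ball (0:E3) (2 * r)) (fun u => 1 / ‖u‖) u := fun u =>
    Set.indicator_nonneg (fun u _ => by positivity) u
  -- dominating function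
  have hbound : ∀ y, |g y| * |1 / ‖x - y‖ - 1 / ‖x' - y‖| ≤
      (ε / (6 * (G + 1)) * |g y| ^ (5/3 : ℝ) +
        C * indicator (ball (0:E3) (2 * r)) (fun u : E3 => ‖u‖ ^ (-(5/2) : ℝ)) (x - y)) +
      (ε / (6 * (G + 1)) * |g y| ^ (5/3 : ℝ) +
        C * indicator (ball (0:E3) (2 * r)) (fun u : E3 => ‖u‖ ^ (-(5/2) : ℝ)) (x' - y)) +
      |g y| * (‖x - x'‖ / r ^ 2) := by
    intro y
    have h1 := mul_le_mul_of_nonneg_left (TF_nice_modulus_pt r hr x x' y hxr) (abs_nonneg (g y))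
    have h2 := hyoung (|g y|) _ (abs_nonneg _) (hφ (x - y))
    have h3 := hyoung (|g y|) _ (abs_nonneg _) (hφ (x' - y))
    rw [hpw] at h2 h3
    rw [mul_add, mul_add] at h1
    linarith
  have i1 : Integrable (fun y => ε / (6 * (G + 1)) * |g y| ^ (5/3 : ℝ)) := hg2.const_mul _
  have i2 : ∀ z : E3, Integrable (fun y => C *
      indicator (ball (0:E3) (2 * r)) (fun u : E3 => ‖u‖ ^ (-(5/2) : ℝ)) (z - y)) := fun z =>
    (hψx z).const_mul C
  have i3 : Integrable (fun y => |g y| * (‖x - x'‖ / r ^ 2)) := hg1.abs.mul_const _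
  have hD : Integrable (fun y => (ε / (6 * (G + 1)) * |g y| ^ (5/3 : ℝ) +
        C * indicator (ball (0:E3) (2 * r)) (fun u : E3 => ‖u‖ ^ (-(5/2) : ℝ)) (x - y)) +
      (ε / (6 * (G + 1)) * |g y| ^ (5/3 : ℝ) +
        C * indicator (ball (0:E3) (2 * r)) (fun u : E3 => ‖u‖ ^ (-(5/2) : ℝ)) (x' - y)) +
      |g y| * (‖x - x'‖ / r ^ 2)) := ((i1.add (i2 x)).add (i1.add (i2 x'))).add i3
  have hmeas : AEStronglyMeasurable (fun y => |g y| * |1 / ‖x - y‖ - 1 / ‖x' - y‖|) volume := by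
    have m1 : Measurable fun y => |g y| := hgm.abs
    have m2 : Measurable fun y : E3 => |1 / ‖x - y‖ - 1 / ‖x' - y‖| := by fun_prop
    exact (m1.mul m2).aestronglyMeasurable
  have hint : Integrable (fun y => |g y| * |1 / ‖x - y‖ - 1 / ‖x' - y‖|) := by
    refine hD.mono' hmeas (Filter.Eventually.of_forall fun y => ?_)
    rw [Real.norm_of_nonneg (by positivity)]
    exact hbound y
  refine ⟨hint, ?_⟩
  refine (integral_mono hint hD hbound).trans ?_
  have hψe : ∀ z : E3, ∫ y, C *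
      indicator (ball (0:E3) (2 * r)) (fun u : E3 => ‖u‖ ^ (-(5/2) : ℝ)) (z - y) ≤ ε / 6 := by
    intro z
    rw [integral_const_mul, integral_sub_left_eq_self
      (fun u => indicator (ball (0:E3) (2 * r)) (fun u : E3 => ‖u‖ ^ (-(5/2) : ℝ)) u) volume z]
    calc _ ≤ C * (ε / (6 * C)) := mul_le_mul_of_nonneg_left hψ hC.le
      _ = ε / 6 := by field_simp
  have hGe : ∫ y, ε / (6 * (G + 1)) * |g y| ^ (5/3 : ℝ) ≤ ε / 6 := by
    rw [integral_const_mul, ← hG]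
    calc ε / (6 * (G + 1)) * G ≤ ε / (6 * (G + 1)) * (G + 1) :=
          mul_le_mul_of_nonneg_left (by linarith) (by positivity)
      _ = ε / 6 := by field_simp
  have hNe : ∫ y, |g y| * (‖x - x'‖ / r ^ 2) ≤ ε / 3 := by
    rw [integral_mul_const, ← hN]
    calc N * (‖x - x'‖ / r ^ 2) ≤ (N + 1) * ((ε * r ^ 2 / (3 * (N + 1))) / r ^ 2) := by
          refine mul_le_mul (by linarith) ?_ (by positivity) (by positivity)
          exact div_le_div_of_nonneg_right hxe (by positivity)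
      _ = ε / 3 := by field_simp
  have j1 : ∀ z : E3, Integrable (fun y => ε / (6 * (G + 1)) * |g y| ^ (5/3 : ℝ) +
      C * indicator (ball (0:E3) (2 * r)) (fun u : E3 => ‖u‖ ^ (-(5/2) : ℝ)) (z - y)) := fun z =>
    i1.add (i2 z)
  have j2 : Integrable (fun y => (ε / (6 * (G + 1)) * |g y| ^ (5/3 : ℝ) +
        C * indicator (ball (0:E3) (2 * r)) (fun u : E3 => ‖u‖ ^ (-(5/2) : ℝ)) (x - y)) +
      (ε / (6 * (G + 1)) * |g y| ^ (5/3 : ℝ) +
        C * indicator (ball (0:E3) (2 * r)) (fun u : E3 => ‖u‖ ^ (-(5/2) : ℝ)) (x' - y))) :=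
    (j1 x).add (j1 x')
  have e1 : ∀ z : E3, ∫ y, (ε / (6 * (G + 1)) * |g y| ^ (5/3 : ℝ) +
      C * indicator (ball (0:E3) (2 * r)) (fun u : E3 => ‖u‖ ^ (-(5/2) : ℝ)) (z - y)) =
      (∫ y, ε / (6 * (G + 1)) * |g y| ^ (5/3 : ℝ)) +
      ∫ y, C * indicator (ball (0:E3) (2 * r)) (fun u : E3 => ‖u‖ ^ (-(5/2) : ℝ)) (z - y) :=
    fun z => integral_add i1 (i2 z)
  rw [integral_add j2 i3, integral_add (j1 x) (j1 x'), e1, e1]
  have := hψe x
  have := hψe x'
  linarith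

theorem pot_continuous {g : E3 → ℝ} (hg : Nice g) : Continuous (pot g) := by
  rw [Metric.continuous_iff]
  intro x ε hε
  obtain ⟨η, hη, h⟩ := nice_modulus g hg (ε/2) (by positivity)
  refine ⟨η, hη, fun x' hx' => ?_⟩
  rw [dist_eq_norm] at hx'
  obtain ⟨h1, h2⟩ := h x' x hx'
  rw [Real.dist_eq]
  have h3 : pot g x' - pot g x = ∫ y, g y * (1 / ‖x' - y‖ - 1 / ‖x - y‖) := by
    unfold pot
    rw [← integral_sub (nice_pint hg x') (nice_pint hg x)]
    apply integral_congr_ae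
    refine ae_of_all _ fun y => ?_
    show g y / ‖x' - y‖ - g y / ‖x - y‖ = g y * (1 / ‖x' - y‖ - 1 / ‖x - y‖)
    ring
  rw [h3]
  calc |∫ y, g y * (1 / ‖x' - y‖ - 1 / ‖x - y‖)| ≤ ∫ y, |g y * (1 / ‖x' - y‖ - 1 / ‖x - y‖)| :=
        abs_integral_le_integral_abs
    _ = ∫ y, |g y| * |1 / ‖x' - y‖ - 1 / ‖x - y‖| := by simp only [abs_mul]
    _ ≤ ε/2 := h2
    _ < ε := by linarith

/-- the nonnegative weight in the ball average identity -/
noncomputable def WW (r a : ℝ) : ℝ :=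
  if 0 < a ∧ a < r then (4/3*Real.pi) * (r^3/a - 3/2*r^2 + 1/2*a^2) else 0

lemma WW_nonneg (r a : ℝ) : 0 ≤ WW r a := by
  unfold WW
  split_ifs with h
  · obtain ⟨h0, h1⟩ := h
    have e : r^3/a - 3/2*r^2 + 1/2*a^2 = (r-a)^2*(r+a/2)/a := by
      field_simp
      ring
    rw [e]
    have : 0 < Real.pi := Real.pi_pos
    have : 0 < r := h0.trans h1
    positivity
  · exact le_rfl

lemma WW_pos (r a : ℝ) (h0 : 0 < a) (h1 : a < r) : 0 < WW r a := by
  unfold WW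
  rw [if_pos ⟨h0, h1⟩]
  have e : r^3/a - 3/2*r^2 + 1/2*a^2 = (r-a)^2*(r+a/2)/a := by
    field_simp
    ring
  rw [e]
  have : 0 < Real.pi := Real.pi_pos
  have : 0 < r := h0.trans h1
  have : 0 < r - a := by linarith
  positivity

lemma WW_eq (r a : ℝ) (ha : 0 < a) : (4/3*Real.pi*r^3) * (1 / a) - NB r a = WW r a := by
  unfold NB WW
  by_cases h : r ≤ a
  · rw [if_pos h, if_neg (fun h' => absurd h'.2 (not_lt.2 h))]
    ring
  · push Not at h
    rw [if_neg (not_le.2 h), if_pos ⟨ha, h⟩]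
    ring

lemma vol_ball (x : E3) (r : ℝ) (hr : 0 ≤ r) : (volume (ball x r)).toReal = 4/3*Real.pi*r^3 := by
  rw [EuclideanSpace.volume_ball_fin_three]
  rw [← ENNReal.ofReal_pow hr, ← ENNReal.ofReal_mul (by positivity), ENNReal.toReal_ofReal (by positivity)]
  ring

/-- Ball average identity. -/
theorem avg_id {g : E3 → ℝ} (hg : Nice g) (x : E3) (r : ℝ) (hr : 0 < r) :
    (4/3*Real.pi*r^3) * pot g x - ∫ z in ball x r, pot g z = ∫ y, g y * WW r ‖x - y‖ := by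
  have hind : Nice ((ball x r).indicator (fun _ => (1:ℝ))) := by
    have hm : Measurable ((ball x r).indicator (fun _ : E3 => (1:ℝ))) :=
      measurable_const.indicator measurableSet_ball
    have hi : Integrable ((ball x r).indicator (fun _ : E3 => (1:ℝ))) := by
      rw [integrable_indicator_iff measurableSet_ball]
      exact integrableOn_const (hs := measure_ball_lt_top.ne)
    refine ⟨hm, hi, ?_⟩
    refine hi.congr (ae_of_all _ fun y => ?_)
    by_cases h : y ∈ ball x r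
    · simp only [indicator_of_mem h]; simp
    · simp only [indicator_of_notMem h]; rw [abs_zero, Real.zero_rpow (by norm_num)]
  have hsw := pd_swap ((ball x r).indicator (fun _ => (1:ℝ))) g hind hg
  have e1 : ∫ z in ball x r, pot g z = ∫ z, (ball x r).indicator (fun _ => (1:ℝ)) z * pot g z := by
    rw [← integral_indicator measurableSet_ball]
    apply integral_congr_ae
    refine ae_of_all _ fun z => ?_
    by_cases h : z ∈ ball x r
    · simp only [indicator_of_mem h, one_mul]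
    · simp only [indicator_of_notMem h, zero_mul]
  rw [e1, hsw]
  have hI1 : Integrable (fun y => (4/3*Real.pi*r^3) * (g y / ‖x - y‖)) :=
    (nice_pint hg x).const_mul _
  have hI2 := pd_int g ((ball x r).indicator (fun _ => (1:ℝ))) hg hind
  have e2 : (4/3*Real.pi*r^3) * pot g x = ∫ y, (4/3*Real.pi*r^3) * (g y / ‖x - y‖) := by
    unfold pot
    rw [← integral_const_mul]
  rw [e2, ← integral_sub hI1 hI2]
  apply integral_congr_ae
  have hne : ∀ᵐ y : E3, y ≠ x := by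
    rw [ae_iff]
    simp
  filter_upwards [hne] with y hy
  have hpos : 0 < ‖x - y‖ := norm_pos_iff.2 (sub_ne_zero.2 hy.symm)
  show (4/3*Real.pi*r^3) * (g y / ‖x - y‖) - g y * pot ((ball x r).indicator (fun _ => (1:ℝ))) y = g y * WW r ‖x - y‖
  rw [pot_ball x y r hr, ← WW_eq r _ hpos]
  ring

end Pool.Agent.H493.Cav
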