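import Mathlib
import Pool.Agent.TH791.Coul

/-!
# Strictly star-shaped bounded sets
-/

set_option autoImplicit false
open MeasureTheory Set Filter Topology Metric
open Pool.Agent.TH791.Cl
open scoped RealInnerProductSpace Pointwise

namespace Pool.Agent.H493.Cav

/-- strictly star-shaped around the origin -/
def Star (A : Set E3) : Prop := ∀ x ∈ closure A, ∀ s : ℝ, 0 ≤ s → s < 1 → s • x ∈ interior A

lemma star_surj (A : Set E3) (h0 : (0:E3) ∈ interior A) (hb : Bornology.IsBounded A)
    (u : E3) (hu : ‖u‖ = 1) : ∃ s : ℝ, 0 ≤ s ∧ s • u ∈ frontier A := by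
  obtain ⟨R, hR⟩ := hb.subset_closedBall 0
  set S : Set ℝ := {s | 0 ≤ s ∧ s • u ∈ A} with hS
  have hne : S.Nonempty := ⟨0, le_rfl, by rw [zero_smul]; exact interior_subset h0⟩
  have hbd : BddAbove S := by
    refine ⟨R, ?_⟩
    rintro s ⟨hs0, hs⟩
    have := hR hs
    rw [mem_closedBall, dist_zero_right, norm_smul, hu, mul_one, Real.norm_of_nonneg hs0] at this
    exact this
  have hs0 : 0 ≤ sSup S := le_csSup hbd ⟨le_rfl, by rw [zero_smul]; exact interior_subset h0⟩
  refine ⟨sSup S, hs0, ?_⟩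
  have hcont : Continuous (fun s : ℝ => s • u) := by fun_prop
  constructor
  · have h1 : sSup S ∈ closure S := csSup_mem_closure hne hbd
    have h2 : (fun s : ℝ => s • u) '' closure S ⊆ closure ((fun s : ℝ => s • u) '' S) :=
      image_closure_subset_closure_image hcont
    refine closure_mono ?_ (h2 ⟨_, h1, rfl⟩)
    rintro _ ⟨s, hs, rfl⟩
    exact hs.2
  · intro h1
    have h2 : (fun s : ℝ => s • u) ⁻¹' interior A ∈ 𝓝 (sSup S) :=
      (isOpen_interior.preimage hcont).mem_nhds h1
    obtain ⟨ε, hε, hball⟩ := Metric.mem_nhds_iff.1 h2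
    have h3 : sSup S + ε/2 ∈ ball (sSup S) ε := by
      rw [mem_ball, Real.dist_eq, add_sub_cancel_left, abs_of_pos (by positivity)]
      linarith
    have h4 : sSup S + ε/2 ∈ S := ⟨by positivity, interior_subset (hball h3)⟩
    have := le_csSup hbd h4
    linarith

theorem star_homeo (A : Set E3) (h0 : (0:E3) ∈ interior A) (hb : Bornology.IsBounded A)
    (hst : Star A) : Nonempty (frontier A ≃ₜ sphere (0:E3) 1) := by
  have hcomp : IsCompact (frontier A) := by
    apply Metric.isCompact_of_isClosed_isBounded isClosed_frontier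
    exact hb.closure.subset frontier_subset_closure
  haveI : CompactSpace (frontier A) := isCompact_iff_compactSpace.1 hcomp
  have hne : ∀ x ∈ frontier A, x ≠ 0 := by
    intro x hx h
    rw [h] at hx
    exact hx.2 h0
  have hlt : ∀ x ∈ frontier A, ∀ y ∈ frontier A, ‖x‖⁻¹ • x = ‖y‖⁻¹ • y → ¬ ‖x‖ < ‖y‖ := by
    intro x hx y hy hxy h
    have hx0 := norm_pos_iff.2 (hne x hx)
    have hy0 := norm_pos_iff.2 (hne y hy)
    have h1 : x = (‖x‖/‖y‖) • y := by
      have : x = ‖x‖ • (‖x‖⁻¹ • x) := by rw [smul_smul, mul_inv_cancel₀ hx0.ne', one_smul]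
      calc x = ‖x‖ • (‖x‖⁻¹ • x) := this
        _ = ‖x‖ • (‖y‖⁻¹ • y) := by rw [hxy]
        _ = (‖x‖/‖y‖) • y := by rw [smul_smul, div_eq_mul_inv]
    have h2 := hst y hy.1 (‖x‖/‖y‖) (by positivity) ((div_lt_one hy0).2 h)
    rw [← h1] at h2
    exact hx.2 h2
  let f : frontier A → sphere (0:E3) 1 := fun x => ⟨‖(x:E3)‖⁻¹ • (x:E3), by
    rw [mem_sphere, dist_zero_right, norm_smul, norm_inv, norm_norm,
      inv_mul_cancel₀ (norm_pos_iff.2 (hne x x.2)).ne']⟩
  have hfc : Continuous f := by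
    apply Continuous.subtype_mk
    have h1 : Continuous (fun x : frontier A => ‖(x:E3)‖⁻¹) :=
      Continuous.inv₀ (by fun_prop) (fun x => (norm_pos_iff.2 (hne x x.2)).ne')
    exact h1.smul continuous_subtype_val
  have hinj : Function.Injective f := by
    intro x y hxy
    have h1 : ‖(x:E3)‖⁻¹ • (x:E3) = ‖(y:E3)‖⁻¹ • (y:E3) := congrArg Subtype.val hxy
    have h2 := hlt x x.2 y y.2 h1
    have h3 := hlt y y.2 x x.2 h1.symm
    have h4 : ‖(x:E3)‖ = ‖(y:E3)‖ := le_antisymm (not_lt.1 h3) (not_lt.1 h2)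
    have hy0 := norm_pos_iff.2 (hne y y.2)
    rw [h4] at h1
    apply Subtype.ext
    have h5 := congrArg (fun z => ‖(y:E3)‖ • z) h1
    simp only [smul_smul, mul_inv_cancel₀ hy0.ne', one_smul] at h5
    exact h5
  have hsurj : Function.Surjective f := by
    intro u
    have hu : ‖(u:E3)‖ = 1 := by
      have := u.2
      rwa [mem_sphere, dist_zero_right] at this
    obtain ⟨s, hs0, hs⟩ := star_surj A h0 hb u hu
    have hs1 : 0 < s := by
      rcases hs0.eq_or_lt with h | h
      · exfalso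
        rw [← h, zero_smul] at hs
        exact hne 0 hs rfl
      · exact h
    refine ⟨⟨s • (u:E3), hs⟩, ?_⟩
    apply Subtype.ext
    show ‖s • (u:E3)‖⁻¹ • (s • (u:E3)) = u
    rw [norm_smul, hu, mul_one, Real.norm_of_nonneg hs0, smul_smul, inv_mul_cancel₀ hs1.ne', one_smul]
  exact ⟨Continuous.homeoOfEquivCompactToT2 (f := Equiv.ofBijective f ⟨hinj, hsurj⟩) hfc⟩

lemma convex_star (A : Set E3) (hA : Convex ℝ A) (h0 : (0:E3) ∈ interior A) : Star A := by
  intro x hx s hs0 hs1
  have := hA.combo_interior_closure_mem_interior h0 hx (a := 1 - s) (b := s) (by linarith) hs0 (by ring)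
  rwa [smul_zero, zero_add] at this

/-- The geometric core: consequences of the moving plane property. -/
theorem geo (K : Set E3) (hK : IsClosed K) (η : ℝ) (hη : 0 < η)
    (hG : ∀ x ∈ K, ∀ y, ‖y‖^2 + 2*η*‖x - y‖ ≤ ‖x‖^2 → y ∈ K)
    (hbig : ∃ x ∈ K, 4*η < ‖x‖) :
    (0:E3) ∈ interior K ∧ Star K := by
  have hopen : ∀ x : E3, IsOpen {y : E3 | ‖y‖^2 + 2*η*‖x - y‖ < ‖x‖^2} := fun x =>
    isOpen_lt (by fun_prop) continuous_const
  have hsub : ∀ x ∈ K, {y : E3 | ‖y‖^2 + 2*η*‖x - y‖ < ‖x‖^2} ⊆ interior K := fun x hx =>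
    interior_maximal (fun y hy => hG x hx y (le_of_lt hy)) (hopen x)
  obtain ⟨z, hz, hzn⟩ := hbig
  have hsmall : ∀ y : E3, ‖y‖ ≤ 2*η → y ∈ interior K := by
    intro y hy
    apply hsub z hz
    show ‖y‖^2 + 2*η*‖z - y‖ < ‖z‖^2
    have h1 : ‖z - y‖ ≤ ‖z‖ + ‖y‖ := norm_sub_le _ _
    have h2 := norm_nonneg y
    nlinarith [mul_le_mul_of_nonneg_left h1 (by positivity : (0:ℝ) ≤ 2*η),
      mul_pos (by linarith : (0:ℝ) < ‖z‖ - 4*η) (by linarith : (0:ℝ) < ‖z‖ + 2*η)]
  refine ⟨hsmall 0 (by rw [norm_zero]; positivity), ?_⟩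
  intro x hx s hs0 hs1
  rw [hK.closure_eq] at hx
  by_cases hxn : ‖x‖ ≤ 2*η
  · apply hsmall
    rw [norm_smul, Real.norm_of_nonneg hs0]
    nlinarith [norm_nonneg x]
  · push Not at hxn
    apply hsub x hx
    show ‖s • x‖^2 + 2*η*‖x - s • x‖ < ‖x‖^2
    have h1 : x - s • x = (1 - s) • x := by module
    rw [h1, norm_smul, norm_smul, Real.norm_of_nonneg hs0, Real.norm_of_nonneg (by linarith : 0 ≤ 1 - s)]
    have h2 : 0 < ‖x‖ := by linarith
    have h3 : 0 < (1 - s) * ‖x‖ := mul_pos (by linarith) h2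
    nlinarith [mul_pos h3 (by nlinarith : (0:ℝ) < (1+s)*‖x‖ - 2*η)]

lemma star_closure (K : Set E3) (hK : IsClosed K) (hst : Star K) : closure (interior K) = K := by
  apply Subset.antisymm
  · exact (closure_mono interior_subset).trans hK.closure_eq.subset
  · intro x hx
    have hcont : Continuous (fun s : ℝ => s • x) := by fun_prop
    have h1 : Tendsto (fun s : ℝ => s • x) (𝓝[<] 1) (𝓝 x) := by
      have := (hcont.tendsto 1).mono_left (nhdsWithin_le_nhds (s := Iio 1))
      rwa [one_smul] at this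
    refine mem_closure_of_tendsto h1 ?_
    have h2 : Ioo (0:ℝ) 1 ∈ 𝓝[<] (1:ℝ) := Ioo_mem_nhdsLT one_pos
    filter_upwards [h2] with s hs
    exact hst x (subset_closure hx) s hs.1.le hs.2

lemma star_interior (K : Set E3) (hst : Star K) (hK : IsClosed K) : Star (interior K) := by
  intro x hx s hs0 hs1
  rw [interior_interior]
  rw [star_closure K hK hst] at hx
  exact hst x (subset_closure hx) s hs0 hs1

lemma star_conn (K : Set E3) (h0 : (0:E3) ∈ interior K) (hst : Star K) : IsConnected (interior K) := by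
  have hsc : StarConvex ℝ (0:E3) (interior K) := by
    intro x hx a b ha hb hab
    rw [smul_zero, zero_add]
    rcases eq_or_lt_of_le (by linarith : b ≤ 1) with h | h
    · rw [h, one_smul]; exact hx
    · exact hst x (subset_closure (interior_subset hx)) b hb h
  exact (hsc.isPathConnected h0).isConnected

lemma star_null (K : Set E3) (hK : IsCompact K) (hst : Star K) :
    volume (K \ interior K) = 0 := by
  have hfin : volume K ≠ ⊤ := hK.measure_lt_top.ne
  have hfin2 : volume (interior K) ≠ ⊤ := (lt_of_le_of_lt (measure_mono interior_subset) hK.measure_lt_top).ne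
  have hle : ∀ s : ℝ, 0 ≤ s → s < 1 → s^3 * (volume K).toReal ≤ (volume (interior K)).toReal := by
    intro s hs0 hs1
    have h1 : s • K ⊆ interior K := by
      rintro _ ⟨x, hx, rfl⟩
      exact hst x (subset_closure hx) s hs0 hs1
    have h2 := measure_mono (μ := (volume : Measure E3)) h1
    rw [Measure.addHaar_smul_of_nonneg _ hs0] at h2
    have h3 := ENNReal.toReal_mono hfin2 h2
    rw [ENNReal.toReal_mul, ENNReal.toReal_ofReal (by positivity)] at h3
    have h4 : Module.finrank ℝ E3 = 3 := finrank_euclideanSpace_fin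
    rwa [h4] at h3
  have hge : (volume K).toReal ≤ (volume (interior K)).toReal := by
    have ht : Tendsto (fun s : ℝ => s^3 * (volume K).toReal) (𝓝[<] 1) (𝓝 (1^3 * (volume K).toReal)) := by
      have : Continuous (fun s : ℝ => s^3 * (volume K).toReal) := by fun_prop
      exact (this.tendsto 1).mono_left nhdsWithin_le_nhds
    rw [one_pow, one_mul] at ht
    refine le_of_tendsto ht ?_
    have h2 : Ioo (0:ℝ) 1 ∈ 𝓝[<] (1:ℝ) := Ioo_mem_nhdsLT one_pos
    filter_upwards [h2] with s hs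
    exact hle s hs.1.le hs.2
  rw [measure_sdiff interior_subset isOpen_interior.measurableSet.nullMeasurableSet hfin2,
    tsub_eq_zero_iff_le]
  exact (ENNReal.toReal_le_toReal hfin hfin2).1 hge

end Pool.Agent.H493.Cav
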