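import Mathlib
import Pool.Agent.H493.CavCont

/-!
# Weak limits of densities along an ultrafilter
-/

set_option autoImplicit false
open MeasureTheory Set Filter Topology Metric
open Pool.Agent.TH791.Cl

namespace Pool.Agent.H493.Cav

/-- Bounded families in a real Hilbert space have weak ultrafilter limits. -/
theorem hilbert_weak_limit {ι : Type*} {H : Type*} [NormedAddCommGroup H] [InnerProductSpace ℝ H]
    [CompleteSpace H] (U : Ultrafilter ι) (y : ι → H) (C : ℝ) (hy : ∀ n, ‖y n‖ ≤ C) :
    ∃ w : H, ∀ z : H, Tendsto (fun n => inner ℝ (y n) z) U (𝓝 (inner ℝ w z)) := by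
  let F : ι → WeakDual ℝ H := fun n => StrongDual.toWeakDual (InnerProductSpace.toDual ℝ H (y n))
  have hK := WeakDual.isCompact_closedBall (𝕜 := ℝ) (E := H) (0 : StrongDual ℝ H) C
  have hmem : ∀ n, F n ∈ (WeakDual.toStrongDual ⁻¹' Metric.closedBall (0 : StrongDual ℝ H) C) := by
    intro n
    simp only [Set.mem_preimage, Metric.mem_closedBall, dist_zero_right]
    have : WeakDual.toStrongDual (F n) = InnerProductSpace.toDual ℝ H (y n) := rfl
    rw [this]
    simpa using hy n
  obtain ⟨φ, -, hφ⟩ := hK.ultrafilter_le_nhds (U.map F)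
    (by
      rw [le_principal_iff]
      exact Filter.mem_map.2 (Filter.univ_mem' hmem))
  refine ⟨(InnerProductSpace.toDual ℝ H).symm (WeakDual.toStrongDual φ), fun z => ?_⟩
  have h1 : Tendsto F U (𝓝 φ) := hφ
  have h2 : Tendsto (fun n => F n z) U (𝓝 (φ z)) :=
    ((WeakDual.eval_continuous z).tendsto φ).comp h1
  have h3 : φ z = inner ℝ ((InnerProductSpace.toDual ℝ H).symm (WeakDual.toStrongDual φ)) z := by
    rw [InnerProductSpace.toDual_symm_apply]
    rfl
  rw [← h3]
  exact h2

/-- admissible densities in `U` -/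
def Adm (U : Set E3) (g : E3 → ℝ) : Prop :=
  Measurable g ∧ (∀ x, 0 ≤ g x) ∧ (∀ x, g x ≤ 1) ∧ ∀ x, x ∉ U → g x = 0

theorem weak_lim (U : Set E3) (hU : MeasurableSet U) (hfin : volume U ≠ ⊤)
    (F : Ultrafilter ℕ) (u : ℕ → E3 → ℝ) (hu : ∀ n, Adm U (u n)) :
    ∃ v, Adm U v ∧ ∀ h : E3 → ℝ, Measurable h → (∃ C, ∀ x, |h x| ≤ C) →
      Tendsto (fun n => ∫ x, u n x * h x) F (𝓝 (∫ x, v x * h x)) := by
  set μ : Measure E3 := volume.restrict U with hμ
  haveI : IsFiniteMeasure μ := ⟨by rw [hμ, Measure.restrict_apply_univ]; exact lt_top_iff_ne_top.2 hfin⟩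
  have hbd : ∀ n x, ‖u n x‖ ≤ 1 := fun n x => by
    rw [Real.norm_of_nonneg ((hu n).2.1 x)]; exact (hu n).2.2.1 x
  have hmem : ∀ n, MemLp (u n) 2 μ := fun n =>
    MemLp.of_bound (hu n).1.aestronglyMeasurable 1 (ae_of_all _ (hbd n))
  let y : ℕ → Lp ℝ 2 μ := fun n => (hmem n).toLp (u n)
  obtain ⟨C, hC⟩ : ∃ C : ℝ, ∀ n, ‖y n‖ ≤ C := by
    refine ⟨(μ univ).toReal ^ ((2:ENNReal).toReal⁻¹) * 1, fun n => ?_⟩
    apply Lp.norm_le_of_ae_bound zero_le_one
    filter_upwards [(hmem n).coeFn_toLp] with x hx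
    rw [hx]
    exact hbd n x
  obtain ⟨w, hw⟩ := hilbert_weak_limit F y C hC
  -- integrals over the whole space
  have hwhole : ∀ n (h : E3 → ℝ), ∫ x, u n x * h x = ∫ x, u n x * h x ∂μ := by
    intro n h
    rw [hμ, ← integral_indicator hU]
    apply integral_congr_ae
    refine ae_of_all _ fun x => ?_
    by_cases hx : x ∈ U
    · simp only [indicator_of_mem hx]
    · simp only [indicator_of_notMem hx, (hu n).2.2.2 x hx, zero_mul]
  have hlim : ∀ h : E3 → ℝ, Measurable h → (∃ C, ∀ x, |h x| ≤ C) →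
        Tendsto (fun n => ∫ x, u n x * h x ∂μ) F (𝓝 (∫ x, w x * h x ∂μ)) := by
    intro g hg ⟨C, hC⟩
    have hgm : MemLp g 2 μ :=
      MemLp.of_bound hg.aestronglyMeasurable C (Eventually.of_forall hC)
    have h := hw (hgm.toLp g)
    have h1 : ∀ n, inner ℝ (y n) (hgm.toLp g) = ∫ x, u n x * g x ∂μ := by
      intro n
      rw [L2.inner_def]
      apply integral_congr_ae
      filter_upwards [hgm.coeFn_toLp, (hmem n).coeFn_toLp] with x hx hx'
      rw [hx, hx']
      simp [mul_comm]
    have h2 : inner ℝ w (hgm.toLp g) = ∫ x, w x * g x ∂μ := by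
      rw [L2.inner_def]
      apply integral_congr_ae
      filter_upwards [hgm.coeFn_toLp] with x hx
      rw [hx]
      simp [mul_comm]
    simp only [h1] at h
    rw [h2] at h
    exact h
  have hwint : Integrable w μ := (Lp.memLp w).integrable (by norm_num)
  have hset : ∀ s : Set E3, MeasurableSet s →
      Tendsto (fun n => ∫ x in s, u n x ∂μ) F (𝓝 (∫ x in s, w x ∂μ)) := by
    intro s hs
    have h := hlim (s.indicator (fun _ => (1 : ℝ))) (measurable_const.indicator hs)
      ⟨1, fun x => by by_cases hx : x ∈ s <;> simp [hx]⟩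
    have h1 : ∀ f : E3 → ℝ, ∫ x, f x * s.indicator (fun _ => (1 : ℝ)) x ∂μ = ∫ x in s, f x ∂μ := by
      intro f
      rw [← integral_indicator hs]
      apply integral_congr_ae
      filter_upwards with x
      by_cases hx : x ∈ s <;> simp [hx]
    simp only [h1] at h
    exact h
  have hui : ∀ n, Integrable (u n) μ := fun n => (hmem n).integrable (by norm_num)
  have hnonneg : 0 ≤ᵐ[μ] w := by
    apply ae_nonneg_of_forall_setIntegral_nonneg hwint
    intro s hs _
    exact ge_of_tendsto' (hset s hs) (fun n => integral_nonneg (fun x => (hu n).2.1 x))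
  have hle : w ≤ᵐ[μ] fun _ => (1 : ℝ) := by
    apply ae_le_of_forall_setIntegral_le hwint (integrable_const _)
    intro s hs _
    refine le_of_tendsto' (hset s hs) (fun n => ?_)
    exact integral_mono ((hui n).integrableOn) (integrable_const _).integrableOn (fun x => (hu n).2.2.1 x)
  refine ⟨U.indicator (fun x => max 0 (min 1 (w x))), ⟨?_, fun x => ?_, fun x => ?_, fun x hx => ?_⟩, ?_⟩
  · exact (measurable_const.max (measurable_const.min (Lp.stronglyMeasurable w).measurable)).indicator hU
  · exact indicator_nonneg (fun _ _ => le_max_left _ _) x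
  · by_cases hx : x ∈ U
    · rw [indicator_of_mem hx]; exact max_le zero_le_one (min_le_left _ _)
    · rw [indicator_of_notMem hx]; exact zero_le_one
  · rw [indicator_of_notMem hx]
  · intro g hg hC
    have h := hlim g hg hC
    have h2 : ∫ x, w x * g x ∂μ = ∫ x, U.indicator (fun x => max 0 (min 1 (w x))) x * g x := by
      have e : ∫ x, U.indicator (fun x => max 0 (min 1 (w x))) x * g x =
          ∫ x in U, max 0 (min 1 (w x)) * g x := by
        rw [← integral_indicator hU]
        apply integral_congr_ae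
        refine ae_of_all _ fun x => ?_
        by_cases hx : x ∈ U
        · simp only [indicator_of_mem hx]
        · simp only [indicator_of_notMem hx, zero_mul]
      rw [e]
      apply integral_congr_ae
      filter_upwards [hnonneg, hle] with x h0 h1
      have h0' : 0 ≤ w x := h0
      rw [min_eq_right h1, max_eq_right h0']
    simp only [hwhole]
    rw [← h2]
    exact h

end Pool.Agent.H493.Cav
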