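import Mathlib
import Pool.Agent.H493.CavWeak

/-!
# The constrained equilibrium problem
-/

set_option autoImplicit false
open MeasureTheory Set Filter Topology Metric
open Pool.Agent.TH791.Cl

namespace Pool.Agent.H493.Cav

lemma adm_den {U : Set E3} (hUB : U ⊆ ball (0:E3) 1) {g : E3 → ℝ} (hg : Adm U g) : Den g :=
  ⟨hg.1, hg.2.1, hg.2.2.1, fun x hx => hg.2.2.2 x (fun h => hx (hUB h))⟩

lemma NB_le (a : ℝ) : NB 1 a ≤ 2 * Real.pi := by
  unfold NB
  have hp := Real.pi_pos
  split_ifs with h
  · rw [div_le_iff₀ (by linarith)]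
    nlinarith
  · nlinarith [mul_nonneg hp.le (sq_nonneg a)]

noncomputable def EE (c : ℝ) (g : E3 → ℝ) : ℝ := 1/2 * (∫ x, g x * pot g x) - c * ∫ x, g x

lemma nice_quad {g N : E3 → ℝ} (hg : Nice g) (hN : Nice N) :
    (∫ x, g x * pot N x) - 1/2 * (∫ x, N x * pot N x) ≤ 1/2 * ∫ x, g x * pot g x := by
  have h := pd_main g N hg hN
  have e : (∫ x, ∫ y, g x * g y / ‖x - y‖) = ∫ x, g x * pot g x := by
    apply integral_congr_ae
    exact ae_of_all _ (fun x => pd_inner g g x)
  rwa [e] at h

lemma pot_lin {g d : E3 → ℝ} (hg : Nice g) (hd : Nice d) (t : ℝ) (x : E3) :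
    pot (fun x => g x + t * d x) x = pot g x + t * pot d x := by
  unfold pot
  rw [← integral_const_mul, ← integral_add (nice_pint hg x) ((nice_pint hd x).const_mul t)]
  apply integral_congr_ae
  refine ae_of_all _ fun y => ?_
  show (g y + t * d y) / ‖x - y‖ = g y / ‖x - y‖ + t * (d y / ‖x - y‖)
  ring

lemma EE_expand (c : ℝ) {g d : E3 → ℝ} (hg : Nice g) (hd : Nice d) (t : ℝ) :
    EE c (fun x => g x + t * d x) = EE c g + t * (∫ x, d x * (pot g x - c)) +
      t^2 * (1/2 * ∫ x, d x * pot d x) := by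
  unfold EE
  have i1 := pd_int g g hg hg
  have i2 := pd_int g d hg hd
  have i3 := pd_int d g hd hg
  have i4 := pd_int d d hd hd
  have e1 : ∫ x, (g x + t * d x) * pot (fun x => g x + t * d x) x =
      (∫ x, g x * pot g x) + t * (∫ x, g x * pot d x) + t * (∫ x, d x * pot g x) +
        t^2 * ∫ x, d x * pot d x := by
    rw [← integral_const_mul, ← integral_const_mul, ← integral_const_mul,
      ← integral_add i1 (i2.const_mul t), ← integral_add _ (i3.const_mul t),
      ← integral_add _ (i4.const_mul (t^2))]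
    · apply integral_congr_ae
      refine ae_of_all _ fun x => ?_
      show (g x + t * d x) * pot (fun x => g x + t * d x) x = _
      rw [pot_lin hg hd]
      ring
    · exact (i1.add (i2.const_mul t)).add (i3.const_mul t)
    · exact i1.add (i2.const_mul t)
  have e2 : ∫ x, (g x + t * d x) = (∫ x, g x) + t * ∫ x, d x := by
    rw [← integral_const_mul, ← integral_add hg.2.1 (hd.2.1.const_mul t)]
  have e3 : ∫ x, d x * (pot g x - c) = (∫ x, d x * pot g x) - c * ∫ x, d x := by
    rw [← integral_const_mul, ← integral_sub i3 (hd.2.1.const_mul c)]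
    apply integral_congr_ae
    refine ae_of_all _ fun x => ?_
    show d x * (pot g x - c) = d x * pot g x - c * d x
    ring
  have e4 := pd_swap g d hg hd
  rw [e1, e2, e3, e4]
  ring

theorem exists_min (U : Set E3) (hU : MeasurableSet U) (hUB : U ⊆ ball (0:E3) 1) (c : ℝ) (hc : 0 ≤ c) :
    ∃ g, Adm U g ∧ ∀ h, Adm U h → EE c g ≤ EE c h := by
  have hfin : volume U ≠ ⊤ := (lt_of_le_of_lt (measure_mono hUB) measure_ball_lt_top).ne
  set S : Set ℝ := {e | ∃ g, Adm U g ∧ EE c g = e} with hS
  have h0 : Adm U (fun _ => (0:ℝ)) :=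
    ⟨measurable_const, fun _ => le_rfl, fun _ => zero_le_one, fun _ _ => rfl⟩
  have hne : S.Nonempty := ⟨_, _, h0, rfl⟩
  have hbdd : BddBelow S := by
    refine ⟨- (c * ∫ x, (ball (0:E3) 1).indicator (fun _ => (1:ℝ)) x), ?_⟩
    rintro e ⟨g, hg, rfl⟩
    have hd := adm_den hUB hg
    have h1 : 0 ≤ ∫ x, g x * pot g x :=
      integral_nonneg fun x => mul_nonneg (hg.2.1 x) (pot_nonneg hg.2.1 x)
    have h2 : ∫ x, g x ≤ ∫ x, (ball (0:E3) 1).indicator (fun _ => (1:ℝ)) x :=
      integral_mono (den_int hd) ind_int (den_le_ind hd)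
    have h3 := mul_le_mul_of_nonneg_left h2 hc
    unfold EE
    linarith
  obtain ⟨e, -, he, hmem⟩ := exists_seq_tendsto_sInf hne hbdd
  choose u hu hue using hmem
  obtain ⟨v, hv, hlim⟩ := weak_lim U hU hfin (hyperfilter ℕ) u hu
  have hvd := adm_den hUB hv
  have hvn := den_nice hvd
  have hpc : Continuous (fun x => pot v x - c) := (pot_continuous hvn).sub continuous_const
  have ht := hlim (fun x => pot v x - c) hpc.measurable ⟨2 * Real.pi + c, fun x => by
    have h1 := pot_nonneg hv.2.1 x
    have h2 := (pot_le hvd x).trans (NB_le _)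
    rw [abs_le]
    constructor <;> linarith [Real.pi_pos]⟩
  have hsplit : ∀ g, Nice g → ∫ x, g x * (pot v x - c) = (∫ x, g x * pot v x) - c * ∫ x, g x := by
    intro g hg
    rw [← integral_const_mul, ← integral_sub (pd_int g v hg hvn) (hg.2.1.const_mul c)]
    apply integral_congr_ae
    refine ae_of_all _ fun x => ?_
    show g x * (pot v x - c) = g x * pot v x - c * g x
    ring
  have hle : ∀ n, (∫ x, u n x * (pot v x - c)) - 1/2 * (∫ x, v x * pot v x) ≤ e n := by
    intro n
    have hn := den_nice (adm_den hUB (hu n))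
    have := nice_quad hn hvn
    rw [hsplit _ hn, ← hue n]
    unfold EE
    linarith
  have hlim2 : Tendsto e (hyperfilter ℕ : Filter ℕ) (𝓝 (sInf S)) :=
    he.mono_left (Nat.hyperfilter_le_atTop)
  have hfinal : EE c v ≤ sInf S := by
    have h1 := le_of_tendsto_of_tendsto' (ht.sub_const (1/2 * (∫ x, v x * pot v x))) hlim2 hle
    rw [hsplit v hvn] at h1
    unfold EE
    linarith
  exact ⟨v, hv, fun h hh => hfinal.trans (csInf_le hbdd ⟨h, hh, rfl⟩)⟩

/-- Variational inequality and its consequences. -/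
theorem exists_eq (U : Set E3) (hU : MeasurableSet U) (hUB : U ⊆ ball (0:E3) 1) (c : ℝ) (hc : 0 ≤ c) :
    ∃ g, Adm U g ∧ (∀ᵐ x, pot g x < c → g x = U.indicator (fun _ => (1:ℝ)) x) ∧
      (∀ᵐ x, c < pot g x → g x = 0) := by
  obtain ⟨g, hg, hmin⟩ := exists_min U hU hUB c hc
  have hgn := den_nice (adm_den hUB hg)
  have hcont := pot_continuous hgn
  refine ⟨g, hg, ?_⟩
  set P : Set E3 := {x | pot g x < c} with hP
  have hPo : MeasurableSet P := (isOpen_lt hcont continuous_const).measurableSet
  set h : E3 → ℝ := (U ∩ P).indicator (fun _ => (1:ℝ)) with hh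
  have hUP : MeasurableSet (U ∩ P) := hU.inter hPo
  have hadm : Adm U h := by
    refine ⟨measurable_const.indicator hUP, fun x => ?_, fun x => ?_, fun x hx => ?_⟩
    · exact indicator_nonneg (fun _ _ => zero_le_one) x
    · rw [hh]
      by_cases h : x ∈ U ∩ P
      · rw [indicator_of_mem h]
      · rw [indicator_of_notMem h]; exact zero_le_one
    · rw [hh, indicator_of_notMem (fun h => hx h.1)]
  have hhn := den_nice (adm_den hUB hadm)
  have hdn := pd_nice h g hhn hgn
  have key : 0 ≤ ∫ x, (h x - g x) * (pot g x - c) := by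
    set A := ∫ x, (h x - g x) * (pot g x - c) with hA
    set D := 1/2 * ∫ x, (h x - g x) * pot (fun x => h x - g x) x with hD
    have hall : ∀ t : ℝ, 0 < t → t ≤ 1 → 0 ≤ t * A + t^2 * D := by
      intro t ht0 ht1
      have ha : Adm U (fun x => g x + t * (h x - g x)) := by
        refine ⟨hg.1.add ((hadm.1.sub hg.1).const_mul t), fun x => ?_, fun x => ?_, fun x hx => ?_⟩
        · show 0 ≤ g x + t * (h x - g x)
          nlinarith [hg.2.1 x, hadm.2.1 x]
        · show g x + t * (h x - g x) ≤ 1
          nlinarith [hg.2.2.1 x, hadm.2.2.1 x]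
        · show g x + t * (h x - g x) = 0
          rw [hg.2.2.2 x hx, hadm.2.2.2 x hx]; ring
      have h1 := hmin _ ha
      rw [EE_expand c hgn hdn t, ← hA, ← hD] at h1
      linarith
    by_contra hneg
    push Not at hneg
    have hD0 : 0 < |D| + 1 := by positivity
    obtain ⟨t, ht⟩ : ∃ t : ℝ, t = min 1 (-A / (2 * (|D| + 1))) := ⟨_, rfl⟩
    have hq : 0 < -A / (2 * (|D| + 1)) := div_pos (by linarith) (by positivity)
    have ht0 : 0 < t := by rw [ht]; exact lt_min one_pos hq
    have ht1 : t ≤ 1 := by rw [ht]; exact min_le_left _ _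
    have ht2 : t ≤ -A / (2 * (|D| + 1)) := by rw [ht]; exact min_le_right _ _
    rw [le_div_iff₀ (by positivity)] at ht2
    have h2 := hall t ht0 ht1
    have h3 : 0 ≤ A + t * D := by
      by_contra h4
      push Not at h4
      nlinarith
    have h5 : t * D ≤ t * |D| := mul_le_mul_of_nonneg_left (le_abs_self D) ht0.le
    nlinarith
  have hpt : ∀ x, (h x - g x) * (pot g x - c) ≤ 0 := by
    intro x
    by_cases hx : x ∈ U
    · by_cases hxP : x ∈ P
      · have : h x = 1 := by rw [hh, indicator_of_mem (show x ∈ U ∩ P from ⟨hx, hxP⟩)]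
        rw [this]
        have h1 : pot g x < c := hxP
        nlinarith [hg.2.2.1 x]
      · have : h x = 0 := by rw [hh, indicator_of_notMem (fun h => hxP h.2)]
        rw [this]
        have h1 : c ≤ pot g x := not_lt.1 hxP
        nlinarith [hg.2.1 x]
    · rw [hadm.2.2.2 x hx, hg.2.2.2 x hx]; simp
  have hint : Integrable (fun x => (h x - g x) * (pot g x - c)) := by
    have i1 := (pd_int _ g hdn hgn).sub (hdn.2.1.mul_const c)
    refine i1.congr (ae_of_all _ fun x => ?_)
    show (h x - g x) * pot g x - (h x - g x) * c = (h x - g x) * (pot g x - c)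
    ring
  have hzero : ∀ᵐ x, (h x - g x) * (pot g x - c) = 0 := by
    have hn : 0 ≤ᵐ[volume] fun x => -((h x - g x) * (pot g x - c)) :=
      ae_of_all _ fun x => neg_nonneg.2 (hpt x)
    have hi : ∫ x, -((h x - g x) * (pot g x - c)) = 0 := by
      apply le_antisymm
      · rw [integral_neg]; linarith
      · exact integral_nonneg_of_ae hn
    have := (integral_eq_zero_iff_of_nonneg_ae hn hint.neg).1 hi
    filter_upwards [this] with x hx
    have : -((h x - g x) * (pot g x - c)) = 0 := hx
    linarith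
  constructor
  · filter_upwards [hzero] with x hx hlt
    have h1 : h x = g x := by
      rcases mul_eq_zero.1 hx with h1 | h1
      · linarith
      · exfalso; linarith
    rw [← h1, hh]
    by_cases hxU : x ∈ U
    · rw [indicator_of_mem (show x ∈ U ∩ P from ⟨hxU, hlt⟩), indicator_of_mem hxU]
    · rw [indicator_of_notMem (fun h => hxU h.1), indicator_of_notMem hxU]
  · filter_upwards [hzero] with x hx hlt
    have h1 : h x = g x := by
      rcases mul_eq_zero.1 hx with h1 | h1
      · linarith
      · exfalso; linarith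
    rw [← h1, hh, indicator_of_notMem (fun h => absurd h.2 (not_lt.2 hlt.le))]

end Pool.Agent.H493.Cav
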