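import Mathlib
import Pool.Agent.H493.CavMin

/-!
# Maximum principle, nonnegativity, and monotonicity under reflections
-/

set_option autoImplicit false
open MeasureTheory Set Filter Topology Metric
open Pool.Agent.TH791.Cl
open scoped RealInnerProductSpace

namespace Pool.Agent.H493.Cav

theorem max_principle (O : Set E3) (hO : IsOpen O) (w : E3 → ℝ) (hw : Continuous w)
    (hfr : ∀ x ∈ frontier O, w x ≤ 0)
    (hinf : ∀ ε : ℝ, 0 < ε → ∀ᶠ x in cocompact E3, w x < ε)
    (hsub : ∀ x ∈ O, 0 < w x → ∃ r : ℝ, 0 < r ∧ ball x r ⊆ O ∧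
      (4/3*Real.pi*r^3) * w x ≤ ∫ z in ball x r, w z) :
    ∀ x ∈ O, w x ≤ 0 := by
  by_contra hcon
  push Not at hcon
  obtain ⟨x1, hx1, hw1⟩ := hcon
  have hev := hinf (w x1) hw1
  rw [Filter.eventually_iff, mem_cocompact] at hev
  obtain ⟨Kc, hKc, hsubK⟩ := hev
  have hout : ∀ x, x ∉ Kc → w x < w x1 := fun x hx => hsubK hx
  have hin : ∀ x, w x1 ≤ w x → x ∈ Kc := fun x hx => by
    by_contra h
    exact absurd (hout x h) (not_lt.2 hx)
  have hS : IsCompact (closure O ∩ Kc) := hKc.inter_left isClosed_closure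
  have hSne : (closure O ∩ Kc).Nonempty := ⟨x1, subset_closure hx1, hin x1 le_rfl⟩
  obtain ⟨x2, hx2, hmax2⟩ := hS.exists_isMaxOn hSne hw.continuousOn
  set m := w x2 with hm
  have hm1 : w x1 ≤ m := hmax2 ⟨subset_closure hx1, hin x1 le_rfl⟩
  have hall : ∀ x ∈ closure O, w x ≤ m := by
    intro x hx
    by_cases hxK : x ∈ Kc
    · exact hmax2 ⟨hx, hxK⟩
    · exact (hout x hxK).le.trans hm1
  have hM : IsCompact ((closure O ∩ Kc) ∩ w ⁻¹' {m}) :=
    hS.inter_right (isClosed_singleton.preimage hw)
  have hMne : ((closure O ∩ Kc) ∩ w ⁻¹' {m}).Nonempty := ⟨x2, hx2, rfl⟩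
  have hcoord : Continuous (fun x : E3 => x 0) := by fun_prop
  obtain ⟨x3, ⟨⟨hx3c, hx3K⟩, hx3m⟩, hmax3⟩ := hM.exists_isMaxOn hMne hcoord.continuousOn
  have hx3m' : w x3 = m := hx3m
  have hx3O : x3 ∈ O := by
    have h1 : x3 ∉ frontier O := fun h => by
      have := hfr x3 h
      linarith
    have h2 : x3 ∈ closure O \ frontier O := ⟨hx3c, h1⟩
    rw [closure_sdiff_frontier, hO.interior_eq] at h2
    exact h2
  obtain ⟨r, hr, hball, hineq⟩ := hsub x3 hx3O (by rw [hx3m']; linarith)
  have hwi : IntegrableOn w (ball x3 r) :=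
    (hw.continuousOn.integrableOn_compact (isCompact_closedBall x3 r)).mono_set ball_subset_closedBall
  have hmi : IntegrableOn (fun _ : E3 => m) (ball x3 r) :=
    integrableOn_const (hs := measure_ball_lt_top.ne)
  have hint0 : ∫ z in ball x3 r, (m - w z) ≤ 0 := by
    rw [integral_sub hmi hwi, setIntegral_const, measureReal_def, vol_ball x3 r hr.le, smul_eq_mul]
    rw [hx3m'] at hineq
    linarith
  have hnn : 0 ≤ᵐ[volume.restrict (ball x3 r)] fun z => m - w z := by
    rw [EventuallyLE, ae_restrict_iff' measurableSet_ball]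
    exact ae_of_all _ fun z hz => sub_nonneg.2 (hall z (subset_closure (hball hz)))
  have hz0 : (fun z => m - w z) =ᵐ[volume.restrict (ball x3 r)] 0 := by
    rw [← integral_eq_zero_iff_of_nonneg_ae hnn (hmi.sub hwi)]
    exact le_antisymm hint0 (integral_nonneg_of_ae hnn)
  have heq := Measure.eqOn_open_of_ae_eq hz0 isOpen_ball
    ((continuous_const.sub hw).continuousOn) continuousOn_const
  set p : E3 := x3 + EuclideanSpace.single 0 (r/2) with hp
  have hpb : p ∈ ball x3 r := by
    rw [mem_ball, dist_eq_norm, hp, add_sub_cancel_left, EuclideanSpace.norm_single,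
      Real.norm_of_nonneg (by positivity)]
    linarith
  have hwp : w p = m := by
    have := heq hpb
    simp only [Pi.zero_apply] at this
    linarith
  have hpM : p ∈ (closure O ∩ Kc) ∩ w ⁻¹' {m} :=
    ⟨⟨subset_closure (hball hpb), hin p (by rw [hwp]; exact hm1)⟩, hwp⟩
  have h5 : p 0 ≤ x3 0 := hmax3 hpM
  rw [hp] at h5
  simp at h5
  linarith

lemma int_WW {g : E3 → ℝ} (hg : Nice g) (x : E3) (r : ℝ) (hr : 0 < r) :
    Integrable (fun y => g y * WW r ‖x - y‖) := by
  have hind : Nice ((ball x r).indicator (fun _ => (1:ℝ))) := by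
    have hm : Measurable ((ball x r).indicator (fun _ : E3 => (1:ℝ))) :=
      measurable_const.indicator measurableSet_ball
    have hi : Integrable ((ball x r).indicator (fun _ : E3 => (1:ℝ))) := by
      rw [integrable_indicator_iff measurableSet_ball]
      exact integrableOn_const (hs := measure_ball_lt_top.ne)
    refine ⟨hm, hi, ?_⟩
    refine hi.congr (ae_of_all _ fun y => ?_)
    by_cases h : y ∈ ball x r
    · simp only [indicator_of_mem h]; simp
    · simp only [indicator_of_notMem h]; rw [abs_zero, Real.zero_rpow (by norm_num)]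
  have hI1 : Integrable (fun y => (4/3*Real.pi*r^3) * (g y / ‖x - y‖)) :=
    (nice_pint hg x).const_mul _
  have hI2 := pd_int g ((ball x r).indicator (fun _ => (1:ℝ))) hg hind
  refine (hI1.sub hI2).congr ?_
  have hne : ∀ᵐ y : E3, y ≠ x := by
    rw [ae_iff]
    simp
  filter_upwards [hne] with y hy
  have hpos : 0 < ‖x - y‖ := norm_pos_iff.2 (sub_ne_zero.2 hy.symm)
  show (4/3*Real.pi*r^3) * (g y / ‖x - y‖) - g y * pot ((ball x r).indicator (fun _ => (1:ℝ))) y = g y * WW r ‖x - y‖
  rw [pot_ball x y r hr, ← WW_eq r _ hpos]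
  ring

lemma WW_out {r : ℝ} {x y : E3} (h : y ∉ ball x r) : WW r ‖x - y‖ = 0 := by
  unfold WW
  rw [if_neg]
  rintro ⟨-, h2⟩
  apply h
  rw [mem_ball, dist_comm, dist_eq_norm]
  exact h2

/-- the potential never exceeds `c` -/
theorem pot_le_c (U : Set E3) (hUB : U ⊆ ball (0:E3) 1) (c : ℝ) (hc : 0 < c)
    (g : E3 → ℝ) (hg : Adm U g) (h2 : ∀ᵐ x, c < pot g x → g x = 0) : ∀ x, pot g x ≤ c := by
  have hgd := adm_den hUB hg
  have hgn := den_nice hgd
  have hcont := pot_continuous hgn
  have h := max_principle univ isOpen_univ (fun x => pot g x - c) (hcont.sub continuous_const)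
    (by simp) ?_ ?_
  · intro x
    have h' : pot g x - c ≤ 0 := h x (mem_univ x)
    linarith
  · intro ε hε
    filter_upwards [(pot_tendsto hgd).eventually (gt_mem_nhds (show (0:ℝ) < c by exact hc))] with x hx
    linarith
  · intro x _ hx
    have hopen : IsOpen {y | c < pot g y} := isOpen_lt continuous_const hcont
    have hxm : x ∈ {y | c < pot g y} := by
      show c < pot g x
      have hx' : 0 < pot g x - c := hx
      linarith
    obtain ⟨r, hr, hball⟩ := Metric.isOpen_iff.1 hopen x hxm
    refine ⟨r, hr, subset_univ _, ?_⟩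
    have hav := avg_id hgn x r hr
    have hz : ∫ y, g y * WW r ‖x - y‖ = 0 := by
      have : ∫ y, g y * WW r ‖x - y‖ = ∫ y : E3, (0:ℝ) := by
        apply integral_congr_ae
        filter_upwards [h2] with y hy
        by_cases hyb : y ∈ ball x r
        · rw [hy (hball hyb), zero_mul]
        · rw [WW_out hyb, mul_zero]
      rw [this, integral_zero]
    rw [hz] at hav
    have hwi : IntegrableOn (pot g) (ball x r) :=
      (hcont.continuousOn.integrableOn_compact (isCompact_closedBall x r)).mono_set ball_subset_closedBall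
    have hmi : IntegrableOn (fun _ : E3 => c) (ball x r) :=
      integrableOn_const (hs := measure_ball_lt_top.ne)
    rw [integral_sub hwi hmi, setIntegral_const, measureReal_def, vol_ball x r hr.le, smul_eq_mul]
    linarith

/-- the reflection in the plane `⟪n,z⟫ = t` (for a unit vector `n`) -/
noncomputable def sg (n : E3) (t : ℝ) (z : E3) : E3 := z - (2 * (⟪n, z⟫ - t)) • n

lemma sg_eq (n : E3) (hn : ‖n‖ = 1) (t : ℝ) (z : E3) :
    sg n t z = (Submodule.span ℝ {n})ᗮ.reflection z + (2*t) • n := by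
  rw [Submodule.reflection_orthogonal_apply, Submodule.reflection_singleton_apply, hn]
  unfold sg
  simp only [RCLike.ofReal_real_eq_id, id, one_pow, div_one]
  module

lemma sg_mp (n : E3) (hn : ‖n‖ = 1) (t : ℝ) : MeasurePreserving (sg n t) := by
  have e : sg n t = fun z => (Submodule.span ℝ {n})ᗮ.reflection z + (2*t) • n := by
    funext z; exact sg_eq n hn t z
  rw [e]
  exact (measurePreserving_add_right volume ((2*t) • n)).comp
    ((Submodule.span ℝ {n})ᗮ.reflection).measurePreserving

lemma sg_isometry (n : E3) (hn : ‖n‖ = 1) (t : ℝ) (x y : E3) : ‖sg n t x - sg n t y‖ = ‖x - y‖ := by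
  rw [sg_eq n hn, sg_eq n hn, add_sub_add_right_eq_sub, ← map_sub, LinearIsometryEquiv.norm_map]

lemma sg_invol (n : E3) (hn : ‖n‖ = 1) (t : ℝ) (x : E3) : sg n t (sg n t x) = x := by
  have h1 : ⟪n, sg n t x⟫ = 2*t - ⟪n, x⟫ := by
    unfold sg
    rw [inner_sub_right, inner_smul_right, real_inner_self_eq_norm_sq, hn]
    ring
  have h2 : sg n t (sg n t x) = sg n t x - (2 * (⟪n, sg n t x⟫ - t)) • n := rfl
  rw [h2, h1]
  unfold sg
  module

lemma sg_cont (n : E3) (t : ℝ) : Continuous (sg n t) := by
  unfold sg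
  fun_prop

lemma sg_emb (n : E3) (hn : ‖n‖ = 1) (t : ℝ) : MeasurableEmbedding (sg n t) := by
  let T : E3 ≃ₜ E3 :=
    { toFun := sg n t, invFun := sg n t, left_inv := sg_invol n hn t, right_inv := sg_invol n hn t,
      continuous_toFun := sg_cont n t, continuous_invFun := sg_cont n t }
  exact T.measurableEmbedding

theorem refl_mono (U : Set E3) (hU : MeasurableSet U) (hUB : U ⊆ ball (0:E3) 1) (c : ℝ)
    (g : E3 → ℝ) (hg : Adm U g) (h1 : ∀ᵐ x, pot g x < c → g x = U.indicator (fun _ => (1:ℝ)) x)
    (hle : ∀ x, pot g x ≤ c) (n : E3) (hn : ‖n‖ = 1) (t : ℝ)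
    (hsym : ∀ x ∈ U, t < ⟪n, x⟫ → sg n t x ∈ U) :
    ∀ x, t < ⟪n, x⟫ → pot g x ≤ pot g (sg n t x) := by
  have hgd := adm_den hUB hg
  have hgn := den_nice hgd
  have hcont := pot_continuous hgn
  have hUn : Nice (U.indicator (fun _ => (1:ℝ))) := by
    refine nice_of_bdd (measurable_const.indicator hU) 1 (fun x => ?_) (fun x hx => ?_)
    · by_cases h : x ∈ U
      · rw [indicator_of_mem h]; simp
      · rw [indicator_of_notMem h]; simp
    · rw [indicator_of_notMem (fun h => hx (hUB h))]
  have hgU : ∀ x, g x ≤ U.indicator (fun _ => (1:ℝ)) x := by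
    intro x
    by_cases h : x ∈ U
    · rw [indicator_of_mem h]; exact hg.2.2.1 x
    · rw [indicator_of_notMem h, hg.2.2.2 x h]
  have hic : Continuous (fun x : E3 => ⟪n, x⟫) := by fun_prop
  have hOo : IsOpen {x : E3 | t < ⟪n, x⟫} := isOpen_lt continuous_const hic
  have hwc : Continuous (fun x => pot g x - pot g (sg n t x)) := hcont.sub (hcont.comp (sg_cont n t))
  have hmain := max_principle {x : E3 | t < ⟪n, x⟫} hOo (fun x => pot g x - pot g (sg n t x)) hwc ?_ ?_ ?_
  · intro x hx
    have h' : pot g x - pot g (sg n t x) ≤ 0 := hmain x hx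
    linarith
  · intro x hx
    have h3 : t = ⟪n, x⟫ := frontier_lt_subset_eq continuous_const hic hx
    have h4 : sg n t x = x := by
      unfold sg
      rw [← h3]
      simp
    simp only [h4, sub_self, le_refl]
  · intro ε hε
    filter_upwards [(pot_tendsto hgd).eventually (gt_mem_nhds hε)] with x hx
    have := pot_nonneg hg.2.1 (sg n t x)
    linarith
  · intro z hz hwz0
    have hwz : 0 < pot g z - pot g (sg n t z) := hwz0
    have hopen : IsOpen ({x : E3 | t < ⟪n, x⟫} ∩ {x | pot g (sg n t x) < c}) :=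
      hOo.inter (isOpen_lt (hcont.comp (sg_cont n t)) continuous_const)
    have hzm : z ∈ ({x : E3 | t < ⟪n, x⟫} ∩ {x | pot g (sg n t x) < c}) := by
      refine ⟨hz, ?_⟩
      show pot g (sg n t z) < c
      have := hle z
      linarith
    obtain ⟨r, hr, hball⟩ := Metric.isOpen_iff.1 hopen z hzm
    refine ⟨r, hr, fun y hy => (hball hy).1, ?_⟩
    have hav1 := avg_id hgn z r hr
    have hav2 := avg_id hgn (sg n t z) r hr
    have hpre : sg n t ⁻¹' (ball (sg n t z) r) = ball z r := by
      ext y
      rw [mem_preimage, mem_ball, mem_ball, dist_eq_norm, dist_eq_norm, sg_isometry n hn]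
    -- integral of the potential over the reflected ball
    have hI : ∫ y in ball (sg n t z) r, pot g y = ∫ y in ball z r, pot g (sg n t y) := by
      rw [← hpre]
      exact ((sg_mp n hn t).setIntegral_preimage_emb (sg_emb n hn t) (pot g) _).symm
    have hineq1 : ∫ y, g y * WW r ‖z - y‖ ≤ ∫ y, U.indicator (fun _ => (1:ℝ)) y * WW r ‖z - y‖ :=
      integral_mono (int_WW hgn z r hr) (int_WW hUn z r hr)
        (fun y => mul_le_mul_of_nonneg_right (hgU y) (WW_nonneg _ _))
    have heq2 : ∫ y, g y * WW r ‖sg n t z - y‖ =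
        ∫ y, U.indicator (fun _ => (1:ℝ)) y * WW r ‖sg n t z - y‖ := by
      apply integral_congr_ae
      filter_upwards [h1] with y hy
      by_cases hyb : y ∈ ball (sg n t z) r
      · have : pot g y < c := by
          have h5 : sg n t y ∈ ball z r := by
            rw [← hpre, mem_preimage, sg_invol n hn]; exact hyb
          have h6 := (hball h5).2
          simp only [mem_setOf_eq, sg_invol n hn] at h6
          exact h6
        rw [hy this]
      · rw [WW_out hyb, mul_zero, mul_zero]
    have heq3 : ∫ y, U.indicator (fun _ => (1:ℝ)) y * WW r ‖sg n t z - y‖ =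
        ∫ y, U.indicator (fun _ => (1:ℝ)) (sg n t y) * WW r ‖z - y‖ := by
      rw [← (sg_mp n hn t).integral_comp (sg_emb n hn t)
        (fun y => U.indicator (fun _ => (1:ℝ)) y * WW r ‖sg n t z - y‖)]
      apply integral_congr_ae
      refine ae_of_all _ fun y => ?_
      simp only [sg_isometry n hn]
    have hint3 : Integrable (fun y => U.indicator (fun _ => (1:ℝ)) (sg n t y) * WW r ‖z - y‖) := by
      have h7 := (sg_mp n hn t).integrable_comp_of_integrable (int_WW hUn (sg n t z) r hr)
      refine h7.congr (ae_of_all _ fun y => ?_)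
      simp only [Function.comp, sg_isometry n hn]
    have hineq4 : ∫ y, U.indicator (fun _ => (1:ℝ)) y * WW r ‖z - y‖ ≤
        ∫ y, U.indicator (fun _ => (1:ℝ)) (sg n t y) * WW r ‖z - y‖ := by
      refine integral_mono (int_WW hUn z r hr) hint3 (fun y => ?_)
      show U.indicator (fun _ => (1:ℝ)) y * WW r ‖z - y‖ ≤ U.indicator (fun _ => (1:ℝ)) (sg n t y) * WW r ‖z - y‖
      by_cases hyb : y ∈ ball z r
      · apply mul_le_mul_of_nonneg_right _ (WW_nonneg _ _)
        by_cases hyU : y ∈ U
        · rw [indicator_of_mem hyU, indicator_of_mem (hsym y hyU (hball hyb).1)]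
        · rw [indicator_of_notMem hyU]
          exact indicator_nonneg (fun _ _ => zero_le_one) _
      · rw [WW_out hyb, mul_zero, mul_zero]
    have hwi : IntegrableOn (pot g) (ball z r) :=
      (hcont.continuousOn.integrableOn_compact (isCompact_closedBall z r)).mono_set ball_subset_closedBall
    have hwi2 : IntegrableOn (fun y => pot g (sg n t y)) (ball z r) :=
      ((hcont.comp (sg_cont n t)).continuousOn.integrableOn_compact (isCompact_closedBall z r)).mono_set ball_subset_closedBall
    rw [integral_sub hwi hwi2]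
    rw [hI] at hav2
    linarith

end Pool.Agent.H493.Cav
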