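import Mathlib
import Pool.Agent.H493.CavPhi
import Pool.Agent.H493.CavGeo

/-!
# The cut ball has a cavity with constant potential
-/

set_option autoImplicit false
open MeasureTheory Set Filter Topology Metric
open Pool.Agent.TH791.Cl
open scoped RealInnerProductSpace Pointwise

namespace Pool.Agent.H493.Cav

/-- `a = √0.99` -/
noncomputable def aa : ℝ := Real.sqrt (99/100)

lemma aa_sq : aa^2 = 99/100 := Real.sq_sqrt (by norm_num)

lemma aa_pos : 0 < aa := Real.sqrt_pos.2 (by norm_num)

lemma aa_gt : 99/100 < aa := by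
  have h1 := aa_sq
  have h2 := aa_pos
  nlinarith

/-- the cut ball -/
def UU : Set E3 := ball (0:E3) 1 ∩ {x | x 0 < aa}

lemma UU_open : IsOpen UU :=
  isOpen_ball.inter (isOpen_lt (by fun_prop) continuous_const)

lemma UU_convex : Convex ℝ UU := by
  refine (convex_ball _ _).inter ?_
  intro x hx y hy p q hp hq hpq
  have hx' : x 0 < aa := hx
  have hy' : y 0 < aa := hy
  show (p • x + q • y) 0 < aa
  simp only [PiLp.add_apply, PiLp.smul_apply, smul_eq_mul]
  rcases hp.eq_or_lt with h | h
  · have : q = 1 := by linarith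
    rw [← h, this]; linarith
  · have h1 := mul_lt_mul_of_pos_left hx' h
    have h2 := mul_le_mul_of_nonneg_left hy'.le hq
    have h3 : p * aa + q * aa = aa := by rw [← add_mul, hpq, one_mul]
    linarith

lemma coord_le_norm (x : E3) (i : Fin 3) : |x i| ≤ ‖x‖ := by
  have := PiLp.norm_apply_le x i
  simpa using this

lemma ball_sub_UU : ball (0:E3) (99/100) ⊆ UU := by
  intro x hx
  rw [mem_ball_zero_iff] at hx
  refine ⟨by rw [mem_ball_zero_iff]; linarith, ?_⟩
  show x 0 < aa
  have h1 := coord_le_norm x 0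
  have h2 := le_abs_self (x 0)
  have h3 := aa_gt
  linarith

lemma zero_mem : (0:E3) ∈ interior UU := by
  rw [UU_open.interior_eq]
  exact ball_sub_UU (by simp)

lemma sg_zero (n : E3) (t : ℝ) : sg n t 0 = (2*t) • n := by
  unfold sg
  simp
  

lemma UU_sym (n : E3) (hn : ‖n‖ = 1) (t : ℝ) (ht : 1/10 ≤ t) (x : E3) (hx : x ∈ UU)
    (htx : t < ⟪n, x⟫) : sg n t x ∈ UU := by
  obtain ⟨hxb, hxa⟩ := hx
  rw [mem_ball_zero_iff] at hxb
  have hxa' : x 0 < aa := hxa
  have hnorm : ‖sg n t x‖^2 = ‖x‖^2 - 4*t*(⟪n, x⟫ - t) := by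
    unfold sg
    rw [norm_sub_sq_real, norm_smul, inner_smul_right, hn, real_inner_comm x n, mul_one, Real.norm_eq_abs, sq_abs]
    ring
  have hb1 : ‖sg n t x‖^2 < 1 := by
    rw [hnorm]
    have : 0 ≤ 4*t*(⟪n, x⟫ - t) := by
      apply mul_nonneg <;> linarith
    nlinarith [norm_nonneg x]
  have hb2 : ‖sg n t x - (2*t) • n‖^2 < 1 := by
    rw [← sg_zero n t, sg_isometry n hn, sub_zero]
    nlinarith [norm_nonneg x]
  refine ⟨?_, ?_⟩
  · rw [mem_ball_zero_iff]
    nlinarith [norm_nonneg (sg n t x)]
  · show (sg n t x) 0 < aa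
    by_cases hn0 : 0 ≤ n 0
    · have : (sg n t x) 0 = x 0 - 2*(⟪n, x⟫ - t) * n 0 := by
        unfold sg
        simp
      rw [this]
      have : 0 ≤ 2*(⟪n, x⟫ - t) * n 0 := by
        apply mul_nonneg _ hn0
        linarith
      linarith
    · push Not at hn0
      set y := sg n t x with hy
      have h1 : ‖y - t • n‖^2 = (‖y‖^2 + ‖y - (2*t) • n‖^2)/2 - t^2 := by
        rw [norm_sub_sq_real, norm_sub_sq_real, norm_smul, norm_smul, inner_smul_right, inner_smul_right, hn,
          mul_one, mul_one, Real.norm_eq_abs, sq_abs, Real.norm_eq_abs, sq_abs]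
        ring
      have h2 : ‖y - t • n‖^2 < aa^2 := by
        rw [h1, aa_sq]
        nlinarith
      have h3 : ‖y - t • n‖ < aa := by
        nlinarith [norm_nonneg (y - t • n), aa_pos]
      have h4 := coord_le_norm (y - t • n) 0
      have h5 := le_abs_self ((y - t • n) 0)
      have h6 : (y - t • n) 0 = y 0 - t * n 0 := by simp
      rw [h6] at h4 h5
      nlinarith

/-- The cavity. -/
theorem cavity : ∃ K : Set E3, IsCompact K ∧ (0:E3) ∈ interior K ∧ Star K ∧ K ⊆ UU ∧
    ∀ P ∈ interior K, ∫ M in UU \ K, (dist P M)⁻¹ = 3/2 * Real.pi := by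
  have hpi := Real.pi_pos
  have hU : MeasurableSet UU := UU_open.measurableSet
  have hUB : UU ⊆ ball (0:E3) 1 := inter_subset_left
  have hc : (0:ℝ) < 3/2*Real.pi := by positivity
  obtain ⟨g, hg, hg1, hg2⟩ := exists_eq UU hU hUB (3/2*Real.pi) hc.le
  have hgd := adm_den hUB hg
  have hgn := den_nice hgd
  have hcont := pot_continuous hgn
  have hle := pot_le_c UU hUB _ hc g hg hg2
  set K : Set E3 := {x | pot g x = 3/2*Real.pi} with hK
  have hKc : IsClosed K := isClosed_eq hcont continuous_const
  have hKn : ∀ x ∈ K, ‖x‖ < 99/100 := by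
    intro x hx
    have hx' : pot g x = 3/2*Real.pi := hx
    have h1 := pot_le hgd x
    rw [hx'] at h1
    unfold NB at h1
    split_ifs at h1 with h
    · exfalso
      rw [le_div_iff₀ (by linarith)] at h1
      nlinarith
    · push Not at h
      have h2 : ‖x‖^2 ≤ 3/4 := by
        by_contra hcon
        push Not at hcon
        nlinarith
      nlinarith [norm_nonneg x]
  have hKU : K ⊆ UU := fun x hx => ball_sub_UU (by rw [mem_ball_zero_iff]; exact hKn x hx)
  have hKcomp : IsCompact K := by
    apply Metric.isCompact_of_isClosed_isBounded hKc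
    exact (isBounded_ball (x := (0:E3)) (r := 1)).subset (hKU.trans hUB)
  have hgK : ∀ᵐ x, x ∉ K → g x = UU.indicator (fun _ => (1:ℝ)) x := by
    filter_upwards [hg1] with x hx hxK
    exact hx (lt_of_le_of_ne (hle x) hxK)
  -- moving planes
  have hG : ∀ x ∈ K, ∀ y, ‖y‖^2 + 2*(1/10)*‖x - y‖ ≤ ‖x‖^2 → y ∈ K := by
    intro x hx y hxy
    by_cases hne : x = y
    · rw [← hne]; exact hx
    have hd : 0 < ‖x - y‖ := norm_pos_iff.2 (sub_ne_zero.2 hne)
    set d := ‖x - y‖ with hdd
    set n : E3 := d⁻¹ • (x - y) with hn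
    set t : ℝ := (‖x‖^2 - ‖y‖^2) / (2*d) with ht
    have hn1 : ‖n‖ = 1 := by
      rw [hn, norm_smul, norm_inv, Real.norm_of_nonneg hd.le, ← hdd, inv_mul_cancel₀ hd.ne']
    have ht1 : 1/10 ≤ t := by
      rw [ht, le_div_iff₀ (by positivity)]
      linarith
    have hd2 : d^2 = ‖x‖^2 - 2*⟪x, y⟫ + ‖y‖^2 := norm_sub_sq_real x y
    have hinner : ⟪n, x⟫ = (‖x‖^2 - ⟪x, y⟫)/d := by
      rw [hn, real_inner_smul_left, inner_sub_left, real_inner_self_eq_norm_sq, real_inner_comm x y]
      field_simp
    have hdiff : ⟪n, x⟫ - t = d/2 := by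
      rw [hinner, ht]
      field_simp
      linarith
    have hlt : t < ⟪n, x⟫ := by linarith
    have hsg : sg n t x = y := by
      unfold sg
      rw [hdiff, hn, smul_smul]
      have : 2 * (d/2) * d⁻¹ = 1 := by field_simp
      rw [this, one_smul, sub_sub_cancel]
    have h := refl_mono UU hU hUB (3/2*Real.pi) g hg hg1 hle n hn1 t
      (fun z hz hzt => UU_sym n hn1 t ht1 z hz hzt) x hlt
    rw [hsg] at h
    have hx' : pot g x = 3/2*Real.pi := hx
    show pot g y = 3/2*Real.pi
    exact le_antisymm (hle y) (hx' ▸ h)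
  have hbig : ∃ x ∈ K, 4*(1/10:ℝ) < ‖x‖ := by
    by_contra hcon
    push Not at hcon
    set A1 : E3 → ℝ := (ball (0:E3) (99/100)).indicator (fun _ => (1:ℝ)) with hA1
    set A2 : E3 → ℝ := (ball (0:E3) (41/100)).indicator (fun _ => (1:ℝ)) with hA2
    have hA1n : Nice A1 := by
      refine nice_of_bdd (measurable_const.indicator measurableSet_ball) 1 (fun x => ?_) (fun x hx => ?_)
      · rw [hA1]
        by_cases h : x ∈ ball (0:E3) (99/100)
        · rw [indicator_of_mem h]; simp
        · rw [indicator_of_notMem h]; simp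
      · rw [hA1, indicator_of_notMem (fun h => hx (ball_subset_ball (by norm_num) h))]
    have hA2n : Nice A2 := by
      refine nice_of_bdd (measurable_const.indicator measurableSet_ball) 1 (fun x => ?_) (fun x hx => ?_)
      · rw [hA2]
        by_cases h : x ∈ ball (0:E3) (41/100)
        · rw [indicator_of_mem h]; simp
        · rw [indicator_of_notMem h]; simp
      · rw [hA2, indicator_of_notMem (fun h => hx (ball_subset_ball (by norm_num) h))]
    have hae : ∀ᵐ x, A1 x ≤ g x + 1 * A2 x := by
      filter_upwards [hgK] with x hx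
      by_cases h2 : x ∈ ball (0:E3) (41/100)
      · have : A2 x = 1 := by rw [hA2, indicator_of_mem h2]
        rw [this]
        have h3 := hg.2.1 x
        have h4 : A1 x ≤ 1 := by
          rw [hA1]
          by_cases h : x ∈ ball (0:E3) (99/100)
          · rw [indicator_of_mem h]
          · rw [indicator_of_notMem h]; exact zero_le_one
        linarith
      · have hA2x : A2 x = 0 := by rw [hA2, indicator_of_notMem h2]
        have hxK : x ∉ K := by
          intro h
          have := hcon x h
          apply h2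
          rw [mem_ball_zero_iff]
          linarith
        rw [hA2x, hx hxK, hA1]
        by_cases h : x ∈ ball (0:E3) (99/100)
        · rw [indicator_of_mem h, indicator_of_mem (ball_sub_UU h)]; simp
        · rw [indicator_of_notMem h]
          have : 0 ≤ UU.indicator (fun _ => (1:ℝ)) x := indicator_nonneg (fun _ _ => zero_le_one) x
          linarith
    have hsum : Nice (fun x => g x + 1 * A2 x) := by
      have := nice_of_bdd (g := fun x => g x + 1 * A2 x) (hg.1.add (hA2n.1.const_mul 1)) 2 (fun x => ?_) (fun x hx => ?_)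
      · exact this
      · have h1 := hg.2.1 x
        have h2 := hg.2.2.1 x
        have h3 : 0 ≤ A2 x := by rw [hA2]; exact indicator_nonneg (fun _ _ => zero_le_one) x
        have h4 : A2 x ≤ 1 := by
          rw [hA2]
          by_cases h : x ∈ ball (0:E3) (41/100)
          · rw [indicator_of_mem h]
          · rw [indicator_of_notMem h]; exact zero_le_one
        rw [abs_le]
        constructor <;> linarith
      · show g x + 1 * A2 x = 0
        rw [hgd.2.2.2 x hx, hA2, indicator_of_notMem (fun h => hx (ball_subset_ball (by norm_num) h))]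
        simp
    have hfin := pot_mono_ae hA1n hsum hae 0
    rw [pot_lin hgn hA2n 1 0, hA1, hA2, pot_ball 0 0 _ (by norm_num), pot_ball 0 0 _ (by norm_num)] at hfin
    have h0 := hle 0
    rw [sub_zero, norm_zero] at hfin
    unfold NB at hfin
    rw [if_neg (by norm_num), if_neg (by norm_num)] at hfin
    nlinarith
  obtain ⟨h0, hst⟩ := geo K hKc (1/10) (by norm_num) hG hbig
  have hnull := star_null K hKcomp hst
  -- g vanishes a.e. on the interior of K
  have hgint : volume {y | y ∈ interior K ∧ g y ≠ 0} = 0 := by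
    apply measure_null_of_locally_null
    rintro x ⟨hx, -⟩
    obtain ⟨r, hr, hball⟩ := Metric.isOpen_iff.1 isOpen_interior x hx
    refine ⟨{y | y ∈ interior K ∧ g y ≠ 0} ∩ ball x r, ?_, ?_⟩
    · exact inter_mem self_mem_nhdsWithin (mem_nhdsWithin_of_mem_nhds (ball_mem_nhds x hr))
    · have hav := avg_id hgn x r hr
      have hI : ∫ z in ball x r, pot g z = (4/3*Real.pi*r^3) * (3/2*Real.pi) := by
        have : ∫ z in ball x r, pot g z = ∫ z in ball x r, (3/2*Real.pi) := by
          apply setIntegral_congr_fun measurableSet_ball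
          intro z hz
          have hzK : z ∈ K := interior_subset (hball hz)
          exact hzK
        rw [this, setIntegral_const, measureReal_def, vol_ball x r hr.le, smul_eq_mul]
      have hxK0 : x ∈ K := interior_subset hx
      have hxK : pot g x = 3/2*Real.pi := hxK0
      rw [hI, hxK, sub_self] at hav
      have hnn : 0 ≤ᵐ[volume] fun y => g y * WW r ‖x - y‖ :=
        ae_of_all _ fun y => mul_nonneg (hg.2.1 y) (WW_nonneg _ _)
      have hz := (integral_eq_zero_iff_of_nonneg_ae hnn (int_WW hgn x r hr)).1 hav.symm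
      have hne : ∀ᵐ y : E3, y ≠ x := by
        rw [ae_iff]
        simp
      have hzz : ∀ᵐ y : E3, y ∉ ({y | y ∈ interior K ∧ g y ≠ 0} ∩ ball x r) := by
        filter_upwards [hz, hne] with y hy hyx hmem
        obtain ⟨⟨-, hgy⟩, hyb⟩ := hmem
        have hpos : 0 < ‖x - y‖ := norm_pos_iff.2 (sub_ne_zero.2 (Ne.symm hyx))
        have hlt : ‖x - y‖ < r := by
          rw [mem_ball, dist_comm, dist_eq_norm] at hyb
          exact hyb
        have hw := WW_pos r _ hpos hlt
        have hy' : g y * WW r ‖x - y‖ = 0 := hy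
        rcases mul_eq_zero.1 hy' with h | h
        · exact hgy h
        · exact hw.ne' h
      exact measure_eq_zero_iff_ae_notMem.2 hzz
  have hgKz : ∀ᵐ x, x ∈ K → g x = 0 := by
    have h1 : ∀ᵐ x, x ∉ {y | y ∈ interior K ∧ g y ≠ 0} := measure_eq_zero_iff_ae_notMem.1 hgint
    have h2 : ∀ᵐ x, x ∉ K \ interior K := measure_eq_zero_iff_ae_notMem.1 hnull
    filter_upwards [h1, h2] with x hx1 hx2 hxK
    have hxi : x ∈ interior K := by
      by_contra h
      exact hx2 ⟨hxK, h⟩
    by_contra hgx
    exact hx1 ⟨hxi, hgx⟩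
  have hgfin : ∀ᵐ x, g x = (UU \ K).indicator (fun _ => (1:ℝ)) x := by
    filter_upwards [hgK, hgKz] with x hx1 hx2
    by_cases hxK : x ∈ K
    · rw [hx2 hxK, indicator_of_notMem (fun h => h.2 hxK)]
    · rw [hx1 hxK]
      by_cases hxU : x ∈ UU
      · rw [indicator_of_mem hxU, indicator_of_mem (show x ∈ UU \ K from ⟨hxU, hxK⟩)]
      · rw [indicator_of_notMem hxU, indicator_of_notMem (fun h => hxU h.1)]
  refine ⟨K, hKcomp, h0, hst, hKU, fun P hP => ?_⟩
  have hPK0 : P ∈ K := interior_subset hP
  have hPK : pot g P = 3/2*Real.pi := hPK0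
  rw [← hPK, pot_congr_ae hgfin P, ← integral_indicator (hU.diff hKc.measurableSet)]
  unfold pot
  apply integral_congr_ae
  refine ae_of_all _ fun y => ?_
  by_cases hy : y ∈ UU \ K
  · simp only [indicator_of_mem hy, dist_eq_norm, one_div]
  · simp only [indicator_of_notMem hy, zero_div]

/-- The boundary of the cut ball is not an affine image of a sphere. -/
theorem not_ellipsoid (f : E3 ≃ᵃ[ℝ] E3) : frontier UU ≠ f '' sphere (0:E3) 1 := by
  intro heq
  have hpt : ∀ b : ℝ, |b| ≤ 1/20 → (EuclideanSpace.single 0 aa + EuclideanSpace.single 1 b : E3) ∈ frontier UU := by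
    intro b hb
    set p : E3 := EuclideanSpace.single 0 aa + EuclideanSpace.single 1 b with hp
    have hp0 : p 0 = aa := by simp [hp]
    have hpn : ‖p‖ < 1 := by
      have h1 : ‖p‖^2 = aa^2 + b^2 := by
        rw [EuclideanSpace.norm_sq_eq, Fin.sum_univ_three]
        simp [hp]
      have h2 : b^2 ≤ (1/20)^2 := by
        rw [← sq_abs b]
        exact pow_le_pow_left₀ (abs_nonneg b) hb 2
      rw [aa_sq] at h1
      nlinarith [norm_nonneg p]
    rw [UU_open.frontier_eq]
    refine ⟨?_, ?_⟩
    · have hcont : Continuous (fun s : ℝ => s • p) := by fun_prop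
      have h1 : Tendsto (fun s : ℝ => s • p) (𝓝[<] 1) (𝓝 p) := by
        have := (hcont.tendsto 1).mono_left (nhdsWithin_le_nhds (s := Iio 1))
        rwa [one_smul] at this
      refine mem_closure_of_tendsto h1 ?_
      have h2 : Ioo (0:ℝ) 1 ∈ 𝓝[<] (1:ℝ) := Ioo_mem_nhdsLT one_pos
      filter_upwards [h2] with s hs
      refine ⟨?_, ?_⟩
      · rw [mem_ball_zero_iff, norm_smul, Real.norm_of_nonneg hs.1.le]
        nlinarith [norm_nonneg p, hs.2, hs.1]
      · show (s • p) 0 < aa
        have : (s • p) 0 = s * aa := by rw [PiLp.smul_apply, hp0, smul_eq_mul]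
        rw [this]
        nlinarith [aa_pos, hs.2]
    · rintro ⟨-, h⟩
      have h' : p 0 < aa := h
      linarith
  have hm := hpt 0 (by norm_num)
  have hp := hpt (1/20) (by rw [abs_of_pos] <;> norm_num)
  have hq := hpt (-(1/20)) (by rw [abs_neg, abs_of_pos] <;> norm_num)
  rw [heq] at hm hp hq
  obtain ⟨m, hm1, hm2⟩ := hm
  obtain ⟨p, hp1, hp2⟩ := hp
  obtain ⟨q, hq1, hq2⟩ := hq
  rw [mem_sphere, dist_zero_right] at hm1 hp1 hq1
  have hmid : m = midpoint ℝ p q := by
    apply f.injective
    rw [AffineEquiv.map_midpoint, hm2, hp2, hq2, midpoint_eq_smul_add]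
    ext i
    fin_cases i <;> simp
    ring
  have hpq : p ≠ q := by
    intro h
    rw [h, hq2] at hp2
    have := congrArg (fun z : E3 => z 1) hp2
    simp at this
    norm_num at this
  have h1 := parallelogram_law_with_norm ℝ p q
  have h2 : ‖p + q‖ = 2 := by
    have : p + q = (2:ℝ) • m := by
      rw [hmid, midpoint_eq_smul_add, smul_smul]
      simp
    rw [this, norm_smul, hm1]
    norm_num
  rw [h2, hp1, hq1] at h1
  have h3 : ‖p - q‖ = 0 := by nlinarith [norm_nonneg (p - q)]
  exact hpq (sub_eq_zero.1 (norm_eq_zero.1 h3))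

end Pool.Agent.H493.Cav
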