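import Mathlib

/-!
# Real interpolation of Lipschitz operators between Lebesgue spaces
-/

set_option autoImplicit false
open MeasureTheory Set Filter Topology
open scoped ENNReal NNReal

namespace Pool.Agent.H493.LI

variable {Ω : Type*} [MeasurableSpace Ω] {μ : Measure Ω}

/-- radial truncation at level `t` -/
noncomputable def tr (t : ℝ) (z : ℂ) : ℂ := if ‖z‖ ≤ t then z else (t/‖z‖ : ℝ) • z

lemma norm_tr {t : ℝ} (ht : 0 ≤ t) (z : ℂ) : ‖tr t z‖ = min ‖z‖ t := by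
  unfold tr
  split_ifs with h
  · rw [min_eq_left h]
  · push Not at h
    rw [norm_smul, Real.norm_of_nonneg (div_nonneg ht (norm_nonneg _)),
      div_mul_cancel₀ _ (by linarith : ‖z‖ ≠ 0) , min_eq_right h.le]

lemma norm_sub_tr {t : ℝ} (ht : 0 ≤ t) (z : ℂ) : ‖z - tr t z‖ = max (‖z‖ - t) 0 := by
  unfold tr
  split_ifs with h
  · rw [sub_self, norm_zero, max_eq_right (by linarith)]
  · push Not at h
    have h0 : 0 < ‖z‖ := lt_of_le_of_lt ht h
    have e : z - (t/‖z‖ : ℝ) • z = ((1 - t/‖z‖ : ℝ)) • z := by rw [sub_smul, one_smul]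
    have h1 : 0 ≤ 1 - t/‖z‖ := by
      rw [sub_nonneg, div_le_one h0]; exact h.le
    rw [e, norm_smul, Real.norm_of_nonneg h1, sub_mul, one_mul, div_mul_cancel₀ _ h0.ne',
      max_eq_left (by linarith)]

lemma measurable_tr (t : ℝ) : Measurable (tr t) := by
  unfold tr
  refine Measurable.ite ?_ measurable_id ?_
  · exact measurableSet_le measurable_norm measurable_const
  · exact (measurable_const.div measurable_norm).smul measurable_id

lemma eL (f : Ω → ℂ) (p : ℝ) (hp : 0 < p) :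
    eLpNorm f (ENNReal.ofReal p) μ ^ p = ∫⁻ ω, ENNReal.ofReal (‖f ω‖ ^ p) ∂μ := by
  have h0 : ENNReal.ofReal p ≠ 0 := by simpa using hp
  rw [eLpNorm_eq_lintegral_rpow_enorm_toReal h0 ENNReal.ofReal_ne_top, ENNReal.toReal_ofReal hp.le,
    ← ENNReal.rpow_mul, one_div, inv_mul_cancel₀ hp.ne', ENNReal.rpow_one]
  apply lintegral_congr
  intro ω
  rw [← ofReal_norm_eq_enorm, ENNReal.ofReal_rpow_of_nonneg (norm_nonneg _) hp.le]

lemma cheb (f : Ω → ℂ) (hf : AEStronglyMeasurable f μ) (p : ℝ) (hp : 0 < p) (s : ℝ) (hs : 0 < s) :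
    μ {ω | s ≤ ‖f ω‖} ≤ ENNReal.ofReal (s ^ (-p)) * eLpNorm f (ENNReal.ofReal p) μ ^ p := by
  have h0 : ENNReal.ofReal p ≠ 0 := by simpa using hp
  have h := mul_meas_ge_le_pow_eLpNorm' μ h0 ENNReal.ofReal_ne_top hf (ENNReal.ofReal s)
  rw [ENNReal.toReal_ofReal hp.le, ENNReal.ofReal_rpow_of_pos hs] at h
  have hset : {ω | s ≤ ‖f ω‖} = {ω | ENNReal.ofReal s ≤ ‖f ω‖ₑ} := by
    ext ω
    simp only [mem_setOf_eq]
    rw [← ofReal_norm_eq_enorm, ENNReal.ofReal_le_ofReal_iff (norm_nonneg _)]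
  rw [hset]
  have hpos : 0 < s ^ p := Real.rpow_pos_of_pos hs p
  have h1 : ENNReal.ofReal (s ^ (-p)) * ENNReal.ofReal (s ^ p) = 1 := by
    rw [← ENNReal.ofReal_mul (by positivity), ← Real.rpow_add hs, neg_add_cancel, Real.rpow_zero,
      ENNReal.ofReal_one]
  calc μ {ω | ENNReal.ofReal s ≤ ‖f ω‖ₑ}
      = ENNReal.ofReal (s ^ (-p)) * (ENNReal.ofReal (s ^ p) * μ {ω | ENNReal.ofReal s ≤ ‖f ω‖ₑ}) := by
        rw [← mul_assoc, h1, one_mul]
    _ ≤ _ := mul_le_mul_right h _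

/-- the constant -/
noncomputable def CC (β γ α : ℝ) : ℝ := γ * (1/(γ-β) + (1/γ + 1/(α-γ)))

lemma int1 {β γ : ℝ} (h1 : β < γ) (hβ : 0 < β) (a : ℝ) (ha : 0 ≤ a) :
    ∫⁻ t in Ioi (0:ℝ), ENNReal.ofReal (t ^ (-β) * (max (a - t) 0) ^ β * t ^ (γ-1)) ≤
      ENNReal.ofReal (a ^ γ / (γ - β)) := by
  have hpt : ∀ t ∈ Ioi (0:ℝ), ENNReal.ofReal (t ^ (-β) * (max (a - t) 0) ^ β * t ^ (γ-1)) ≤
      (Ioc 0 a).indicator (fun t => ENNReal.ofReal (a ^ β * t ^ (γ - β - 1))) t := by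
    intro t ht
    have ht0 : 0 < t := ht
    by_cases hta : t ≤ a
    · rw [indicator_of_mem (show t ∈ Ioc 0 a from ⟨ht0, hta⟩)]
      apply ENNReal.ofReal_le_ofReal
      have e : t ^ (γ - β - 1) = t ^ (-β) * t ^ (γ - 1) := by
        rw [← Real.rpow_add ht0]; congr 1; ring
      rw [e]
      have h2 : (max (a - t) 0) ^ β ≤ a ^ β :=
        Real.rpow_le_rpow (le_max_right _ _) (max_le (by linarith) ha) hβ.le
      have h3 : 0 < t ^ (-β) := Real.rpow_pos_of_pos ht0 _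
      have h4 : 0 < t ^ (γ - 1) := Real.rpow_pos_of_pos ht0 _
      calc t ^ (-β) * (max (a - t) 0) ^ β * t ^ (γ-1) ≤ t ^ (-β) * a ^ β * t ^ (γ-1) := by gcongr
        _ = _ := by ring
    · push Not at hta
      rw [max_eq_right (by linarith), Real.zero_rpow hβ.ne', mul_zero, zero_mul, ENNReal.ofReal_zero]
      exact zero_le
  refine (setLIntegral_mono' measurableSet_Ioi hpt).trans ?_
  rw [lintegral_indicator measurableSet_Ioc, Measure.restrict_restrict measurableSet_Ioc]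
  have hsub : Ioc 0 a ∩ Ioi (0:ℝ) = Ioc 0 a := inter_eq_left.2 (fun x hx => hx.1)
  rw [hsub]
  have hi : IntervalIntegrable (fun t : ℝ => a ^ β * t ^ (γ - β - 1)) volume 0 a :=
    (intervalIntegral.intervalIntegrable_rpow' (by linarith)).const_mul _
  rw [← ofReal_integral_eq_lintegral_ofReal]
  · rw [← intervalIntegral.integral_of_le ha, intervalIntegral.integral_const_mul,
      integral_rpow (Or.inl (by linarith))]
    apply le_of_eq
    congr 1
    have e1 : γ - β - 1 + 1 = γ - β := by ring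
    rw [e1, Real.zero_rpow (by linarith)]
    rcases ha.eq_or_lt with h | h
    · have hγ : γ ≠ 0 := by linarith
      rw [← h, Real.zero_rpow hβ.ne', Real.zero_rpow hγ]; simp
    · have : a ^ γ = a ^ β * a ^ (γ - β) := by rw [← Real.rpow_add h]; congr 1; ring
      rw [this]; ring
  · exact (intervalIntegrable_iff_integrableOn_Ioc_of_le ha).1 hi
  · rw [EventuallyLE, ae_restrict_iff' measurableSet_Ioc]
    refine ae_of_all _ fun t ht => ?_
    have := ht.1
    simp only [Pi.zero_apply]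
    positivity

lemma int2 {γ α : ℝ} (h2 : γ < α) (hγ : 0 < γ) (a : ℝ) (ha : 0 ≤ a) :
    ∫⁻ t in Ioi (0:ℝ), ENNReal.ofReal (t ^ (-α) * (min a t) ^ α * t ^ (γ-1)) ≤
      ENNReal.ofReal (a ^ γ / γ + a ^ γ / (α - γ)) := by
  have hα : 0 < α := hγ.trans h2
  rcases ha.eq_or_lt with h | h
  · rw [← h]
    have : ∀ t ∈ Ioi (0:ℝ), ENNReal.ofReal (t ^ (-α) * (min 0 t) ^ α * t ^ (γ-1)) = 0 := by
      intro t ht
      have ht0 : (0:ℝ) < t := ht
      rw [min_eq_left ht0.le, Real.zero_rpow hα.ne', mul_zero, zero_mul, ENNReal.ofReal_zero]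
    rw [setLIntegral_congr_fun measurableSet_Ioi this]
    simp
  have hpt : ∀ t ∈ Ioi (0:ℝ), ENNReal.ofReal (t ^ (-α) * (min a t) ^ α * t ^ (γ-1)) ≤
      (Ioc 0 a).indicator (fun t => ENNReal.ofReal (t ^ (γ - 1))) t +
        (Ioi a).indicator (fun t => ENNReal.ofReal (a ^ α * t ^ (γ - α - 1))) t := by
    intro t ht
    have ht0 : 0 < t := ht
    by_cases hta : t ≤ a
    · rw [indicator_of_mem (show t ∈ Ioc 0 a from ⟨ht0, hta⟩), min_eq_right hta]
      have e : t ^ (-α) * t ^ α = 1 := by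
        rw [← Real.rpow_add ht0, neg_add_cancel, Real.rpow_zero]
      rw [e, one_mul]
      exact le_self_add
    · push Not at hta
      rw [indicator_of_mem (show t ∈ Ioi a from hta), min_eq_left hta.le]
      have e : t ^ (γ - α - 1) = t ^ (-α) * t ^ (γ - 1) := by
        rw [← Real.rpow_add ht0]; congr 1; ring
      rw [e]
      have : t ^ (-α) * a ^ α * t ^ (γ - 1) = a ^ α * (t ^ (-α) * t ^ (γ - 1)) := by ring
      rw [this]
      exact le_add_self
  refine (setLIntegral_mono' measurableSet_Ioi hpt).trans ?_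
  have hm1 : Measurable ((Ioc 0 a).indicator (fun t : ℝ => ENNReal.ofReal (t ^ (γ - 1)))) :=
    (by fun_prop : Measurable (fun t : ℝ => ENNReal.ofReal (t ^ (γ - 1)))).indicator measurableSet_Ioc
  rw [lintegral_add_left hm1]
  rw [lintegral_indicator measurableSet_Ioc, Measure.restrict_restrict measurableSet_Ioc,
    lintegral_indicator measurableSet_Ioi, Measure.restrict_restrict measurableSet_Ioi]
  have hsub : Ioc 0 a ∩ Ioi (0:ℝ) = Ioc 0 a := inter_eq_left.2 (fun x hx => hx.1)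
  have hsub2 : Ioi a ∩ Ioi (0:ℝ) = Ioi a := inter_eq_left.2 (fun x hx => lt_trans h hx)
  rw [hsub, hsub2]
  have hi : IntervalIntegrable (fun t : ℝ => t ^ (γ - 1)) volume 0 a :=
    intervalIntegral.intervalIntegrable_rpow' (by linarith)
  have hi2 : IntegrableOn (fun t : ℝ => a ^ α * t ^ (γ - α - 1)) (Ioi a) :=
    (integrableOn_Ioi_rpow_of_lt (by linarith) h).const_mul _
  rw [ENNReal.ofReal_add (by positivity) (div_nonneg (by positivity) (by linarith))]
  apply add_le_add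
  · rw [← ofReal_integral_eq_lintegral_ofReal]
    · rw [← intervalIntegral.integral_of_le ha, integral_rpow (Or.inl (by linarith))]
      apply le_of_eq
      congr 1
      have e1 : γ - 1 + 1 = γ := by ring
      rw [e1, Real.zero_rpow hγ.ne', sub_zero]
    · exact (intervalIntegrable_iff_integrableOn_Ioc_of_le ha).1 hi
    · rw [EventuallyLE, ae_restrict_iff' measurableSet_Ioc]
      refine ae_of_all _ fun t ht => ?_
      have := ht.1
      simp only [Pi.zero_apply]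
      positivity
  · rw [← ofReal_integral_eq_lintegral_ofReal]
    · rw [integral_const_mul, integral_Ioi_rpow_of_lt (by linarith) h]
      apply le_of_eq
      congr 1
      have e1 : γ - α - 1 + 1 = γ - α := by ring
      have e2 : a ^ γ = a ^ α * a ^ (γ - α) := by rw [← Real.rpow_add h]; congr 1; ring
      rw [e1, e2]
      have h3 : α - γ ≠ 0 := by linarith
      have h4 : γ - α ≠ 0 := by linarith
      field_simp
      ring
    · exact hi2
    · rw [EventuallyLE, ae_restrict_iff' measurableSet_Ioi]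
      refine ae_of_all _ fun t ht => ?_
      have : 0 < t := h.trans ht
      simp only [Pi.zero_apply]
      positivity

/-- Chebyshev estimate for one level. -/
lemma level {β α : ℝ} (hβ : 0 < β) (hα : 0 < α) (h k k0 k1 : Ω → ℂ) (M : ℝ) (hM : 0 < M)
    (hk : k =ᵐ[μ] k0 + k1) (hk0 : AEStronglyMeasurable k0 μ) (hk1 : AEStronglyMeasurable k1 μ)
    (t : ℝ) (ht : 0 < t)
    (e0 : eLpNorm k0 (ENNReal.ofReal β) μ ≤
      ENNReal.ofReal M * eLpNorm (fun ω => h ω - tr t (h ω)) (ENNReal.ofReal β) μ)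
    (e1 : eLpNorm k1 (ENNReal.ofReal α) μ ≤
      ENNReal.ofReal M * eLpNorm (fun ω => tr t (h ω)) (ENNReal.ofReal α) μ) :
    μ {ω | t < ‖k ω‖ / (2*M)} ≤ (∫⁻ ω, ENNReal.ofReal (t ^ (-β) * (max (‖h ω‖ - t) 0) ^ β) ∂μ) +
      ∫⁻ ω, ENNReal.ofReal (t ^ (-α) * (min ‖h ω‖ t) ^ α) ∂μ := by
  have hsub : μ {ω | t < ‖k ω‖ / (2*M)} ≤ μ ({ω | M*t ≤ ‖k0 ω‖} ∪ {ω | M*t ≤ ‖k1 ω‖}) := by
    apply measure_mono_ae
    filter_upwards [hk] with ω hω hlt
    have hlt' : t < ‖k ω‖ / (2*M) := hlt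
    rw [lt_div_iff₀ (by positivity)] at hlt'
    have h1 : ‖k ω‖ ≤ ‖k0 ω‖ + ‖k1 ω‖ := by rw [hω]; exact norm_add_le _ _
    by_contra hcon
    have hcon' : ¬ (M*t ≤ ‖k0 ω‖ ∨ M*t ≤ ‖k1 ω‖) := hcon
    push Not at hcon'
    nlinarith [hcon'.1, hcon'.2]
  refine hsub.trans ((measure_union_le _ _).trans ?_)
  have key : ∀ (p : ℝ) (hp : 0 < p) (f F : Ω → ℂ) (hf : AEStronglyMeasurable f μ)
      (e : eLpNorm f (ENNReal.ofReal p) μ ≤ ENNReal.ofReal M * eLpNorm F (ENNReal.ofReal p) μ),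
      μ {ω | M*t ≤ ‖f ω‖} ≤ ∫⁻ ω, ENNReal.ofReal (t ^ (-p) * ‖F ω‖ ^ p) ∂μ := by
    intro p hp f F hf e
    refine (cheb f hf p hp (M*t) (by positivity)).trans ?_
    have e2 : eLpNorm f (ENNReal.ofReal p) μ ^ p ≤
        ENNReal.ofReal (M ^ p) * ∫⁻ ω, ENNReal.ofReal (‖F ω‖ ^ p) ∂μ := by
      rw [← eL F p hp]
      refine (ENNReal.rpow_le_rpow e hp.le).trans ?_
      rw [ENNReal.mul_rpow_of_nonneg _ _ hp.le, ENNReal.ofReal_rpow_of_pos hM]
    refine (mul_le_mul_right e2 _).trans ?_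
    rw [← mul_assoc, ← ENNReal.ofReal_mul (by positivity)]
    have e3 : (M*t) ^ (-p) * M ^ p = t ^ (-p) := by
      rw [Real.mul_rpow hM.le ht.le]
      have : M ^ (-p) * M ^ p = 1 := by rw [← Real.rpow_add hM, neg_add_cancel, Real.rpow_zero]
      calc M ^ (-p) * t ^ (-p) * M ^ p = (M ^ (-p) * M ^ p) * t ^ (-p) := by ring
        _ = t ^ (-p) := by rw [this, one_mul]
    rw [e3, ← lintegral_const_mul' _ _ ENNReal.ofReal_ne_top]
    apply le_of_eq
    apply lintegral_congr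
    intro ω
    rw [ENNReal.ofReal_mul (by positivity)]
  refine add_le_add ?_ ?_
  · refine (key β hβ k0 _ hk0 e0).trans (le_of_eq ?_)
    apply lintegral_congr
    intro ω
    rw [norm_sub_tr ht.le]
  · refine (key α hα k1 _ hk1 e1).trans (le_of_eq ?_)
    apply lintegral_congr
    intro ω
    rw [norm_tr ht.le]

theorem core {β γ α : ℝ} (hβ : 0 < β) (h1 : β < γ) (h2 : γ < α) [SFinite μ] (h k : Ω → ℂ)
    (hh : Measurable h) (hkm : AEStronglyMeasurable k μ) (M : ℝ) (hM : 0 < M)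
    (hyp : ∀ t : ℝ, 0 < t → ∃ k0 k1 : Ω → ℂ, k =ᵐ[μ] k0 + k1 ∧ AEStronglyMeasurable k0 μ ∧
      AEStronglyMeasurable k1 μ ∧
      eLpNorm k0 (ENNReal.ofReal β) μ ≤
        ENNReal.ofReal M * eLpNorm (fun ω => h ω - tr t (h ω)) (ENNReal.ofReal β) μ ∧
      eLpNorm k1 (ENNReal.ofReal α) μ ≤
        ENNReal.ofReal M * eLpNorm (fun ω => tr t (h ω)) (ENNReal.ofReal α) μ) :
    ∫⁻ ω, ENNReal.ofReal ((‖k ω‖ / (2*M)) ^ γ) ∂μ ≤
      ENNReal.ofReal (CC β γ α) * ∫⁻ ω, ENNReal.ofReal (‖h ω‖ ^ γ) ∂μ := by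
  have hγ : 0 < γ := hβ.trans h1
  have hα : 0 < α := hγ.trans h2
  have hkm' : AEMeasurable (fun ω => ‖k ω‖ / (2*M)) μ := (hkm.norm.aemeasurable).div_const _
  rw [lintegral_rpow_eq_lintegral_meas_lt_mul μ (ae_of_all _ fun ω => by
    show (0:ℝ) ≤ ‖k ω‖ / (2*M); positivity) hkm' hγ]
  have hstep : ∀ t ∈ Ioi (0:ℝ), μ {ω | t < ‖k ω‖ / (2*M)} * ENNReal.ofReal (t ^ (γ - 1)) ≤
      ∫⁻ ω, (ENNReal.ofReal (t ^ (-β) * (max (‖h ω‖ - t) 0) ^ β * t ^ (γ-1)) +
        ENNReal.ofReal (t ^ (-α) * (min ‖h ω‖ t) ^ α * t ^ (γ-1))) ∂μ := by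
    intro t ht
    have ht0 : 0 < t := ht
    obtain ⟨k0, k1, hk, hk0, hk1, e0, e1⟩ := hyp t ht0
    refine (mul_le_mul_left (level hβ hα h k k0 k1 M hM hk hk0 hk1 t ht0 e0 e1) _).trans ?_
    have hm : Measurable (fun ω => ENNReal.ofReal (t ^ (-β) * (max (‖h ω‖ - t) 0) ^ β * t ^ (γ-1))) := by
      fun_prop
    rw [lintegral_add_left hm, add_mul, ← lintegral_mul_const' _ _ ENNReal.ofReal_ne_top,
      ← lintegral_mul_const' _ _ ENNReal.ofReal_ne_top]
    apply le_of_eq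
    congr 1
    · apply lintegral_congr
      intro ω
      rw [← ENNReal.ofReal_mul (by positivity)]
    · apply lintegral_congr
      intro ω
      have : 0 ≤ min ‖h ω‖ t := le_min (norm_nonneg _) ht0.le
      rw [← ENNReal.ofReal_mul (by positivity)]
  refine (mul_le_mul_right (setLIntegral_mono' measurableSet_Ioi hstep) _).trans ?_
  have hmeas : Measurable (fun p : ℝ × Ω => ENNReal.ofReal (p.1 ^ (-β) * (max (‖h p.2‖ - p.1) 0) ^ β * p.1 ^ (γ-1)) +
        ENNReal.ofReal (p.1 ^ (-α) * (min ‖h p.2‖ p.1) ^ α * p.1 ^ (γ-1))) := by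
    have hh2 : Measurable (fun p : ℝ × Ω => ‖h p.2‖) := (hh.comp measurable_snd).norm
    fun_prop
  rw [lintegral_lintegral_swap hmeas.aemeasurable]
  have hinner : ∀ ω, ∫⁻ t in Ioi (0:ℝ), (ENNReal.ofReal (t ^ (-β) * (max (‖h ω‖ - t) 0) ^ β * t ^ (γ-1)) +
        ENNReal.ofReal (t ^ (-α) * (min ‖h ω‖ t) ^ α * t ^ (γ-1))) ≤
        ENNReal.ofReal (1/(γ-β) + (1/γ + 1/(α-γ))) * ENNReal.ofReal (‖h ω‖ ^ γ) := by
    intro ω
    rw [lintegral_add_left (by fun_prop)]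
    refine (add_le_add (int1 h1 hβ ‖h ω‖ (norm_nonneg _)) (int2 h2 hγ ‖h ω‖ (norm_nonneg _))).trans ?_
    have p1 : 0 < γ - β := by linarith
    have p2 : 0 < α - γ := by linarith
    rw [← ENNReal.ofReal_add (by positivity) (by positivity), ← ENNReal.ofReal_mul (by positivity)]
    apply le_of_eq
    congr 1
    ring
  refine (mul_le_mul_right (lintegral_mono hinner) _).trans ?_
  rw [lintegral_const_mul' _ _ ENNReal.ofReal_ne_top, ← mul_assoc, ← ENNReal.ofReal_mul hγ.le]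
  rfl

end Pool.Agent.H493.LI
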