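import Mathlib

/-!
Real-variable part of the polarization upper bound: tangent line inequality for `t ↦ t ^ (-s)`,
weak majorization, and the choice of the good point among `0, h, 2h, ..., Nh`.
-/

set_option autoImplicit false

namespace Pool.Agent.H493.Pol

/-- tangent line inequality for `t ↦ t ^ (-s)`, `s ≥ 0` -/
lemma tangent {s a b : ℝ} (hs : 0 ≤ s) (ha : 0 < a) (hb : 0 < b) :
    a ^ (-s) + (-s * a ^ (-s - 1)) * (b - a) ≤ b ^ (-s) := by
  have ht : 0 < b / a := div_pos hb ha
  have h1 : 1 - s * (b / a - 1) ≤ (b / a) ^ (-s) := by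
    rw [Real.rpow_def_of_pos ht]
    have h2 := Real.add_one_le_exp (Real.log (b / a) * -s)
    have h3 := Real.log_le_sub_one_of_pos ht
    nlinarith
  have h4 : b ^ (-s) = a ^ (-s) * (b / a) ^ (-s) := by
    rw [← Real.mul_rpow ha.le ht.le]
    congr 1
    field_simp
  have h5 : a ^ (-s - 1) = a ^ (-s) / a := by
    rw [Real.rpow_sub ha, Real.rpow_one]
  rw [h4, h5]
  have h6 : 0 < a ^ (-s) := Real.rpow_pos_of_pos ha _
  have h7 : a ^ (-s) + -s * (a ^ (-s) / a) * (b - a) = a ^ (-s) * (1 - s * (b / a - 1)) := by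
    field_simp
    ring
  rw [h7]
  exact mul_le_mul_of_nonneg_left h1 h6.le

/-- midpoint convexity of `t ↦ t ^ (-s)` -/
lemma midpoint_convex {s a b m : ℝ} (hs : 0 ≤ s) (ha : 0 < a) (hb : 0 < b) (hm : a + b = 2 * m) :
    2 * m ^ (-s) ≤ a ^ (-s) + b ^ (-s) := by
  have hm0 : 0 < m := by linarith
  have h1 := tangent hs hm0 ha
  have h2 := tangent hs hm0 hb
  have h3 : a - m = -(b - m) := by linarith
  rw [h3] at h1
  linarith

/-- weak majorization (Tomić–Weyl) for the decreasing convex function `t ↦ t ^ (-s)` -/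
lemma weak_maj {s : ℝ} (hs : 0 ≤ s) (r e : ℕ → ℝ) (he : ∀ i, 0 < e i) :
    ∀ n : ℕ, (∀ i j, i ≤ j → j < n → r i ≤ r j) →
      (∀ m ≤ n, 0 ≤ ∑ i ∈ Finset.range m, (r i - e i)) →
      (∀ i < n, 0 < r i) ∧ ∑ i ∈ Finset.range n, (r i) ^ (-s) ≤ ∑ i ∈ Finset.range n, (e i) ^ (-s) := by
  intro n hr hp
  have hpos : ∀ i < n, 0 < r i := by
    intro i hi
    have h1 := hp 1 (by omega)
    simp at h1
    have h2 := hr 0 i (by omega) hi
    have := he 0
    linarith
  refine ⟨hpos, ?_⟩
  rcases Nat.eq_zero_or_pos n with hn0 | hn0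
  · subst hn0; simp
  -- the key estimate by induction
  have key : ∀ m, m + 1 ≤ n →
      (-s * (r m) ^ (-s - 1)) * (∑ i ∈ Finset.range (m + 1), (e i - r i)) ≤
        ∑ i ∈ Finset.range (m + 1), ((e i) ^ (-s) - (r i) ^ (-s)) := by
    intro m
    induction m with
    | zero =>
      intro h
      simp only [zero_add, Finset.range_one, Finset.sum_singleton]
      have := tangent hs (hpos 0 (by omega)) (he 0)
      linarith
    | succ m ih =>
      intro h
      have ih' := ih (by omega)
      rw [Finset.sum_range_succ, Finset.sum_range_succ _ (m + 1)]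
      have h1 := tangent hs (hpos (m + 1) (by omega)) (he (m + 1))
      have hD : ∑ i ∈ Finset.range (m + 1), (e i - r i) ≤ 0 := by
        have := hp (m + 1) (by omega)
        have h2 : ∑ i ∈ Finset.range (m + 1), (e i - r i) = - ∑ i ∈ Finset.range (m + 1), (r i - e i) := by
          rw [← Finset.sum_neg_distrib]
          apply Finset.sum_congr rfl
          intros; ring
        rw [h2]; linarith
      have hmono : (r (m + 1)) ^ (-s - 1) ≤ (r m) ^ (-s - 1) :=
        Real.rpow_le_rpow_of_nonpos (hpos m (by omega)) (hr m (m + 1) (by omega) (by omega)) (by linarith)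
      have h3 : (-s * (r (m+1)) ^ (-s - 1)) * (∑ i ∈ Finset.range (m + 1), (e i - r i)) ≤
          (-s * (r m) ^ (-s - 1)) * (∑ i ∈ Finset.range (m + 1), (e i - r i)) := by
        apply mul_le_mul_of_nonpos_right _ hD
        nlinarith
      linarith
  obtain ⟨m, rfl⟩ : ∃ m, n = m + 1 := ⟨n - 1, by omega⟩
  have h1 := key m le_rfl
  have hD : ∑ i ∈ Finset.range (m + 1), (e i - r i) ≤ 0 := by
    have := hp (m + 1) le_rfl
    have h2 : ∑ i ∈ Finset.range (m + 1), (e i - r i) = - ∑ i ∈ Finset.range (m + 1), (r i - e i) := by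
      rw [← Finset.sum_neg_distrib]
      apply Finset.sum_congr rfl
      intros; ring
    rw [h2]; linarith
  have hg : -s * (r m) ^ (-s - 1) ≤ 0 := by
    have := Real.rpow_nonneg (hpos m (by omega)).le (-s - 1)
    nlinarith
  have h4 := mul_nonneg_of_nonpos_of_nonpos hg hD
  rw [Finset.sum_sub_distrib (f := fun i => e i ^ (-s))] at h1
  linarith

/-- The good point: for `N` points `u 0 ≤ ... ≤ u (N-1)` on the line and a spacing `h`, one of the
points `0, h, ..., N h` has potential at most that of the midpoint of an equally spaced lattice. -/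
lemma good_point {s h : ℝ} (hs : 0 ≤ s) (hh : 0 < h) (N : ℕ) (u : ℕ → ℝ)
    (hu : ∀ i j, i ≤ j → j < N → u i ≤ u j) :
    ∃ k ≤ N, (∀ i < N, 0 < |k * h - u i|) ∧
      ∑ i ∈ Finset.range N, |k * h - u i| ^ (-s) ≤
        2 * ∑ i ∈ Finset.range N, ((i + 1/2 : ℝ) * h) ^ (-s) := by
  set S : ℕ → ℝ := fun k => ∑ i ∈ Finset.range k, (u i - (i + 1/2) * h) with hS
  obtain ⟨k, hk, hmin⟩ := Finset.exists_min_image (Finset.range (N + 1)) S ⟨0, by simp⟩
  have hkN : k ≤ N := by simpa [Nat.lt_succ_iff] using hk
  have he : ∀ i : ℕ, 0 < ((i : ℝ) + 1/2) * h := fun i => by positivity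
  -- right part
  have hright := weak_maj hs (fun i => u (k + i) - k * h) (fun i => ((i : ℝ) + 1/2) * h) he (N - k)
    (by
      intro i j hij hj
      have := hu (k + i) (k + j) (by omega) (by omega)
      simpa using this)
    (by
      intro m hm
      have h1 : S k ≤ S (k + m) := hmin _ (by simp; omega)
      have h2 : S (k + m) - S k = ∑ i ∈ Finset.range m, (u (k + i) - k * h - ((i : ℝ) + 1/2) * h) := by
        simp only [hS]
        rw [Finset.sum_range_add, add_sub_cancel_left]
        apply Finset.sum_congr rfl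
        intro i _
        push_cast
        ring
      rw [← h2]; linarith)
  have hleft := weak_maj hs (fun i => k * h - u (k - 1 - i)) (fun i => ((i : ℝ) + 1/2) * h) he k
    (by
      intro i j hij hj
      have := hu (k - 1 - j) (k - 1 - i) (by omega) (by omega)
      linarith)
    (by
      intro m hm
      have h1 : S k ≤ S (k - m) := hmin _ (by simp; omega)
      have h2 : ∀ m ≤ k, S (k - m) - S k = ∑ i ∈ Finset.range m, (k * h - u (k - 1 - i) - ((i : ℝ) + 1/2) * h) := by
        intro m
        induction m with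
        | zero => intro _; simp
        | succ m ih =>
          intro hm
          rw [Finset.sum_range_succ, ← ih (by omega)]
          have h3 : S (k - m) = S (k - (m + 1)) + (u (k - (m+1)) - (((k - (m+1) : ℕ) : ℝ) + 1/2) * h) := by
            have h4 : k - m = (k - (m + 1)) + 1 := by omega
            rw [h4]
            simp only [hS]
            rw [Finset.sum_range_succ]
          rw [h3]
          have h5 : k - 1 - m = k - (m + 1) := by omega
          rw [h5, Nat.cast_sub hm]
          push_cast
          ring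
      rw [← h2 m hm]; linarith)
  refine ⟨k, hkN, ?_, ?_⟩
  · intro i hi
    rcases lt_or_ge i k with hik | hik
    · have := hleft.1 (k - 1 - i) (by omega)
      have h5 : k - 1 - (k - 1 - i) = i := by omega
      rw [h5] at this
      rw [abs_pos]; linarith
    · have := hright.1 (i - k) (by omega)
      have h5 : k + (i - k) = i := by omega
      rw [h5] at this
      rw [abs_pos]; intro h0; linarith
  · have hsplit : ∑ i ∈ Finset.range N, |k * h - u i| ^ (-s) =
        ∑ i ∈ Finset.range k, |k * h - u i| ^ (-s) +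
          ∑ i ∈ Finset.range (N - k), |k * h - u (k + i)| ^ (-s) := by
      conv_lhs => rw [show N = k + (N - k) by omega]
      rw [Finset.sum_range_add]
    have hL : ∑ i ∈ Finset.range k, |k * h - u i| ^ (-s) =
        ∑ i ∈ Finset.range k, (k * h - u (k - 1 - i)) ^ (-s) := by
      rw [← Finset.sum_range_reflect (fun i => |k * h - u i| ^ (-s))]
      apply Finset.sum_congr rfl
      intro i hi
      rw [abs_of_pos (hleft.1 i (Finset.mem_range.1 hi))]
    have hR : ∑ i ∈ Finset.range (N - k), |k * h - u (k + i)| ^ (-s) =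
        ∑ i ∈ Finset.range (N - k), (u (k + i) - k * h) ^ (-s) := by
      apply Finset.sum_congr rfl
      intro i hi
      rw [abs_sub_comm, abs_of_pos (hright.1 i (Finset.mem_range.1 hi))]
    have hmonoSum : ∀ m ≤ N, ∑ i ∈ Finset.range m, (((i : ℝ) + 1/2) * h) ^ (-s) ≤
        ∑ i ∈ Finset.range N, (((i : ℝ) + 1/2) * h) ^ (-s) := by
      intro m hm
      apply Finset.sum_le_sum_of_subset_of_nonneg
      · intro i; simp; omega
      · intro i _ _
        exact Real.rpow_nonneg (he i).le _
    rw [hsplit, hL, hR]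
    have := hleft.2
    have := hright.2
    have := hmonoSum k hkN
    have := hmonoSum (N - k) (by omega)
    linarith

end Pool.Agent.H493.Pol
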