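import Mathlib
import Pool.Agent.H493.PolReal

/-!
Lower bound for constrained polarization on a compact set `K ⊆ ℝ`: a configuration built on the grid of
mesh `h`, with one point near the centre of each cell whose centre is within `η h` of `K`, and `M` extra copies
in the (few) cells that see a gap of `K` of length `≥ η h` nearby.
-/

set_option autoImplicit false
open MeasureTheory Metric
open scoped ENNReal

namespace Pool.Agent.H493.Pol

lemma enn_anti {a b : ℝ≥0∞} {s : ℝ} (hs : 0 ≤ s) (h : a ≤ b) : b ^ (-s) ≤ a ^ (-s) := by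
  rw [ENNReal.rpow_neg, ENNReal.rpow_neg]
  exact ENNReal.inv_le_inv.2 (ENNReal.rpow_le_rpow h hs)

lemma mem_cell {h y : ℝ} (hh : 0 < h) (j : ℤ) :
    ⌊y / h⌋ = j ↔ y ∈ Set.Ico (j * h) ((j + 1) * h) := by
  rw [Int.floor_eq_iff, le_div_iff₀ hh, div_lt_iff₀ hh, Set.mem_Ico]

lemma cell_disj {h : ℝ} {i j : ℤ} (hh : 0 < h) (hij : i ≠ j) :
    Disjoint (Set.Ico (i * h) ((i + 1) * h)) (Set.Ico (j * h) ((j + 1) * h)) := by
  apply Set.disjoint_left.2
  intro x hx hx'
  rw [← mem_cell hh] at hx hx'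
  exact hij (hx.symm.trans hx')

/-- number of cells meeting `K` -/
lemma count_cells {K : Set ℝ} {h : ℝ} (hh : 0 < h) (A : Finset ℤ)
    (hA : ∀ j ∈ A, ∃ y ∈ K, ⌊y / h⌋ = j) :
    (A.card : ℝ≥0∞) * ENNReal.ofReal h ≤ volume (cthickening h K) := by
  have h1 : (⋃ j ∈ A, Set.Ico ((j : ℝ) * h) ((j + 1) * h)) ⊆ cthickening h K := by
    intro x hx
    simp only [Set.mem_iUnion] at hx
    obtain ⟨j, hj, hx⟩ := hx
    obtain ⟨y, hyK, hy⟩ := hA j hj
    rw [mem_cell hh] at hy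
    apply mem_cthickening_of_dist_le x y h K hyK
    rw [Real.dist_eq, abs_le]
    constructor <;> nlinarith [hy.1, hy.2, hx.1, hx.2]
  calc (A.card : ℝ≥0∞) * ENNReal.ofReal h = ∑ j ∈ A, volume (Set.Ico ((j : ℝ) * h) ((j + 1) * h)) := by
        rw [← nsmul_eq_mul, ← Finset.sum_const]
        apply Finset.sum_congr rfl
        intro j _
        rw [Real.volume_Ico]
        congr 1
        ring
    _ = volume (⋃ j ∈ A, Set.Ico ((j : ℝ) * h) ((j + 1) * h)) := by
        rw [measure_biUnion_finset]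
        · intro i _ j _ hij
          exact cell_disj hh hij
        · intro j _
          exact measurableSet_Ico
    _ ≤ _ := measure_mono h1

/-- a cell meeting `K` which sees an approximate centre far from `K` has a full `η h` of gap nearby -/
lemma bad_mass {K : Set ℝ} (hK : IsCompact K) {h η : ℝ} (hh : 0 < h) (hη0 : 0 < η) (hη1 : η < 1/2)
    (J : ℕ) (j i : ℤ) (hj : ∃ y ∈ K, ⌊y / h⌋ = j) (hi : |i| ≤ J)
    (hc : ∀ x ∈ K, η * h < |x - ((j + i : ℤ) + 1/2) * h|) :
    ENNReal.ofReal (η * h) ≤ volume ((cthickening h K \ K) ∩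
      Set.Ico ((j - J - 1 : ℝ) * h) ((j + J + 2) * h)) := by
  obtain ⟨x0, hx0K, hx0⟩ := hj
  rw [mem_cell hh] at hx0
  set c : ℝ := ((j + i : ℤ) + 1/2) * h with hcdef
  have hi' := abs_le.1 hi
  have hiR1 : (i : ℝ) ≤ J := by exact_mod_cast hi'.2
  have hiR2 : -(J : ℝ) ≤ i := by exact_mod_cast hi'.1
  have hηh : 0 < η * h := mul_pos hη0 hh
  have hηh' : η * h < h := by nlinarith
  have hcj : c = (j : ℝ) * h + i * h + h / 2 := by
    rw [hcdef]; push_cast; ring
  have hJh : (i : ℝ) * h ≤ J * h := mul_le_mul_of_nonneg_right hiR1 hh.le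
  have hJh' : -(J : ℝ) * h ≤ i * h := mul_le_mul_of_nonneg_right hiR2 hh.le
  have hJ0 : 0 ≤ (J : ℝ) * h := by positivity
  rcases lt_or_ge x0 c with hlt | hge
  · obtain ⟨x1, ⟨hx1K, hx1c⟩, hx1⟩ := (hK.inter_right (isClosed_Iic (a := c))).exists_isGreatest
      ⟨x0, hx0K, hlt.le⟩
    have hx01 : x0 ≤ x1 := hx1 ⟨hx0K, hlt.le⟩
    have hx1c' : x1 ≤ c := hx1c
    have hx1far : x1 < c - η * h := by
      have := hc x1 hx1K
      rw [abs_sub_comm, abs_of_nonneg (sub_nonneg.2 hx1c')] at this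
      linarith
    have hsub : Set.Ioo x1 (x1 + η * h) ⊆ (cthickening h K \ K) ∩
        Set.Ico ((j - J - 1 : ℝ) * h) ((j + J + 2) * h) := by
      rintro t ⟨ht1, ht2⟩
      refine ⟨⟨?_, ?_⟩, ?_, ?_⟩
      · apply mem_cthickening_of_dist_le t x1 h K hx1K
        rw [Real.dist_eq, abs_le]
        constructor <;> linarith
      · intro htK
        exact absurd (hx1 ⟨htK, show t ≤ c by linarith⟩) (not_le.2 ht1)
      · have := hx0.1
        nlinarith
      · nlinarith
    calc ENNReal.ofReal (η * h) = volume (Set.Ioo x1 (x1 + η * h)) := by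
          rw [Real.volume_Ioo]; congr 1; ring
      _ ≤ _ := measure_mono hsub
  · obtain ⟨x1, ⟨hx1K, hx1c⟩, hx1⟩ := (hK.inter_right (isClosed_Ici (a := c))).exists_isLeast
      ⟨x0, hx0K, hge⟩
    have hx01 : x1 ≤ x0 := hx1 ⟨hx0K, hge⟩
    have hx1c' : c ≤ x1 := hx1c
    have hx1far : c + η * h < x1 := by
      have := hc x1 hx1K
      rw [abs_of_nonneg (sub_nonneg.2 hx1c')] at this
      linarith
    have hsub : Set.Ioo (x1 - η * h) x1 ⊆ (cthickening h K \ K) ∩
        Set.Ico ((j - J - 1 : ℝ) * h) ((j + J + 2) * h) := by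
      rintro t ⟨ht1, ht2⟩
      refine ⟨⟨?_, ?_⟩, ?_, ?_⟩
      · apply mem_cthickening_of_dist_le t x1 h K hx1K
        rw [Real.dist_eq, abs_le]
        constructor <;> linarith
      · intro htK
        exact absurd (hx1 ⟨htK, show c ≤ t by linarith⟩) (not_le.2 ht2)
      · nlinarith
      · have := hx0.2
        nlinarith
    calc ENNReal.ofReal (η * h) = volume (Set.Ioo (x1 - η * h) x1) := by
          rw [Real.volume_Ioo]; congr 1; ring
      _ ≤ _ := measure_mono hsub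

lemma window_eq {h : ℝ} (hh : 0 < h) (J : ℕ) (j : ℤ) :
    Set.Ico ((j - J - 1 : ℝ) * h) ((j + J + 2) * h) ⊆
      ⋃ i ∈ Finset.Icc (-(J + 1 : ℤ)) (J + 1), Set.Ico (((j + i : ℤ) : ℝ) * h) (((j + i : ℤ) + 1) * h) := by
  intro x hx
  simp only [Set.mem_iUnion]
  refine ⟨⌊x / h⌋ - j, ?_, ?_⟩
  · rw [Finset.mem_Icc]
    constructor
    · have : ((j - J - 1 : ℤ)) ≤ ⌊x / h⌋ := by
        rw [Int.le_floor, le_div_iff₀ hh]
        push_cast
        exact hx.1
      omega
    · have : ⌊x / h⌋ < j + J + 2 := by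
        rw [Int.floor_lt, div_lt_iff₀ hh]
        push_cast
        exact hx.2
      omega
  · have h1 : j + (⌊x / h⌋ - j) = ⌊x / h⌋ := by ring
    rw [h1]
    exact (mem_cell hh _).1 rfl

/-- number of bad cells -/
lemma count_bad {K : Set ℝ} (hK : IsCompact K) {h η : ℝ} (hh : 0 < h) (hη0 : 0 < η) (hη1 : η < 1/2)
    (J : ℕ) (B : Finset ℤ)
    (hB : ∀ j ∈ B, (∃ y ∈ K, ⌊y / h⌋ = j) ∧ ∃ i : ℤ, |i| ≤ J ∧
      ∀ x ∈ K, η * h < |x - ((j + i : ℤ) + 1/2) * h|) :
    (B.card : ℝ≥0∞) * ENNReal.ofReal (η * h) ≤ (2 * J + 3) * volume (cthickening h K \ K) := by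
  set U := cthickening h K \ K with hU
  have hUm : MeasurableSet U := isClosed_cthickening.measurableSet.diff hK.measurableSet
  have h1 : ∀ j ∈ B, ENNReal.ofReal (η * h) ≤ ∑ i ∈ Finset.Icc (-(J + 1 : ℤ)) (J + 1),
      volume (U ∩ Set.Ico (((j + i : ℤ) : ℝ) * h) (((j + i : ℤ) + 1) * h)) := by
    intro j hj
    obtain ⟨hj1, i, hi, hi2⟩ := hB j hj
    refine (bad_mass hK hh hη0 hη1 J j i hj1 hi hi2).trans ?_
    refine le_trans (measure_mono ?_) (measure_biUnion_finset_le _ _)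
    rintro x ⟨hx1, hx2⟩
    have := window_eq hh J j hx2
    simp only [Set.mem_iUnion] at this ⊢
    obtain ⟨i, hi, hx⟩ := this
    exact ⟨i, hi, hx1, hx⟩
  calc (B.card : ℝ≥0∞) * ENNReal.ofReal (η * h) = ∑ j ∈ B, ENNReal.ofReal (η * h) := by
        rw [Finset.sum_const, nsmul_eq_mul]
    _ ≤ ∑ j ∈ B, ∑ i ∈ Finset.Icc (-(J + 1 : ℤ)) (J + 1),
      volume (U ∩ Set.Ico (((j + i : ℤ) : ℝ) * h) (((j + i : ℤ) + 1) * h)) := Finset.sum_le_sum h1
    _ = ∑ i ∈ Finset.Icc (-(J + 1 : ℤ)) (J + 1), ∑ j ∈ B,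
      volume (U ∩ Set.Ico (((j + i : ℤ) : ℝ) * h) (((j + i : ℤ) + 1) * h)) := Finset.sum_comm
    _ ≤ ∑ i ∈ Finset.Icc (-(J + 1 : ℤ)) (J + 1), volume U := by
        apply Finset.sum_le_sum
        intro i _
        rw [← measure_biUnion_finset]
        · apply measure_mono
          intro x hx
          simp only [Set.mem_iUnion] at hx
          obtain ⟨_, _, hx, _⟩ := hx
          exact hx
        · intro a _ b _ hab
          have : a + i ≠ b + i := by omega
          exact (cell_disj hh this).mono Set.inter_subset_right Set.inter_subset_right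
        · intro j _
          exact hUm.inter measurableSet_Ico
    _ = (2 * J + 3) * volume U := by
        rw [Finset.sum_const, Int.card_Icc, nsmul_eq_mul]
        congr 1
        have : ((J : ℤ) + 1 + 1 - -(J + 1)).toNat = 2 * J + 3 := by omega
        rw [this]
        push_cast
        ring

lemma sum_Ico_neg (g : ℤ → ℝ≥0∞) (J : ℕ) :
    ∑ i ∈ Finset.Ico (-(J : ℤ)) J, g i = ∑ k ∈ Finset.range J, (g k + g (-(k + 1 : ℤ))) := by
  induction J with
  | zero => simp
  | succ J ih =>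
    rw [Finset.sum_range_succ, ← ih]
    have h1 : Finset.Ico (-((J + 1 : ℕ) : ℤ)) ((J + 1 : ℕ) : ℤ) =
        insert (-(J + 1 : ℤ)) (insert (J : ℤ) (Finset.Ico (-(J : ℤ)) J)) := by
      ext x
      simp only [Finset.mem_Ico, Finset.mem_insert]
      push_cast
      omega
    rw [h1, Finset.sum_insert, Finset.sum_insert]
    · ring
    · simp
    · simp only [Finset.mem_insert, Finset.mem_Ico, Finset.mem_Ioc]; omega

lemma sum_Ioc_neg (g : ℤ → ℝ≥0∞) (J : ℕ) :
    ∑ i ∈ Finset.Ioc (-(J : ℤ)) J, g i = ∑ k ∈ Finset.range J, (g (-(k : ℤ)) + g (k + 1 : ℤ)) := by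
  induction J with
  | zero => simp
  | succ J ih =>
    rw [Finset.sum_range_succ, ← ih]
    have h1 : Finset.Ioc (-((J + 1 : ℕ) : ℤ)) ((J + 1 : ℕ) : ℤ) =
        insert (J + 1 : ℤ) (insert (-(J : ℤ)) (Finset.Ioc (-(J : ℤ)) J)) := by
      ext x
      simp only [Finset.mem_Ioc, Finset.mem_insert]
      push_cast
      omega
    rw [h1, Finset.sum_insert, Finset.sum_insert]
    · ring
    · simp
    · simp only [Finset.mem_insert, Finset.mem_Ico, Finset.mem_Ioc]; omega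

/-- one term of the lattice sum, in extended reals -/
lemma pair_bound {s η : ℝ} (hs : 0 ≤ s) (hη : 0 < η) (k : ℕ) {a b : ℝ} (ha : 0 ≤ a) (hb : 0 ≤ b)
    (hab : a + b = 2 * k + 1) :
    2 * (ENNReal.ofReal ((k : ℝ) + 1/2 + η)) ^ (-s) ≤
      (ENNReal.ofReal (a + η)) ^ (-s) + (ENNReal.ofReal (b + η)) ^ (-s) := by
  rw [ENNReal.ofReal_rpow_of_pos (by positivity), ENNReal.ofReal_rpow_of_pos (by positivity),
    ENNReal.ofReal_rpow_of_pos (by positivity), ← ENNReal.ofReal_add (by positivity) (by positivity)]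
  have h2 : (2 : ℝ≥0∞) = ENNReal.ofReal 2 := by simp
  rw [h2, ← ENNReal.ofReal_mul (by norm_num)]
  apply ENNReal.ofReal_le_ofReal
  exact midpoint_convex hs (by positivity) (by positivity) (by linarith)

/-- lattice bound: any point of a cell has large potential w.r.t. approximate centres of the
`2 J + 1` nearest cells -/
lemma lattice_bound {s η h y : ℝ} (hs : 0 ≤ s) (hη : 0 < η) (hh : 0 < h) (J : ℕ) (j : ℤ)
    (hy : y ∈ Set.Ico (j * h) ((j + 1) * h)) (p : ℤ → ℝ)
    (hp : ∀ i : ℤ, |i| ≤ J → |p (j + i) - ((j + i : ℤ) + 1/2) * h| ≤ η * h) :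
    (2 * ∑ k ∈ Finset.range J, (ENNReal.ofReal ((k : ℝ) + 1/2 + η)) ^ (-s)) * (ENNReal.ofReal h) ^ (-s) ≤
      ∑ i ∈ Finset.Icc (-(J : ℤ)) J, (ENNReal.ofReal |y - p (j + i)|) ^ (-s) := by
  set τ : ℝ := y / h - j with hτ
  have hτ0 : 0 ≤ τ := by
    rw [hτ, sub_nonneg, le_div_iff₀ hh]; exact hy.1
  have hτ1 : τ < 1 := by
    rw [hτ, sub_lt_iff_lt_add, div_lt_iff₀ hh]; linarith [hy.2]
  have hyτ : y = (j + τ) * h := by
    rw [hτ]; field_simp; ring
  -- each term
  have hterm : ∀ i : ℤ, |i| ≤ J → (ENNReal.ofReal (|τ - i - 1/2| + η)) ^ (-s) * (ENNReal.ofReal h) ^ (-s) ≤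
      (ENNReal.ofReal |y - p (j + i)|) ^ (-s) := by
    intro i hi
    rw [← ENNReal.mul_rpow_of_ne_top (by simp) (by simp), ← ENNReal.ofReal_mul (by positivity)]
    apply enn_anti hs
    apply ENNReal.ofReal_le_ofReal
    have h1 := hp i hi
    have h2 : y - p (j + i) = (τ - i - 1/2) * h - (p (j + i) - ((j + i : ℤ) + 1/2) * h) := by
      rw [hyτ]; push_cast; ring
    rw [h2]
    calc |(τ - i - 1/2) * h - (p (j + i) - ((j + i : ℤ) + 1/2) * h)| ≤
        |(τ - i - 1/2) * h| + |p (j + i) - ((j + i : ℤ) + 1/2) * h| := abs_sub _ _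
      _ ≤ |τ - i - 1/2| * h + η * h := by
          rw [abs_mul, abs_of_pos hh]; linarith
      _ = _ := by ring
  have hsumterm : (∑ i ∈ Finset.Icc (-(J : ℤ)) J, (ENNReal.ofReal (|τ - i - 1/2| + η)) ^ (-s)) *
      (ENNReal.ofReal h) ^ (-s) ≤ ∑ i ∈ Finset.Icc (-(J : ℤ)) J, (ENNReal.ofReal |y - p (j + i)|) ^ (-s) := by
    rw [Finset.sum_mul]
    apply Finset.sum_le_sum
    intro i hi
    rw [Finset.mem_Icc] at hi
    exact hterm i (abs_le.2 hi)
  refine le_trans ?_ hsumterm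
  gcongr
  rw [Finset.mul_sum]
  rcases lt_or_ge τ (1/2) with hlt | hge
  · calc ∑ k ∈ Finset.range J, 2 * (ENNReal.ofReal ((k : ℝ) + 1/2 + η)) ^ (-s) ≤
        ∑ k ∈ Finset.range J, ((ENNReal.ofReal (|τ - (k : ℤ) - 1/2| + η)) ^ (-s) +
          (ENNReal.ofReal (|τ - (-(k + 1 : ℤ) : ℤ) - 1/2| + η)) ^ (-s)) := by
          apply Finset.sum_le_sum
          intro k _
          apply pair_bound hs hη k (abs_nonneg _) (abs_nonneg _)
          have hk : (0 : ℝ) ≤ k := Nat.cast_nonneg k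
          rw [abs_of_nonpos (by push_cast; linarith), abs_of_nonneg (by push_cast; linarith)]
          push_cast
          ring
      _ = ∑ i ∈ Finset.Ico (-(J : ℤ)) J, (ENNReal.ofReal (|τ - i - 1/2| + η)) ^ (-s) := by
          rw [sum_Ico_neg (fun i => (ENNReal.ofReal (|τ - i - 1/2| + η)) ^ (-s))]
      _ ≤ _ := by
          apply Finset.sum_le_sum_of_subset
          intro i; simp only [Finset.mem_Ico, Finset.mem_Icc]; omega
  · calc ∑ k ∈ Finset.range J, 2 * (ENNReal.ofReal ((k : ℝ) + 1/2 + η)) ^ (-s) ≤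
        ∑ k ∈ Finset.range J, ((ENNReal.ofReal (|τ - (-(k : ℤ) : ℤ) - 1/2| + η)) ^ (-s) +
          (ENNReal.ofReal (|τ - ((k + 1 : ℤ) : ℤ) - 1/2| + η)) ^ (-s)) := by
          apply Finset.sum_le_sum
          intro k _
          apply pair_bound hs hη k (abs_nonneg _) (abs_nonneg _)
          have hk : (0 : ℝ) ≤ k := Nat.cast_nonneg k
          rw [abs_of_nonneg (by push_cast; linarith), abs_of_nonpos (by push_cast; linarith)]
          push_cast
          ring
      _ = ∑ i ∈ Finset.Ioc (-(J : ℤ)) J, (ENNReal.ofReal (|τ - i - 1/2| + η)) ^ (-s) := by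
          rw [sum_Ioc_neg (fun i => (ENNReal.ofReal (|τ - i - 1/2| + η)) ^ (-s))]
      _ ≤ _ := by
          apply Finset.sum_le_sum_of_subset
          intro i; simp only [Finset.mem_Ioc, Finset.mem_Icc]; omega

/-- the configuration -/
lemma lower_config {K : Set ℝ} (hK : IsCompact K) {s h η : ℝ} (hs : 0 ≤ s) (hh : 0 < h)
    (hη0 : 0 < η) (hη1 : η < 1/2) (J M : ℕ)
    (hM : 2 * ∑ k ∈ Finset.range J, (ENNReal.ofReal ((k : ℝ) + 1/2 + η)) ^ (-s) ≤ (M : ℝ≥0∞)) :
    ∃ (ι : Type) (_ : Fintype ι) (x : ι → ℝ), (∀ i, x i ∈ K) ∧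
      (Fintype.card ι : ℝ≥0∞) * ENNReal.ofReal h ≤ volume (cthickening h K) +
        M * ((2 * J + 3) * volume (cthickening h K \ K) / ENNReal.ofReal η) ∧
      ∀ y ∈ K, (2 * ∑ k ∈ Finset.range J, (ENNReal.ofReal ((k : ℝ) + 1/2 + η)) ^ (-s)) *
        (ENNReal.ofReal h) ^ (-s) ≤ ∑ i, (ENNReal.ofReal |y - x i|) ^ (-s) := by
  classical
  -- cells meeting K
  have hZfin : ((fun y : ℝ => ⌊y / h⌋) '' K).Finite := by
    obtain ⟨R, hR⟩ := hK.isBounded.subset_closedBall 0
    apply (Set.finite_Icc (⌊-R / h⌋) (⌊R / h⌋)).subset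
    rintro j ⟨y, hy, rfl⟩
    have := hR hy
    rw [mem_closedBall, Real.dist_eq, sub_zero, abs_le] at this
    constructor
    · exact Int.floor_le_floor (div_le_div_of_nonneg_right this.1 hh.le)
    · exact Int.floor_le_floor (div_le_div_of_nonneg_right this.2 hh.le)
  set Z : Finset ℤ := hZfin.toFinset with hZ
  have hZmem : ∀ j, j ∈ Z ↔ ∃ y ∈ K, ⌊y / h⌋ = j := by
    intro j; simp [hZ]
  set P : ℤ → Prop := fun j => ∃ x ∈ K, |x - ((j : ℝ) + 1/2) * h| ≤ η * h with hP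
  have hPZ : ∀ j, P j → j ∈ Z := by
    rintro j ⟨x, hxK, hx⟩
    rw [hZmem]
    refine ⟨x, hxK, (mem_cell hh j).2 ?_⟩
    have hηh : η * h < h / 2 := by nlinarith
    rw [abs_le] at hx
    constructor <;> nlinarith [hx.1, hx.2]
  have hp : ∀ j : ℤ, ∃ x : ℝ, P j → (x ∈ K ∧ |x - ((j : ℝ) + 1/2) * h| ≤ η * h) := by
    intro j
    by_cases hj : P j
    · obtain ⟨x, hx⟩ := hj
      exact ⟨x, fun _ => hx⟩
    · exact ⟨0, fun h => absurd h hj⟩
  choose p hp using hp
  have hq : ∀ j : ℤ, ∃ x : ℝ, j ∈ Z → (x ∈ K ∧ x ∈ Set.Ico (j * h) ((j + 1) * h)) := by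
    intro j
    by_cases hj : j ∈ Z
    · obtain ⟨x, hx1, hx2⟩ := (hZmem j).1 hj
      exact ⟨x, fun _ => ⟨hx1, (mem_cell hh j).1 hx2⟩⟩
    · exact ⟨0, fun h => absurd h hj⟩
  choose q hq using hq
  set A : Finset ℤ := Z.filter P with hA
  set B : Finset ℤ := Z.filter (fun j => ∃ i : ℤ, |i| ≤ J ∧ ¬ P (j + i)) with hB
  refine ⟨A ⊕ (B × Fin M), inferInstance, Sum.elim (fun j => p j) (fun j => q j.1), ?_, ?_, ?_⟩
  · rintro (j | ⟨j, _⟩)
    · exact (hp j (Finset.mem_filter.1 j.2).2).1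
    · exact (hq j (Finset.mem_filter.1 j.2).1).1
  · have hcard : Fintype.card (A ⊕ (B × Fin M)) = A.card + B.card * M := by
      simp [Fintype.card_sum, Fintype.card_prod]
    rw [hcard]
    have h1 := count_cells (K := K) hh A (by
      intro j hj
      rw [hA, Finset.mem_filter] at hj
      exact (hZmem j).1 hj.1)
    have h2 := count_bad hK hh hη0 hη1 J B (by
      intro j hj
      rw [hB, Finset.mem_filter] at hj
      refine ⟨(hZmem j).1 hj.1, ?_⟩
      obtain ⟨i, hi, hi2⟩ := hj.2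
      refine ⟨i, hi, ?_⟩
      intro x hx
      by_contra hcon
      exact hi2 ⟨x, hx, not_lt.1 hcon⟩)
    have h3 : (B.card : ℝ≥0∞) * ENNReal.ofReal h ≤
        (2 * J + 3) * volume (cthickening h K \ K) / ENNReal.ofReal η := by
      rw [ENNReal.le_div_iff_mul_le (by left; simpa using hη0) (by left; simp)]
      rw [mul_assoc, mul_comm (ENNReal.ofReal h), ← ENNReal.ofReal_mul hη0.le]
      exact h2
    calc ((A.card + B.card * M : ℕ) : ℝ≥0∞) * ENNReal.ofReal h
        = A.card * ENNReal.ofReal h + M * (B.card * ENNReal.ofReal h) := by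
          push_cast; ring
      _ ≤ _ := by gcongr
  · intro y hy
    rw [Fintype.sum_sum_type]
    simp only [Sum.elim_inl, Sum.elim_inr]
    set j := ⌊y / h⌋ with hj
    have hyj : y ∈ Set.Ico ((j : ℝ) * h) ((j + 1) * h) := (mem_cell hh j).1 rfl
    have hjZ : j ∈ Z := (hZmem j).2 ⟨y, hy, rfl⟩
    by_cases hjB : j ∈ B
    · -- bad cell
      refine le_trans ?_ (le_add_left le_rfl)
      rw [Fintype.sum_prod_type]
      have h4 : (∑ _m : Fin M, (ENNReal.ofReal |y - q j|) ^ (-s)) ≤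
          ∑ b : B, ∑ _m : Fin M, (ENNReal.ofReal |y - q b|) ^ (-s) := by
        have := Finset.single_le_sum (s := Finset.univ)
          (f := fun b : B => ∑ _m : Fin M, (ENNReal.ofReal |y - q b|) ^ (-s))
          (fun _ _ => zero_le) (Finset.mem_univ (⟨j, hjB⟩ : B))
        exact this
      refine le_trans ?_ h4
      rw [Finset.sum_const, Finset.card_univ, Fintype.card_fin, nsmul_eq_mul]
      refine mul_le_mul' hM ?_
      apply enn_anti hs
      apply ENNReal.ofReal_le_ofReal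
      have := (hq j hjZ).2
      rw [abs_le]
      constructor <;> nlinarith [this.1, this.2, hyj.1, hyj.2]
    · -- good cell
      refine le_trans ?_ (le_add_right le_rfl)
      have hPi : ∀ i : ℤ, |i| ≤ J → P (j + i) := by
        intro i hi
        by_contra hcon
        exact hjB (by rw [hB, Finset.mem_filter]; exact ⟨hjZ, i, hi, hcon⟩)
      refine (lattice_bound hs hη0 hh J j hyj p (fun i hi => (hp (j + i) (hPi i hi)).2)).trans ?_
      rw [Finset.univ_eq_attach, Finset.sum_attach A (fun a => (ENNReal.ofReal |y - p a|) ^ (-s))]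
      have h5 : ∑ i ∈ Finset.Icc (-(J : ℤ)) J, (ENNReal.ofReal |y - p (j + i)|) ^ (-s) =
          ∑ a ∈ (Finset.Icc (-(J : ℤ)) J).map (addLeftEmbedding j), (ENNReal.ofReal |y - p a|) ^ (-s) := by
        rw [Finset.sum_map]
        rfl
      rw [h5]
      apply Finset.sum_le_sum_of_subset
      intro a ha
      rw [Finset.mem_map] at ha
      obtain ⟨i, hi, rfl⟩ := ha
      rw [Finset.mem_Icc] at hi
      have := hPi i (abs_le.2 hi)
      rw [hA, Finset.mem_filter]
      exact ⟨hPZ _ this, this⟩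

end Pool.Agent.H493.Pol
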