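import Mathlib
import Pool.Agent.H493.PolReal

/-!
Upper bound: for every compact `K ⊆ ℝ` of positive measure and every `N` points of `K` there is a point
`y ∈ K` with `∑ |y - x j| ^ (-s) ≤ 2 ∑_{i ≥ 0} (i + 1/2) ^ (-s) * (N / vol K) ^ s`.
The proof collapses the gaps of `K` by the 1-Lipschitz map `F t = vol (K ∩ (-∞, t])`.
-/

set_option autoImplicit false
open MeasureTheory
open scoped ENNReal

namespace Pool.Agent.H493.Pol

/-- the collapse map -/
noncomputable def F (K : Set ℝ) (t : ℝ) : ℝ := (volume (K ∩ Set.Iic t)).toReal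

lemma F_diff {K : Set ℝ} (hK : IsCompact K) {a b : ℝ} (hab : a ≤ b) :
    F K b - F K a = (volume (K ∩ Set.Ioc a b)).toReal := by
  have hfin : ∀ S : Set ℝ, volume (K ∩ S) ≠ ⊤ := fun S =>
    ((measure_mono Set.inter_subset_left).trans_lt hK.measure_lt_top).ne
  have h1 : K ∩ Set.Iic b = (K ∩ Set.Iic a) ∪ (K ∩ Set.Ioc a b) := by
    rw [← Set.inter_union_distrib_left, Set.Iic_union_Ioc_eq_Iic hab]
  have h2 : Disjoint (K ∩ Set.Iic a) (K ∩ Set.Ioc a b) := by
    apply Set.disjoint_left.2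
    rintro x ⟨_, hx⟩ ⟨_, hx'⟩
    exact absurd hx (not_le.2 hx'.1)
  unfold F
  rw [h1, measure_union h2 (hK.measurableSet.inter measurableSet_Ioc),
    ENNReal.toReal_add (hfin _) (hfin _)]
  ring

lemma F_mono {K : Set ℝ} (hK : IsCompact K) : Monotone (F K) := by
  intro a b hab
  have := F_diff hK hab
  have h : 0 ≤ (volume (K ∩ Set.Ioc a b)).toReal := ENNReal.toReal_nonneg
  linarith

lemma F_lip {K : Set ℝ} (hK : IsCompact K) (a b : ℝ) : |F K b - F K a| ≤ |b - a| := by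
  wlog hab : a ≤ b generalizing a b
  · have := this b a (le_of_not_ge hab)
    rwa [abs_sub_comm, abs_sub_comm b a]
  rw [abs_of_nonneg (sub_nonneg.2 (F_mono hK hab)), abs_of_nonneg (sub_nonneg.2 hab), F_diff hK hab]
  have h1 : volume (K ∩ Set.Ioc a b) ≤ volume (Set.Ioc a b) := measure_mono Set.inter_subset_right
  rw [Real.volume_Ioc] at h1
  have := ENNReal.toReal_mono ENNReal.ofReal_ne_top h1
  rwa [ENNReal.toReal_ofReal (sub_nonneg.2 hab)] at this

lemma F_cont {K : Set ℝ} (hK : IsCompact K) : Continuous (F K) := by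
  have : LipschitzWith 1 (F K) := by
    apply LipschitzWith.of_dist_le_mul
    intro a b
    simpa [Real.dist_eq] using F_lip hK b a
  exact this.continuous

/-- the collapse map sends `K` onto `[0, vol K]` -/
lemma F_surj {K : Set ℝ} (hK : IsCompact K) (hne : K.Nonempty) {t : ℝ} (ht0 : 0 ≤ t)
    (ht1 : t ≤ (volume K).toReal) : ∃ y ∈ K, F K y = t := by
  obtain ⟨m, hmK, hm⟩ := hK.exists_isLeast hne
  obtain ⟨M, hMK, hM⟩ := hK.exists_isGreatest hne
  have hmM : m ≤ M := hm hMK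
  have hFm : F K m = 0 := by
    unfold F
    have : K ∩ Set.Iic m ⊆ {m} := by
      rintro x ⟨hxK, hx⟩
      exact le_antisymm hx (hm hxK)
    have h0 : volume (K ∩ Set.Iic m) = 0 := measure_mono_null this (by simp)
    simp [h0]
  have hFM : F K M = (volume K).toReal := by
    unfold F
    have : K ∩ Set.Iic M = K := Set.inter_eq_left.2 (fun x hx => hM hx)
    rw [this]
  obtain ⟨z, hz, hzt⟩ := intermediate_value_Icc hmM (F_cont hK).continuousOn
    (show t ∈ Set.Icc (F K m) (F K M) by rw [hFm, hFM]; exact ⟨ht0, ht1⟩)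
  have hcomp : IsCompact (K ∩ Set.Iic z) := hK.inter_right isClosed_Iic
  obtain ⟨y, ⟨hyK, hyz⟩, hy⟩ := hcomp.exists_isGreatest ⟨m, hmK, hz.1⟩
  refine ⟨y, hyK, ?_⟩
  have h1 := F_diff hK (show y ≤ z from hyz)
  have h2 : K ∩ Set.Ioc y z = ∅ := by
    apply Set.eq_empty_of_forall_notMem
    rintro x ⟨hxK, hx1, hx2⟩
    exact absurd (hy ⟨hxK, hx2⟩) (not_le.2 hx1)
  rw [h2] at h1
  simp at h1
  linarith

/-- real version of the upper bound -/
lemma upper_real {K : Set ℝ} (hK : IsCompact K) (hpos : 0 < (volume K).toReal) {s : ℝ} (hs : 0 ≤ s)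
    (N : ℕ) (hN : 0 < N) (x : Fin N → ℝ) (hx : ∀ i, x i ∈ K) :
    ∃ y ∈ K, (∀ j, 0 < |y - x j|) ∧
      ∑ j, |y - x j| ^ (-s) ≤
        2 * ∑ i ∈ Finset.range N, ((i + 1/2 : ℝ) * ((volume K).toReal / N)) ^ (-s) := by
  have hne : K.Nonempty := ⟨x ⟨0, hN⟩, hx _⟩
  set L := (volume K).toReal with hL
  have hNR : (0 : ℝ) < N := by exact_mod_cast hN
  -- sort
  set v : Fin N → ℝ := fun i => F K (x i) with hv
  set σ := Tuple.sort v with hσ
  have hmono : Monotone (v ∘ σ) := Tuple.monotone_sort v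
  set u : ℕ → ℝ := fun i => if h : i < N then v (σ ⟨i, h⟩) else 0 with hu
  have hu_mono : ∀ i j, i ≤ j → j < N → u i ≤ u j := by
    intro i j hij hj
    have hi : i < N := lt_of_le_of_lt hij hj
    simp only [hu, hi, hj, dif_pos]
    exact hmono (show (⟨i, hi⟩ : Fin N) ≤ ⟨j, hj⟩ from hij)
  obtain ⟨k, hkN, hk1, hk2⟩ := good_point hs (div_pos hpos hNR) N u hu_mono
  have hkR : (k : ℝ) ≤ N := by exact_mod_cast hkN
  obtain ⟨y, hyK, hy⟩ := F_surj hK hne (t := k * (L / N)) (by positivity)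
    (by
      rw [mul_div_assoc', div_le_iff₀ hNR]
      nlinarith)
  have hlip : ∀ j, |k * (L / N) - v j| ≤ |y - x j| := by
    intro j
    rw [← hy]
    exact F_lip hK (x j) y
  have hsurj : ∀ j : Fin N, ∃ i < N, u i = v j := by
    intro j
    refine ⟨(σ.symm j : ℕ), (σ.symm j).2, ?_⟩
    simp [hu]
  have hposv : ∀ j, 0 < |k * (L / N) - v j| := by
    intro j
    obtain ⟨i, hi, hij⟩ := hsurj j
    rw [← hij]
    exact hk1 i hi
  refine ⟨y, hyK, fun j => lt_of_lt_of_le (hposv j) (hlip j), ?_⟩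
  calc ∑ j, |y - x j| ^ (-s) ≤ ∑ j, |k * (L / N) - v j| ^ (-s) := by
        apply Finset.sum_le_sum
        intro j _
        exact Real.rpow_le_rpow_of_nonpos (hposv j) (hlip j) (by linarith)
    _ = ∑ j, |k * (L / N) - v (σ j)| ^ (-s) := (Equiv.sum_comp σ (fun j => |k * (L / N) - v j| ^ (-s))).symm
    _ = ∑ i ∈ Finset.range N, |k * (L / N) - u i| ^ (-s) := by
        rw [Finset.sum_range]
        apply Finset.sum_congr rfl
        intro i _
        simp [hu]
    _ ≤ _ := hk2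

/-- the constant `2 ∑_{i ≥ 0} (i + 1/2) ^ (-s)` -/
noncomputable def Cs (s : ℝ) : ℝ≥0∞ := 2 * ∑' i : ℕ, (ENNReal.ofReal ((i : ℝ) + 1/2)) ^ (-s)

/-- extended-real version of the upper bound -/
lemma upper {K : Set ℝ} (hK : IsCompact K) (hpos : volume K ≠ 0) {s : ℝ} (hs : 0 ≤ s)
    (N : ℕ) (hN : 0 < N) (x : Fin N → ℝ) (hx : ∀ i, x i ∈ K) :
    ⨅ y ∈ K, ∑ j, (ENNReal.ofReal |y - x j|) ^ (-s) ≤
      Cs s * (volume K) ^ (-s) * (N : ℝ≥0∞) ^ s := by
  have hfin : volume K ≠ ⊤ := hK.measure_lt_top.ne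
  have hposR : 0 < (volume K).toReal := ENNReal.toReal_pos hpos hfin
  have hNR : (0 : ℝ) < N := by exact_mod_cast hN
  obtain ⟨y, hyK, hy1, hy2⟩ := upper_real hK hposR hs N hN x hx
  refine (iInf₂_le y hyK).trans ?_
  have h1 : ∑ j, (ENNReal.ofReal |y - x j|) ^ (-s) = ENNReal.ofReal (∑ j, |y - x j| ^ (-s)) := by
    rw [ENNReal.ofReal_sum_of_nonneg (fun j _ => Real.rpow_nonneg (abs_nonneg _) _)]
    apply Finset.sum_congr rfl
    intro j _
    rw [ENNReal.ofReal_rpow_of_pos (hy1 j)]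
  rw [h1]
  refine (ENNReal.ofReal_le_ofReal hy2).trans ?_
  rw [ENNReal.ofReal_mul (by norm_num), ENNReal.ofReal_sum_of_nonneg (fun j _ => Real.rpow_nonneg (by positivity) _)]
  have h2 : ∀ i : ℕ, ENNReal.ofReal ((((i : ℝ) + 1/2) * ((volume K).toReal / N)) ^ (-s)) =
      (ENNReal.ofReal ((i : ℝ) + 1/2)) ^ (-s) * ((volume K) ^ (-s) * (N : ℝ≥0∞) ^ s) := by
    intro i
    rw [← ENNReal.ofReal_rpow_of_pos (by positivity), ENNReal.ofReal_mul (by positivity),
      ENNReal.mul_rpow_of_ne_top (by simp) (by simp), ENNReal.ofReal_div_of_pos hNR,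
      ENNReal.ofReal_toReal hfin, ENNReal.ofReal_natCast]
    congr 1
    rw [div_eq_mul_inv, ENNReal.mul_rpow_of_ne_top hfin (by simp; omega), ENNReal.inv_rpow,
      ENNReal.rpow_neg, ENNReal.rpow_neg, inv_inv]
  simp_rw [h2]
  rw [← Finset.sum_mul, ← mul_assoc, mul_assoc (Cs s)]
  gcongr
  unfold Cs
  simp only [ENNReal.ofReal_ofNat]
  gcongr
  exact ENNReal.sum_le_tsum _

end Pool.Agent.H493.Pol
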