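import Mathlib
import Pool.Agent.H493.PolUpper
import Pool.Agent.H493.PolLower

/-!
The limit of the normalised polarization constants of an arbitrary nonempty compact subset of the line.
-/

set_option autoImplicit false
open MeasureTheory Metric Filter Topology
open scoped ENNReal

namespace Pool.Agent.H493.Pol

/-- `pol_s(K; N)` -/
noncomputable def pol (K : Set ℝ) (s : ℝ) (N : ℕ) : ℝ≥0∞ :=
  ⨆ (x : Fin N → ℝ) (_ : ∀ i, x i ∈ K), ⨅ y ∈ K, ∑ j, (ENNReal.ofReal |y - x j|) ^ (-s)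

lemma sup_ge {K : Set ℝ} (hne : K.Nonempty) {s : ℝ} {N : ℕ} {ι : Type} [Fintype ι] (x : ι → ℝ)
    (hx : ∀ i, x i ∈ K) (hcard : Fintype.card ι ≤ N) (T : ℝ≥0∞)
    (hT : ∀ y ∈ K, T ≤ ∑ i, (ENNReal.ofReal |y - x i|) ^ (-s)) : T ≤ pol K s N := by
  classical
  obtain ⟨p, hp⟩ := hne
  obtain ⟨e⟩ := Function.Embedding.nonempty_of_card_le (α := ι) (β := Fin N) (by simpa using hcard)
  set x' : Fin N → ℝ := Function.extend e x (fun _ => p) with hx'
  have hx'K : ∀ i, x' i ∈ K := by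
    intro i
    by_cases h : ∃ a, e a = i
    · obtain ⟨a, rfl⟩ := h
      rw [hx', e.injective.extend_apply]
      exact hx a
    · rw [hx', Function.extend_apply' _ _ _ h]
      exact hp
  refine le_iSup₂_of_le x' hx'K ?_
  refine le_iInf₂ fun y hy => (hT y hy).trans ?_
  calc ∑ i, (ENNReal.ofReal |y - x i|) ^ (-s) = ∑ i, (ENNReal.ofReal |y - x' (e i)|) ^ (-s) := by
        apply Finset.sum_congr rfl
        intro i _
        rw [hx', e.injective.extend_apply]
    _ = ∑ j ∈ Finset.univ.map e, (ENNReal.ofReal |y - x' j|) ^ (-s) := by rw [Finset.sum_map]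
    _ ≤ ∑ j, (ENNReal.ofReal |y - x' j|) ^ (-s) := Finset.sum_le_sum_of_subset (Finset.subset_univ _)

/-- eventual lower bound -/
lemma lower_eventually {K : Set ℝ} (hK : IsCompact K) (hne : K.Nonempty) {s : ℝ} (hs : 0 ≤ s)
    {η θ : ℝ} (hη0 : 0 < η) (hη1 : η < 1/2) (hθ : 0 < θ) (J : ℕ) :
    ∀ᶠ N : ℕ in atTop,
      (2 * ∑ k ∈ Finset.range J, (ENNReal.ofReal ((k : ℝ) + 1/2 + η)) ^ (-s)) *
        (volume K + ENNReal.ofReal θ) ^ (-s) ≤ pol K s N / (N : ℝ≥0∞) ^ s := by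
  set T := 2 * ∑ k ∈ Finset.range J, (ENNReal.ofReal ((k : ℝ) + 1/2 + η)) ^ (-s) with hT
  have hTfin : T ≠ ⊤ := by
    apply ENNReal.mul_ne_top (by simp)
    rw [ENNReal.sum_ne_top]
    intro k _
    apply ENNReal.rpow_ne_top_of_ne_zero
    · simp; positivity
    · simp
  obtain ⟨M, hM⟩ := ENNReal.exists_nat_gt hTfin
  have hfin : volume K ≠ ⊤ := hK.measure_lt_top.ne
  -- the cost function tends to `volume K`
  have hc := tendsto_measure_cthickening_of_isCompact (μ := (volume : Measure ℝ)) hK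
  have hdiff : Tendsto (fun r => volume (cthickening r K \ K)) (𝓝 0) (𝓝 0) := by
    have h1 : ∀ r, volume (cthickening r K \ K) = volume (cthickening r K) - volume K := by
      intro r
      rw [measure_sdiff (self_subset_cthickening K) hK.measurableSet.nullMeasurableSet hfin]
    simp_rw [h1]
    have := ENNReal.Tendsto.sub hc (tendsto_const_nhds (x := volume K)) (Or.inl hfin)
    simpa using this
  have hcost : Tendsto (fun r => volume (cthickening r K) +
        M * ((2 * J + 3) * volume (cthickening r K \ K) / ENNReal.ofReal η)) (𝓝 0) (𝓝 (volume K)) := by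
    have h1 : Tendsto (fun r => (M : ℝ≥0∞) * ((2 * J + 3) * volume (cthickening r K \ K) / ENNReal.ofReal η))
        (𝓝 0) (𝓝 (M * ((2 * J + 3) * 0 / ENNReal.ofReal η))) := by
      apply ENNReal.Tendsto.const_mul _ (Or.inr (by simp))
      apply ENNReal.Tendsto.div_const _ (Or.inr (by simpa using hη0))
      apply ENNReal.Tendsto.const_mul hdiff (Or.inr _)
      exact ENNReal.add_ne_top.2 ⟨ENNReal.mul_ne_top (by simp) (by simp), by simp⟩
    have h2 := hc.add h1
    simpa using h2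
  have hev : ∀ᶠ r in 𝓝 (0 : ℝ), volume (cthickening r K) +
        M * ((2 * J + 3) * volume (cthickening r K \ K) / ENNReal.ofReal η) <
        volume K + ENNReal.ofReal θ := by
    apply hcost.eventually_lt_const
    exact ENNReal.lt_add_right hfin (by simpa using hθ)
  set L := (volume K).toReal with hL
  have hLθ : 0 < L + θ := by have : 0 ≤ L := ENNReal.toReal_nonneg; linarith
  have hLθ' : ENNReal.ofReal (L + θ) = volume K + ENNReal.ofReal θ := by
    rw [ENNReal.ofReal_add ENNReal.toReal_nonneg hθ.le, ENNReal.ofReal_toReal hfin]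
  have hseq : Tendsto (fun N : ℕ => (L + θ) / N) atTop (𝓝 0) :=
    tendsto_const_div_atTop_nhds_zero_nat _
  filter_upwards [hseq.eventually hev, eventually_gt_atTop 0] with N hN hN0
  have hNR : (0 : ℝ) < N := by exact_mod_cast hN0
  have hh : 0 < (L + θ) / N := div_pos hLθ hNR
  obtain ⟨ι, _, x, hxK, hcard, hpot⟩ := lower_config hK hs hh hη0 hη1 J M hM.le
  have hcardN : Fintype.card ι ≤ N := by
    have h1 : (Fintype.card ι : ℝ≥0∞) * ENNReal.ofReal ((L + θ) / N) ≤
        (N : ℝ≥0∞) * ENNReal.ofReal ((L + θ) / N) := by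
      refine (hcard.trans hN.le).trans ?_
      rw [← hLθ', ← ENNReal.ofReal_natCast N, ← ENNReal.ofReal_mul hNR.le]
      apply ENNReal.ofReal_le_ofReal
      rw [mul_div_cancel₀ _ hNR.ne']
    have h2 := (ENNReal.mul_le_mul_iff_left (c := ENNReal.ofReal ((L + θ) / N))
      (by simpa using hh) (by simp)).1 h1
    exact_mod_cast h2
  have h3 := sup_ge hne x hxK hcardN _ hpot
  rw [ENNReal.le_div_iff_mul_le (by left; simp [hN0.ne', ENNReal.rpow_eq_zero_iff])
    (by left; exact ENNReal.rpow_ne_top_of_nonneg hs (by simp))]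
  refine le_trans (le_of_eq ?_) h3
  have h5 : (ENNReal.ofReal ((L + θ) / N)) ^ (-s) = (volume K + ENNReal.ofReal θ) ^ (-s) * (N : ℝ≥0∞) ^ s := by
    rw [ENNReal.ofReal_div_of_pos hNR, hLθ', ENNReal.ofReal_natCast, ENNReal.div_eq_inv_mul, mul_comm,
      ENNReal.mul_rpow_of_ne_top (ENNReal.add_ne_top.2 ⟨hfin, by simp⟩) (by simp; omega), ENNReal.inv_rpow,
      ENNReal.rpow_neg (N : ℝ≥0∞), inv_inv]
  rw [h5, ← hT, mul_assoc]

lemma Cs_ne_zero (s : ℝ) : Cs s ≠ 0 := by
  unfold Cs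
  rw [Ne, mul_eq_zero, not_or]
  refine ⟨by simp, ?_⟩
  rw [ENNReal.tsum_eq_zero]
  intro h
  have := h 0
  rw [ENNReal.rpow_eq_zero_iff] at this
  rcases this with ⟨h1, _⟩ | ⟨h1, _⟩
  · simp at h1
  · simp at h1

/-- **Main theorem**, with the constant in the form `2 ∑ (i + 1/2) ^ (-s)` -/
theorem pol_limit {K : Set ℝ} (hK : IsCompact K) (hne : K.Nonempty) {s : ℝ} (hs : 0 < s) :
    Tendsto (fun N : ℕ => pol K s N / (N : ℝ≥0∞) ^ s) atTop (𝓝 (Cs s * (volume K) ^ (-s))) := by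
  have hfin : volume K ≠ ⊤ := hK.measure_lt_top.ne
  -- lower bounds
  have hlow : ∀ n : ℕ, 3 ≤ n → ∀ᶠ N : ℕ in atTop,
      ((ENNReal.ofReal (1 + 2 / n)) ^ (-s) *
        (2 * ∑ k ∈ Finset.range n, (ENNReal.ofReal ((k : ℝ) + 1/2)) ^ (-s))) *
        (volume K + ENNReal.ofReal (1 / n)) ^ (-s) ≤ pol K s N / (N : ℝ≥0∞) ^ s := by
    intro n hn
    have hnR : (3 : ℝ) ≤ n := by exact_mod_cast hn
    have h1 := lower_eventually hK hne hs.le (η := 1 / n) (θ := 1 / n) (by positivity)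
      (by rw [div_lt_div_iff₀ (by positivity) (by norm_num)]; linarith) (by positivity) n
    filter_upwards [h1] with N hN
    refine le_trans ?_ hN
    refine mul_le_mul' ?_ le_rfl
    rw [← mul_assoc, mul_comm _ (2 : ℝ≥0∞), mul_assoc, Finset.mul_sum]
    refine mul_le_mul' le_rfl (Finset.sum_le_sum fun k _ => ?_)
    rw [← ENNReal.mul_rpow_of_ne_top (by simp) (by simp), ← ENNReal.ofReal_mul (by positivity)]
    apply enn_anti hs.le
    apply ENNReal.ofReal_le_ofReal
    have hk : (0 : ℝ) ≤ k := Nat.cast_nonneg k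
    have : (1 + 2 / (n : ℝ)) * (k + 1/2) = k + 1/2 + 1/n + (2 / n) * k := by ring
    rw [this]
    have : 0 ≤ (2 / (n : ℝ)) * k := by positivity
    linarith
  have hlim : Tendsto (fun n : ℕ => ((ENNReal.ofReal (1 + 2 / n)) ^ (-s) *
        (2 * ∑ k ∈ Finset.range n, (ENNReal.ofReal ((k : ℝ) + 1/2)) ^ (-s))) *
        (volume K + ENNReal.ofReal (1 / n)) ^ (-s)) atTop (𝓝 (Cs s * (volume K) ^ (-s))) := by
    have h1 : Tendsto (fun n : ℕ => (ENNReal.ofReal (1 + 2 / n)) ^ (-s)) atTop (𝓝 1) := by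
      have : Tendsto (fun n : ℕ => (1 : ℝ) + 2 / n) atTop (𝓝 (1 + 0)) :=
        tendsto_const_nhds.add (tendsto_const_div_atTop_nhds_zero_nat _)
      rw [add_zero] at this
      have h2 := (ENNReal.continuous_rpow_const (y := -s)).tendsto (ENNReal.ofReal 1)
      have h3 := h2.comp (ENNReal.tendsto_ofReal this)
      simpa [Function.comp_def] using h3
    have h2 : Tendsto (fun n : ℕ => 2 * ∑ k ∈ Finset.range n, (ENNReal.ofReal ((k : ℝ) + 1/2)) ^ (-s))
        atTop (𝓝 (Cs s)) := by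
      apply ENNReal.Tendsto.const_mul _ (Or.inr (by simp))
      exact ENNReal.tendsto_nat_tsum _
    have h3 : Tendsto (fun n : ℕ => (volume K + ENNReal.ofReal (1 / n)) ^ (-s)) atTop
        (𝓝 ((volume K) ^ (-s))) := by
      have h4 : Tendsto (fun n : ℕ => volume K + ENNReal.ofReal (1 / n)) atTop (𝓝 (volume K)) := by
        have : Tendsto (fun n : ℕ => (1 : ℝ) / n) atTop (𝓝 0) := tendsto_const_div_atTop_nhds_zero_nat _
        have := (tendsto_const_nhds (x := volume K)).add (ENNReal.tendsto_ofReal this)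
        simpa using this
      exact ((ENNReal.continuous_rpow_const (y := -s)).tendsto _).comp h4
    have h12 := ENNReal.Tendsto.mul h1 (Or.inl (by simp)) h2 (Or.inr (by simp))
    rw [one_mul] at h12
    refine ENNReal.Tendsto.mul h12 (Or.inl (Cs_ne_zero s)) h3 (Or.inl ?_)
    rw [Ne, ENNReal.rpow_eq_zero_iff]
    rintro (⟨_, h⟩ | ⟨h, _⟩)
    · linarith
    · exact hfin h
  -- upper bound
  have hup : ∀ᶠ N : ℕ in atTop, pol K s N / (N : ℝ≥0∞) ^ s ≤ Cs s * (volume K) ^ (-s) := by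
    filter_upwards [eventually_gt_atTop 0] with N hN
    by_cases h0 : volume K = 0
    · rw [h0, ENNReal.zero_rpow_of_neg (by linarith), ENNReal.mul_top (Cs_ne_zero s)]
      exact le_top
    · apply ENNReal.div_le_of_le_mul
      unfold pol
      refine iSup₂_le fun x hx => ?_
      exact upper hK h0 hs.le N hN x hx
  refine tendsto_order.2 ⟨?_, ?_⟩
  · intro a ha
    have h1 := (hlim.eventually_const_lt ha).and (eventually_ge_atTop 3)
    obtain ⟨n, hn1, hn2⟩ := h1.exists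
    filter_upwards [hlow n hn2] with N hN
    exact hn1.trans_le hN
  · intro a ha
    filter_upwards [hup] with N hN
    exact hN.trans_lt ha

/-- the constant in closed form -/
theorem Cs_eq {s : ℝ} (hs : 1 < s) :
    Cs s = ENNReal.ofReal (2 * (2 ^ s - 1) * (riemannZeta s).re) := by
  have hsum1 : Summable (fun n : ℕ => ((n : ℝ) + 1) ^ (-s)) := by
    have := (Real.summable_one_div_nat_add_rpow 1 s).2 hs
    refine this.congr fun n => ?_
    rw [abs_of_pos (by positivity), Real.rpow_neg (by positivity), one_div]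
  have hsumh : Summable (fun n : ℕ => ((n : ℝ) + 1/2) ^ (-s)) := by
    have := (Real.summable_one_div_nat_add_rpow (1/2) s).2 hs
    refine this.congr fun n => ?_
    rw [abs_of_pos (by positivity), Real.rpow_neg (by positivity), one_div]
  have hzeta : (riemannZeta s).re = ∑' n : ℕ, ((n : ℝ) + 1) ^ (-s) := by
    rw [zeta_eq_tsum_one_div_nat_add_one_cpow (by simpa using hs)]
    have : ∀ n : ℕ, 1 / ((n : ℂ) + 1) ^ (s : ℂ) = (((((n : ℝ) + 1) ^ (-s) : ℝ)) : ℂ) := by
      intro n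
      rw [Complex.ofReal_cpow (by positivity)]
      push_cast
      rw [Complex.cpow_neg, one_div]
    simp_rw [this]
    rw [← Complex.ofReal_tsum, Complex.ofReal_re]
  have hodd : ∀ n : ℕ, (((2 * n : ℕ) : ℝ) + 1) ^ (-s) = 2 ^ (-s) * ((n : ℝ) + 1/2) ^ (-s) := by
    intro n
    rw [← Real.mul_rpow (by norm_num) (by positivity)]
    congr 1
    push_cast
    ring
  have heven : ∀ n : ℕ, (((2 * n + 1 : ℕ) : ℝ) + 1) ^ (-s) = 2 ^ (-s) * ((n : ℝ) + 1) ^ (-s) := by
    intro n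
    rw [← Real.mul_rpow (by norm_num) (by positivity)]
    congr 1
    push_cast
    ring
  have hsplit : ∑' n : ℕ, ((n : ℝ) + 1) ^ (-s) =
      2 ^ (-s) * ∑' n : ℕ, ((n : ℝ) + 1/2) ^ (-s) + 2 ^ (-s) * ∑' n : ℕ, ((n : ℝ) + 1) ^ (-s) := by
    rw [← tsum_mul_left, ← tsum_mul_left]
    have he : HasSum (fun k : ℕ => (fun n : ℕ => ((n : ℝ) + 1) ^ (-s)) (2 * k))
        (∑' n : ℕ, 2 ^ (-s) * ((n : ℝ) + 1/2) ^ (-s)) := by
      have : (fun k : ℕ => (fun n : ℕ => ((n : ℝ) + 1) ^ (-s)) (2 * k)) =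
          fun n : ℕ => 2 ^ (-s) * ((n : ℝ) + 1/2) ^ (-s) := funext hodd
      rw [this]
      exact (hsumh.mul_left _).hasSum
    have ho : HasSum (fun k : ℕ => (fun n : ℕ => ((n : ℝ) + 1) ^ (-s)) (2 * k + 1))
        (∑' n : ℕ, 2 ^ (-s) * ((n : ℝ) + 1) ^ (-s)) := by
      have : (fun k : ℕ => (fun n : ℕ => ((n : ℝ) + 1) ^ (-s)) (2 * k + 1)) =
          fun n : ℕ => 2 ^ (-s) * ((n : ℝ) + 1) ^ (-s) := funext heven
      rw [this]
      exact (hsum1.mul_left _).hasSum
    exact (HasSum.even_add_odd he ho).tsum_eq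
  have h2s : (2 : ℝ) ^ (-s) * 2 ^ s = 1 := by
    rw [← Real.rpow_add (by norm_num)]; simp
  have h2pos : (0 : ℝ) < 2 ^ s := by positivity
  have hval : ∑' n : ℕ, ((n : ℝ) + 1/2) ^ (-s) = (2 ^ s - 1) * (riemannZeta s).re := by
    rw [hzeta]
    set A := ∑' n : ℕ, ((n : ℝ) + 1) ^ (-s)
    set H := ∑' n : ℕ, ((n : ℝ) + 1/2) ^ (-s)
    have h3 : 2 ^ s * A = H + A := by
      calc (2 : ℝ) ^ s * A = 2 ^ s * (2 ^ (-s) * H + 2 ^ (-s) * A) := by rw [← hsplit]
        _ = (2 ^ (-s) * 2 ^ s) * (H + A) := by ring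
        _ = H + A := by rw [h2s, one_mul]
    linarith
  unfold Cs
  have h4 : ∑' i : ℕ, (ENNReal.ofReal ((i : ℝ) + 1/2)) ^ (-s) =
      ENNReal.ofReal (∑' n : ℕ, ((n : ℝ) + 1/2) ^ (-s)) := by
    rw [ENNReal.ofReal_tsum_of_nonneg (fun n => Real.rpow_nonneg (by positivity) _) hsumh]
    apply tsum_congr
    intro i
    rw [ENNReal.ofReal_rpow_of_pos (by positivity)]
  rw [h4, hval, mul_assoc (2 : ℝ), ENNReal.ofReal_mul (show (0 : ℝ) ≤ 2 by norm_num), ENNReal.ofReal_ofNat]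

end Pool.Agent.H493.Pol
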